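import Pool.Agent.Lib.H44D.Defs

/-!
# H44D chunk A1 (S): multilinearity of the mixed form
-/

open Finset Equiv

set_option autoImplicit false

namespace Pool.Agent.H44D

open Pool.Agent.H69Hopf Pool.Agent.H69Gauss

variable {n : ℕ}

theorem mg_add (S T : Fin n → CA (2 * n)) :
    mg (fun i => S i + T i) = ∑ B : Finset (Fin n), mg (fun i => if i ∈ B then S i else T i) := by
  classical
  unfold mg
  refine Eq.trans ?_ Finset.sum_comm
  refine Finset.sum_congr rfl fun σ _ => ?_
  refine Eq.trans ?_ Finset.sum_comm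
  refine Finset.sum_congr rfl fun τ _ => ?_
  rw [← Finset.mul_sum]
  congr 1
  simp only [Pi.add_apply]
  rw [Finset.prod_add, Finset.powerset_univ]
  refine Finset.sum_congr rfl fun B _ => ?_
  rw [← Finset.prod_mul_prod_compl B (fun i => (if i ∈ B then S i else T i) (σ (fst i)) (σ (snd i))
    (τ (fst i)) (τ (snd i)))]
  congr 1
  · refine Finset.prod_congr rfl fun i hi => ?_
    rw [if_pos hi]
  · rw [← Finset.compl_eq_univ_sdiff]
    refine Finset.prod_congr rfl fun i hi => ?_
    rw [if_neg (Finset.mem_compl.1 hi)]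

theorem mg_smul (r : Fin n → ℂ) (T : Fin n → CA (2 * n)) :
    mg (fun i => r i • T i) = (∏ i, r i) * mg T := by
  unfold mg
  rw [Finset.mul_sum]
  refine Finset.sum_congr rfl fun σ _ => ?_
  rw [Finset.mul_sum]
  refine Finset.sum_congr rfl fun τ _ => ?_
  simp only [Pi.smul_apply, smul_eq_mul, Finset.prod_mul_distrib]
  ring

/-- Expansion of sums in all the slots. -/
theorem mg_sum {γ : Type} [Fintype γ] (T : Fin n → γ → CA (2 * n)) :
    mg (fun i => ∑ c, T i c) = ∑ c : Fin n → γ, mg (fun i => T i (c i)) := by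
  classical
  unfold mg
  refine Eq.trans ?_ Finset.sum_comm
  refine Finset.sum_congr rfl fun σ _ => ?_
  refine Eq.trans ?_ Finset.sum_comm
  refine Finset.sum_congr rfl fun τ _ => ?_
  rw [← Finset.mul_sum]
  congr 1
  simp only [Finset.sum_apply]
  rw [Finset.prod_univ_sum]
  simp [Fintype.piFinset_univ]

end Pool.Agent.H44D
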