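import Pool.Agent.Lib.H44D.Defs

/-!
# H44D chunk A2 (S/M): only the antisymmetrisation in the last two indices matters
-/

open Finset Equiv

set_option autoImplicit false

namespace Pool.Agent.H44D

open Pool.Agent.H69Hopf Pool.Agent.H69Gauss

variable {n : ℕ}

theorem mg_antisym (T T' : Fin n → CA (2 * n))
    (h : ∀ i a b c d, T i a b c d - T i a b d c = T' i a b c d - T' i a b d c) :
    mg T = mg T' := by
  unfold mg
  refine Finset.sum_congr rfl fun σ _ => ?_
  have h1 := antisym_expand (𝕜 := ℂ) (fun i k l => T i (σ (fst i)) (σ (snd i)) k l)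
  have h2 := antisym_expand (𝕜 := ℂ) (fun i k l => T' i (σ (fst i)) (σ (snd i)) k l)
  simp only [h] at h1
  have h3 : (2 : ℂ) ^ n ≠ 0 := pow_ne_zero _ two_ne_zero
  have h4 := mul_left_cancel₀ h3 (h1.symm.trans h2)
  simp only [sg, mul_assoc]
  rw [← Finset.mul_sum, ← Finset.mul_sum, h4]

end Pool.Agent.H44D
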