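import Pool.Agent.Lib.H44D.A1

/-!
# H44D chunk A3 (M): the mixed form is nonnegative on positive semidefinite arrays
-/

open Finset Equiv
open scoped ComplexOrder MatrixOrder

set_option autoImplicit false

namespace Pool.Agent.H44D

open Pool.Agent.H69Hopf Pool.Agent.H69Gauss

variable {n : ℕ}

theorem mg_nonneg (T : Fin n → CA (2 * n)) (h : ∀ i, CPos (T i)) : 0 ≤ mg T := by
  classical
  choose C hC using fun i => CStarAlgebra.nonneg_iff_eq_star_mul_self.mp (h i).nonneg
  have hT : T = fun i => ∑ γ : Fin (2 * n) × Fin (2 * n),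
      (fun a b c d => star (C i γ (a, b)) * C i γ (c, d) : CA (2 * n)) := by
    funext i a b c d
    have h1 := congrFun (congrFun (hC i) (a, b)) (c, d)
    rw [Matrix.mul_apply] at h1
    simp only [Matrix.of_apply, Matrix.star_apply] at h1
    rw [h1]
    simp only [Finset.sum_apply]
  rw [hT, mg_sum]
  refine Finset.sum_nonneg fun γ _ => ?_
  set z : ℂ := ∑ τ : Perm (Fin (2 * n)), ((Perm.sign τ : ℤ) : ℂ) *
    ∏ i : Fin n, C i (γ i) (τ (fst i), τ (snd i)) with hz
  have h2 : mg (fun i => (fun a b c d => star (C i (γ i) (a, b)) * C i (γ i) (c, d) : CA (2 * n)))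
      = star z * z := by
    unfold mg
    rw [hz, star_sum, Finset.sum_mul_sum]
    refine Finset.sum_congr rfl fun σ _ => Finset.sum_congr rfl fun τ _ => ?_
    rw [Finset.prod_mul_distrib, star_mul', star_prod]
    unfold sg
    have h3 : star ((Perm.sign σ : ℤ) : ℂ) = ((Perm.sign σ : ℤ) : ℂ) := by
      simp
    rw [h3]
    ring
  rw [h2]
  exact star_mul_self_nonneg z

end Pool.Agent.H44D
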