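import Pool.Agent.Lib.H44D.A3

/-!
# H44D chunk A4 (S/M): monotonicity of the mixed form
-/

open Finset Equiv
open scoped ComplexOrder

set_option autoImplicit false

namespace Pool.Agent.H44D

open Pool.Agent.H69Hopf Pool.Agent.H69Gauss

variable {n N : ℕ}

theorem cpos_zero : CPos (0 : CA N) := Matrix.PosSemidef.zero

theorem cpos_add {S T : CA N} (hS : CPos S) (hT : CPos T) : CPos (S + T) :=
  Matrix.PosSemidef.add hS hT

theorem cpos_smul {T : CA N} (hT : CPos T) {r : ℝ} (hr : 0 ≤ r) : CPos ((r : ℂ) • T) :=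
  Matrix.PosSemidef.smul hT (Complex.zero_le_real.2 hr)

theorem mg_mono (T T' : Fin n → CA (2 * n)) (h : ∀ i, CPos (T i)) (h' : ∀ i, CPos (T' i - T i)) :
    mg T ≤ mg T' := by
  classical
  have e1 : T' = fun i => T i + (T' i - T i) := by
    funext i
    rw [add_sub_cancel]
  have h1 : mg T = mg (fun i => if i ∈ (univ : Finset (Fin n)) then T i else T' i - T i) := by
    congr 1
    funext i
    rw [if_pos (Finset.mem_univ i)]
  rw [e1, mg_add, h1]
  refine Finset.single_le_sum (f := fun B : Finset (Fin n) =>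
    mg (fun i => if i ∈ B then T i else T' i - T i)) (fun B _ => ?_) (Finset.mem_univ _)
  refine mg_nonneg _ fun i => ?_
  split_ifs
  · exact h i
  · exact h' i

theorem mg_bound (T T' : Fin n → CA (2 * n)) (h : ∀ i, CPos (T' i - T i))
    (h' : ∀ i, CPos (T' i + T i)) : - mg T' ≤ mg T ∧ mg T ≤ mg T' := by
  classical
  set D : Fin n → CA (2 * n) := fun i => ((1 / 2 : ℝ) : ℂ) • (T' i + T i) with hD
  set E : Fin n → CA (2 * n) := fun i => ((1 / 2 : ℝ) : ℂ) • (T' i - T i) with hE
  have hDp : ∀ i, CPos (D i) := fun i => cpos_smul (h' i) (by norm_num)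
  have hEp : ∀ i, CPos (E i) := fun i => cpos_smul (h i) (by norm_num)
  set m : Finset (Fin n) → ℂ := fun B => mg (fun i => if i ∈ B then D i else E i) with hm
  have hm0 : ∀ B, 0 ≤ m B := fun B => mg_nonneg _ fun i => by
    split_ifs
    · exact hDp i
    · exact hEp i
  have e1 : T' = fun i => D i + E i := by
    funext i a b c d
    simp only [hD, hE, Pi.add_apply, Pi.smul_apply, Pi.sub_apply, smul_eq_mul]
    push_cast
    ring
  have e2 : T = fun i => D i + (-1 : ℂ) • E i := by
    funext i a b c d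
    simp only [hD, hE, Pi.add_apply, Pi.smul_apply, Pi.sub_apply, smul_eq_mul]
    push_cast
    ring
  have f1 : mg T' = ∑ B, m B := by
    rw [e1, mg_add]
  have f2 : mg T = ∑ B : Finset (Fin n), (-1 : ℂ) ^ Bᶜ.card * m B := by
    rw [e2, mg_add]
    refine Finset.sum_congr rfl fun B _ => ?_
    have h3 : (fun i => if i ∈ B then D i else (-1 : ℂ) • E i) =
        fun i => (if i ∈ B then (1 : ℂ) else -1) • (if i ∈ B then D i else E i) := by
      funext i
      split_ifs
      · rw [one_smul]
      · rfl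
    rw [h3, mg_smul, Finset.prod_ite]
    congr 1
    rw [Finset.prod_const_one, one_mul, Finset.prod_const]
    congr 2
    ext i
    simp
  constructor
  · rw [← sub_nonneg, sub_neg_eq_add, f1, f2, ← Finset.sum_add_distrib]
    refine Finset.sum_nonneg fun B _ => ?_
    rcases neg_one_pow_eq_or ℂ Bᶜ.card with h4 | h4
    · rw [h4, one_mul]
      exact add_nonneg (hm0 B) (hm0 B)
    · rw [h4]
      simp
  · rw [← sub_nonneg, f1, f2, ← Finset.sum_sub_distrib]
    refine Finset.sum_nonneg fun B _ => ?_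
    rcases neg_one_pow_eq_or ℂ Bᶜ.card with h4 | h4
    · rw [h4]
      simp
    · rw [h4, neg_one_mul, sub_neg_eq_add]
      exact add_nonneg (hm0 B) (hm0 B)

end Pool.Agent.H44D
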