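import Pool.Agent.Lib.H44D.Defs

/-!
# H44D chunk A5 (S/M): `H ⊗ H` for Hermitian matrices

The matrix of `tens A B` (indexed by pairs) is `Matrix.kroneckerMap (· * ·) A B = A ⊗ₖ B`
(`Matrix.kronecker`), and `Matrix.PosSemidef.kronecker` says that it is positive semidefinite if `A`, `B`
are.  `cpos_tens_sub` (`H - ρ ≥ 0`, `ρ ≥ 0`):
`H ⊗ H - ρ² 1 ⊗ 1 = (H-ρ) ⊗ (H-ρ) + ρ (H-ρ) ⊗ 1 + ρ 1 ⊗ (H-ρ)`.  `cpos_sub_tens` (`ρ ± H ≥ 0`):
`ρ² 1 ⊗ 1 - H ⊗ H = (1/2) ((ρ-H) ⊗ (ρ+H) + (ρ+H) ⊗ (ρ-H))` and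
`ρ² 1 ⊗ 1 + H ⊗ H = (1/2) ((ρ+H) ⊗ (ρ+H) + (ρ-H) ⊗ (ρ-H))`.
All the identities are entrywise identities, `ring` after unfolding.
-/

open Finset Equiv
open scoped ComplexOrder

set_option autoImplicit false

namespace Pool.Agent.H44D

open Pool.Agent.H69Hopf Pool.Agent.H69Gauss

variable {N : ℕ}

theorem cpos_tens {A B : CM N} (hA : A.PosSemidef) (hB : B.PosSemidef) : CPos (tens A B) := by
  have h := Matrix.PosSemidef.kronecker hA hB
  exact h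

theorem a5_add {S T : CA N} (hS : CPos S) (hT : CPos T) : CPos (S + T) := by
  have h := Matrix.PosSemidef.add hS hT
  exact h

theorem a5_smul {T : CA N} (hT : CPos T) {r : ℝ} (hr : 0 ≤ r) : CPos ((r : ℂ) • T) := by
  have h := Matrix.PosSemidef.smul hT (a := (r : ℂ)) (by exact_mod_cast hr)
  exact h

theorem cpos_one (N : ℕ) : CPos (tens (1 : CM N) 1) :=
  cpos_tens Matrix.PosSemidef.one Matrix.PosSemidef.one

theorem cpos_tens_sub {H : CM N} {ρ : ℝ} (hρ : 0 ≤ ρ) (h : (H - (ρ : ℂ) • (1 : CM N)).PosSemidef) :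
    CPos (tens H H - ((ρ : ℂ) ^ 2) • tens (1 : CM N) 1) := by
  have h1 := cpos_tens h h
  have h2 := a5_smul (cpos_tens h (Matrix.PosSemidef.one (n := Fin N) (R := ℂ))) hρ
  have h3 := a5_smul (cpos_tens (Matrix.PosSemidef.one (n := Fin N) (R := ℂ)) h) hρ
  have h4 := a5_add (a5_add h1 h2) h3
  have e : tens H H - ((ρ : ℂ) ^ 2) • tens (1 : CM N) 1 =
      tens (H - (ρ : ℂ) • (1 : CM N)) (H - (ρ : ℂ) • (1 : CM N)) + (ρ : ℂ) • tens (H - (ρ : ℂ) • (1 : CM N)) 1 +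
        (ρ : ℂ) • tens 1 (H - (ρ : ℂ) • (1 : CM N)) := by
    funext i j k l
    simp only [tens, Pi.sub_apply, Pi.add_apply, Pi.smul_apply, Matrix.sub_apply, Matrix.smul_apply, smul_eq_mul]
    ring
  rw [e]
  exact h4

theorem cpos_sub_tens {H : CM N} {ρ : ℝ} (h1 : ((ρ : ℂ) • (1 : CM N) - H).PosSemidef)
    (h2 : ((ρ : ℂ) • (1 : CM N) + H).PosSemidef) :
    CPos (((ρ : ℂ) ^ 2) • tens (1 : CM N) 1 - tens H H) ∧
      CPos (((ρ : ℂ) ^ 2) • tens (1 : CM N) 1 + tens H H) := by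
  have hh : (0 : ℝ) ≤ 1 / 2 := by norm_num
  constructor
  · have h3 := a5_smul (a5_add (cpos_tens h1 h2) (cpos_tens h2 h1)) hh
    have e : ((ρ : ℂ) ^ 2) • tens (1 : CM N) 1 - tens H H =
        ((1 / 2 : ℝ) : ℂ) • (tens ((ρ : ℂ) • (1 : CM N) - H) ((ρ : ℂ) • (1 : CM N) + H) +
          tens ((ρ : ℂ) • (1 : CM N) + H) ((ρ : ℂ) • (1 : CM N) - H)) := by
      funext i j k l
      simp only [tens, Pi.sub_apply, Pi.add_apply, Pi.smul_apply, Matrix.sub_apply, Matrix.add_apply,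
        Matrix.smul_apply, smul_eq_mul]
      push_cast
      ring
    rw [e]
    exact h3
  · have h3 := a5_smul (a5_add (cpos_tens h2 h2) (cpos_tens h1 h1)) hh
    have e : ((ρ : ℂ) ^ 2) • tens (1 : CM N) 1 + tens H H =
        ((1 / 2 : ℝ) : ℂ) • (tens ((ρ : ℂ) • (1 : CM N) + H) ((ρ : ℂ) • (1 : CM N) + H) +
          tens ((ρ : ℂ) • (1 : CM N) - H) ((ρ : ℂ) • (1 : CM N) - H)) := by
      funext i j k l
      simp only [tens, Pi.add_apply, Pi.smul_apply, Matrix.sub_apply, Matrix.add_apply,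
        Matrix.smul_apply, smul_eq_mul]
      push_cast
      ring
    rw [e]
    exact h3

end Pool.Agent.H44D
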