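import Pool.Agent.Lib.H44D.A1

/-!
# H44D chunk A6 (S/M): values of the mixed form; the constants

`mg_tens`: `∏ i, H (σ fst) (τ fst) * H (σ snd) (τ snd) = ∏ r : Fin (2 n), H (σ r) (τ r)` (products over
the pairs: compare `Lib/H69/Gauss/DetWick.lean`, `WW_eq`, or reindex `Fin (2 n)` by `Fin n × Fin 2`;
`H69Hopf.exists_fst_or_snd`, `fst_inj`, `snd_inj`, `fst_ne_snd` are in `Lib/H69/Hopf/Alt.lean`), then
`H69Gauss.sum_det`.
`mg_slot_one`: value `(2 n)!` for the identity; `cf_mul`: `cf n * (2 n)! = K4 n` (`H69Gauss.factorial_dff`).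
-/

open Finset Equiv

set_option autoImplicit false

namespace Pool.Agent.H44D

open Pool.Agent.H69Hopf Pool.Agent.H69Gauss

variable {n : ℕ}

theorem prod_pairs {R : Type*} [CommMonoid R] (f : Fin (2 * n) → R) :
    ∏ i : Fin n, (f (fst i) * f (snd i)) = ∏ r, f r := by
  classical
  have hinj : Function.Bijective (fun p : Fin n × Bool => if p.2 then fst p.1 else snd p.1) := by
    constructor
    · rintro ⟨i, a⟩ ⟨j, b⟩ h
      cases a <;> cases b <;> simp only [if_true, if_false, Bool.false_eq_true] at h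
      · rw [snd_inj] at h; rw [h]
      · exact absurd h.symm (fst_ne_snd _ _)
      · exact absurd h (fst_ne_snd _ _)
      · rw [fst_inj] at h; rw [h]
    · intro r
      obtain ⟨i, h | h⟩ := exists_fst_or_snd r
      · exact ⟨(i, true), by simp [h]⟩
      · exact ⟨(i, false), by simp [h]⟩
  rw [← (Equiv.ofBijective _ hinj).prod_comp, Fintype.prod_prod_type]
  refine Finset.prod_congr rfl fun i _ => ?_
  rw [Fintype.prod_bool]
  simp

theorem mg_tens (H : CM (2 * n)) :
    mg (fun _ : Fin n => tens H H) = ((2 * n).factorial : ℂ) * H.det := by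
  have h := sum_det (𝕜 := ℂ) (A := ℂ) H
  rw [← h]
  unfold mg
  refine Finset.sum_congr rfl fun σ _ => Finset.sum_congr rfl fun τ _ => ?_
  congr 1
  exact prod_pairs fun r => H (σ r) (τ r)

theorem mg_one (n : ℕ) :
    mg (fun _ : Fin n => tens (1 : CM (2 * n)) 1) = ((2 * n).factorial : ℂ) := by
  rw [mg_tens, Matrix.det_one, mul_one]

theorem cf_mul (n : ℕ) : cf n * ((2 * n).factorial : ℝ) = K4 n := by
  have h := (dff_pos n).ne'
  unfold cf K4
  rw [factorial_dff]
  have h4 : (4 : ℝ) ^ n = 2 ^ n * 2 ^ n := by rw [← mul_pow]; norm_num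
  rw [h4]
  field_simp

theorem cf_nonneg (p : ℕ) : 0 ≤ cf p := by
  have h := dff_pos p
  unfold cf
  positivity

end Pool.Agent.H44D
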