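import Pool.Agent.Lib.H44D.A4
import Pool.Agent.Lib.H44D.A5
import Pool.Agent.Lib.H44D.A6

/-!
# H44D chunk A7 (M): the function `Lam` for positive semidefinite `P`

`lam_neg`: `tens (-H) (-H) = tens H H`.
`lam_ge`: `P ≥ 0`, `H - ρ ≥ 0`, `ρ ≥ 0`.  Every term of `Lam` is `≥ 0` (`mg_nonneg`; `H ⊗ H ≥ 0` by
`cpos_tens`, `H = (H - ρ) + ρ` is psd; `cf_nonneg`), and the term `B = ∅` is `cf n * mg (fun _ => H ⊗ H)`,
which is `≥ cf n * mg (fun _ => ρ² 1 ⊗ 1) = cf n * ρ^(2n) * (2n)!` by `mg_mono`, `cpos_tens_sub`,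
`mg_smul`, `mg_one`, `cf_mul`.
`lam_bound`: for each `B`, `mg_bound` with `T = slot B P (H ⊗ H)`, `T' = slot B P (ρ² 1 ⊗ 1)`
(on `B`: `P - P = 0`, `P + P`; off `B`: `cpos_sub_tens`), `slot B P (ρ² 1 ⊗ 1) = slot B P (tens (ρ1) (ρ1))`.
`lam_one_nonneg`: `lam_ge` or directly.
-/

open Finset Equiv
open scoped ComplexOrder

set_option autoImplicit false

namespace Pool.Agent.H44D

open Pool.Agent.H69Hopf Pool.Agent.H69Gauss

variable {n : ℕ} {P : CA (2 * n)} {H : CM (2 * n)}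

theorem a7_tens_smul (ρ : ℝ) :
    tens ((ρ : ℂ) • (1 : CM (2 * n))) ((ρ : ℂ) • (1 : CM (2 * n))) =
      ((ρ : ℂ) ^ 2) • tens (1 : CM (2 * n)) 1 := by
  funext i j k l
  simp only [tens, Pi.smul_apply, Matrix.smul_apply, smul_eq_mul]
  ring

theorem a7_psd_smul_one {ρ : ℝ} (hρ : 0 ≤ ρ) : ((ρ : ℂ) • (1 : CM (2 * n))).PosSemidef :=
  Matrix.PosSemidef.one.smul (by exact_mod_cast hρ)

theorem a7_psd {ρ : ℝ} (hρ : 0 ≤ ρ) (h : (H - (ρ : ℂ) • (1 : CM (2 * n))).PosSemidef) :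
    H.PosSemidef := by
  have h1 := h.add (a7_psd_smul_one (n := n) hρ)
  simpa using h1

theorem a7_cf_nonneg (p : ℕ) : (0 : ℂ) ≤ (cf p : ℂ) := by
  exact_mod_cast cf_nonneg p

theorem a7_term_nonneg (hP : CPos P) (hH : H.PosSemidef) (B : Finset (Fin n)) :
    (0 : ℂ) ≤ (cf Bᶜ.card : ℂ) * mg (slot B P (tens H H)) := by
  refine mul_nonneg (a7_cf_nonneg _) (mg_nonneg _ fun i => ?_)
  by_cases hi : i ∈ B
  · simpa only [slot, if_pos hi] using hP
  · simpa only [slot, if_neg hi] using cpos_tens hH hH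

theorem a7_nonneg (hP : CPos P) (hH : H.PosSemidef) : (0 : ℂ) ≤ Lam P H :=
  Finset.sum_nonneg fun B _ => a7_term_nonneg hP hH B

theorem lam_neg (P : CA (2 * n)) (H : CM (2 * n)) : Lam P (-H) = Lam P H := by
  have h : tens (-H) (-H) = tens H H := by
    funext i j k l
    simp only [tens, Matrix.neg_apply]
    ring
  simp only [Lam, h]

theorem lam_ge (hP : CPos P) {ρ : ℝ} (hρ : 0 ≤ ρ)
    (h : (H - (ρ : ℂ) • (1 : CM (2 * n))).PosSemidef) :
    ((K4 n * ρ ^ (2 * n) : ℝ) : ℂ) ≤ Lam P H := by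
  have hH : H.PosSemidef := a7_psd hρ h
  have h1 : (cf (∅ : Finset (Fin n))ᶜ.card : ℂ) * mg (slot ∅ P (tens H H)) ≤ Lam P H :=
    Finset.single_le_sum (f := fun B : Finset (Fin n) =>
      (cf Bᶜ.card : ℂ) * mg (slot B P (tens H H))) (fun B _ => a7_term_nonneg hP hH B)
      (Finset.mem_univ ∅)
  refine le_trans ?_ h1
  have hs : slot ∅ P (tens H H) = fun _ : Fin n => tens H H := by
    funext i
    simp [slot]
  have hc : (∅ : Finset (Fin n))ᶜ.card = n := by simp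
  rw [hs, hc]
  have h2 : mg (fun _ : Fin n => ((ρ : ℂ) ^ 2) • tens (1 : CM (2 * n)) 1) ≤
      mg (fun _ : Fin n => tens H H) := by
    refine mg_mono _ _ (fun i => ?_) (fun i => cpos_tens_sub hρ h)
    have := cpos_smul (cpos_one (2 * n)) (sq_nonneg ρ)
    rwa [Complex.ofReal_pow] at this
  have h3 : mg (fun _ : Fin n => ((ρ : ℂ) ^ 2) • tens (1 : CM (2 * n)) 1) =
      ((ρ ^ (2 * n) * ((2 * n).factorial : ℝ) : ℝ) : ℂ) := by
    have h4 := mg_smul (fun _ : Fin n => (ρ : ℂ) ^ 2)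
      (fun _ : Fin n => tens (1 : CM (2 * n)) 1)
    rw [h4, mg_one, Finset.prod_const, Finset.card_univ, Fintype.card_fin, ← pow_mul]
    push_cast
    ring
  rw [h3] at h2
  have h5 : ((K4 n * ρ ^ (2 * n) : ℝ) : ℂ) =
      (cf n : ℂ) * ((ρ ^ (2 * n) * ((2 * n).factorial : ℝ) : ℝ) : ℂ) := by
    rw [← cf_mul n]
    push_cast
    ring
  rw [h5]
  exact mul_le_mul_of_nonneg_left h2 (a7_cf_nonneg n)

theorem lam_bound (hP : CPos P) {ρ : ℝ} (h1 : ((ρ : ℂ) • (1 : CM (2 * n)) - H).PosSemidef)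
    (h2 : ((ρ : ℂ) • (1 : CM (2 * n)) + H).PosSemidef) :
    - Lam P ((ρ : ℂ) • (1 : CM (2 * n))) ≤ Lam P H := by
  unfold Lam
  rw [← Finset.sum_neg_distrib]
  refine Finset.sum_le_sum fun B _ => ?_
  rw [← mul_neg]
  refine mul_le_mul_of_nonneg_left ?_ (a7_cf_nonneg _)
  refine (mg_bound (slot B P (tens H H))
    (slot B P (tens ((ρ : ℂ) • (1 : CM (2 * n))) ((ρ : ℂ) • (1 : CM (2 * n)))))
    (fun i => ?_) (fun i => ?_)).1
  · by_cases hi : i ∈ B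
    · simp only [slot, if_pos hi, sub_self]
      exact cpos_zero
    · simp only [slot, if_neg hi, a7_tens_smul]
      exact (cpos_sub_tens h1 h2).1
  · by_cases hi : i ∈ B
    · simp only [slot, if_pos hi]
      exact cpos_add hP hP
    · simp only [slot, if_neg hi, a7_tens_smul]
      exact (cpos_sub_tens h1 h2).2

theorem lam_one_nonneg (hP : CPos P) {ρ : ℝ} (hρ : 0 ≤ ρ) :
    0 ≤ Lam P ((ρ : ℂ) • (1 : CM (2 * n))) :=
  a7_nonneg hP (a7_psd_smul_one hρ)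

end Pool.Agent.H44D
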