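import Pool.Agent.Lib.H44D.A7

/-!
# H44D chunk A8 (M): the pointwise inequality

`X` with `-κ ≤ X ≤ κ`, `κ ≥ 0`, `x` real, `H = x 1 + X`.
* `3 κ ≤ |x|`: if `x ≥ 0` then `H - (2/3) x 1 = (x/3 - κ) 1 + (κ + X) ≥ 0`, and `lam_ge` with
  `ρ = (2/3) |x|` gives `Lam ≥ K4 n * (4/9)^n * x^(2n)`; if `x < 0` apply this to `-H` (`lam_neg`).
  The other terms of the left side are `≤ 0` (`lam_one_nonneg`).
* `κ ≤ |x| < 3 κ`: `± H ≥ 0`, so `Lam ≥ 0` (`lam_ge` with `ρ = 0`, `K4 n * 0 ^ (2 n) ≥ 0`), and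
  `(4/9)^n x^(2n) = ((2/3) |x|)^(2n) ≤ (2 κ)^(2n)`.
* `|x| < κ`: `-2κ ≤ H ≤ 2κ`, `lam_bound` with `ρ = 2 κ`, and `(4/9)^n x^(2n) ≤ (2 κ)^(2n)`.
Psd facts: `Matrix.PosSemidef.add`, `Matrix.PosSemidef.one`, `.smul`.  Real parts: `Complex.le_def`.
-/

open Finset Equiv
open scoped ComplexOrder

set_option autoImplicit false

namespace Pool.Agent.H44D

open Pool.Agent.H69Hopf Pool.Agent.H69Gauss

variable {n : ℕ} {P : CA (2 * n)} {X : CM (2 * n)}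

theorem a8_K4_nonneg (n : ℕ) : 0 ≤ K4 n := by
  unfold K4
  positivity

theorem a8_pow (y : ℝ) : ((2 / 3) * y) ^ (2 * n) = (4 / 9) ^ n * y ^ (2 * n) := by
  rw [mul_pow, pow_mul (2 / 3 : ℝ)]
  norm_num

/-- The case of positive `x`, large. -/
theorem a8_large (hP : CPos P) {κ x : ℝ} (hκ : 0 ≤ κ)
    (h2 : ((κ : ℂ) • (1 : CM (2 * n)) + X).PosSemidef) (hx : 3 * κ ≤ x) :
    K4 n * ((4 / 9) ^ n * x ^ (2 * n)) ≤ (Lam P ((x : ℂ) • (1 : CM (2 * n)) + X)).re := by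
  have hx0 : 0 ≤ x := by linarith
  have h3 : (((x : ℂ) • (1 : CM (2 * n)) + X) -
      (((2 / 3) * x : ℝ) : ℂ) • (1 : CM (2 * n))).PosSemidef := by
    have h4 := (a7_psd_smul_one (n := n) (ρ := x / 3 - κ) (by linarith)).add h2
    have h5 : ((x : ℂ) • (1 : CM (2 * n)) + X) - (((2 / 3) * x : ℝ) : ℂ) • (1 : CM (2 * n)) =
        ((x / 3 - κ : ℝ) : ℂ) • (1 : CM (2 * n)) + ((κ : ℂ) • (1 : CM (2 * n)) + X) := by
      have h6 : (((2 / 3) * x : ℝ) : ℂ) = (x : ℂ) - ((x / 3 - κ : ℝ) : ℂ) - (κ : ℂ) := by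
        push_cast
        ring
      rw [h6, sub_smul, sub_smul]
      abel
    rw [h5]
    exact h4
  have h7 := lam_ge hP (ρ := (2 / 3) * x) (by positivity) h3
  have h8 := (Complex.le_def.1 h7).1
  rw [Complex.ofReal_re, a8_pow] at h8
  exact h8

/-- The case of positive `x`, middle. -/
theorem a8_mid (hP : CPos P) {κ x : ℝ}
    (h2 : ((κ : ℂ) • (1 : CM (2 * n)) + X).PosSemidef) (hx : κ ≤ x) :
    0 ≤ (Lam P ((x : ℂ) • (1 : CM (2 * n)) + X)).re := by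
  have h4 := (a7_psd_smul_one (n := n) (ρ := x - κ) (by linarith)).add h2
  have h5 : ((x : ℂ) • (1 : CM (2 * n)) + X) =
      ((x - κ : ℝ) : ℂ) • (1 : CM (2 * n)) + ((κ : ℂ) • (1 : CM (2 * n)) + X) := by
    push_cast
    rw [sub_smul]
    abel
  rw [← h5] at h4
  exact (Complex.le_def.1 (a7_nonneg hP h4)).1

theorem a8_pow_le {κ x : ℝ} (hx : |x| ≤ 3 * κ) :
    (4 / 9 : ℝ) ^ n * x ^ (2 * n) ≤ (2 * κ) ^ (2 * n) := by
  rw [← a8_pow, ← abs_of_nonneg (show (0 : ℝ) ≤ (2 / 3 * x) ^ (2 * n) by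
    rw [pow_mul]; positivity), abs_pow, abs_mul]
  refine pow_le_pow_left₀ (by positivity) ?_ _
  rw [abs_of_pos (by norm_num : (0 : ℝ) < 2 / 3)]
  linarith

/-- The case `0 ≤ x`, all sizes at least `κ`. -/
theorem a8_pos (hP : CPos P) {κ x : ℝ} (hκ : 0 ≤ κ)
    (h2 : ((κ : ℂ) • (1 : CM (2 * n)) + X).PosSemidef) (hx : κ ≤ x) :
    K4 n * ((4 / 9) ^ n * x ^ (2 * n) - (2 * κ) ^ (2 * n)) -
      (Lam P (((2 * κ : ℝ) : ℂ) • (1 : CM (2 * n)))).re ≤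
        (Lam P ((x : ℂ) • (1 : CM (2 * n)) + X)).re := by
  have hS : 0 ≤ (Lam P (((2 * κ : ℝ) : ℂ) • (1 : CM (2 * n)))).re :=
    (Complex.le_def.1 (lam_one_nonneg hP (ρ := 2 * κ) (by linarith))).1
  have hK := a8_K4_nonneg n
  have hk2 : 0 ≤ (2 * κ) ^ (2 * n) := by positivity
  rcases le_or_gt (3 * κ) x with h | h
  · have h1 := a8_large hP hκ h2 h
    have h3 : 0 ≤ K4 n * (2 * κ) ^ (2 * n) := mul_nonneg hK hk2
    rw [mul_sub]
    linarith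
  · have h1 := a8_mid hP h2 hx
    have hx0 : 0 ≤ x := le_trans hκ hx
    have h4 : (4 / 9 : ℝ) ^ n * x ^ (2 * n) ≤ (2 * κ) ^ (2 * n) :=
      a8_pow_le (by rw [abs_of_nonneg hx0]; exact h.le)
    have h5 : K4 n * ((4 / 9) ^ n * x ^ (2 * n) - (2 * κ) ^ (2 * n)) ≤ 0 :=
      mul_nonpos_of_nonneg_of_nonpos hK (by linarith)
    linarith

theorem pointwise_lam (hP : CPos P) {κ x : ℝ} (hκ : 0 ≤ κ)
    (h1 : ((κ : ℂ) • (1 : CM (2 * n)) - X).PosSemidef)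
    (h2 : ((κ : ℂ) • (1 : CM (2 * n)) + X).PosSemidef) :
    K4 n * ((4 / 9) ^ n * x ^ (2 * n) - (2 * κ) ^ (2 * n)) -
      (Lam P (((2 * κ : ℝ) : ℂ) • (1 : CM (2 * n)))).re ≤
        (Lam P ((x : ℂ) • (1 : CM (2 * n)) + X)).re := by
  rcases le_or_gt κ x with hx | hx
  · exact a8_pos hP hκ h2 hx
  rcases le_or_gt κ (-x) with hx' | hx'
  · have h3 : ((κ : ℂ) • (1 : CM (2 * n)) + -X).PosSemidef := by
      rw [← sub_eq_add_neg]
      exact h1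
    have h4 := a8_pos hP hκ h3 hx'
    have h5 : (((-x : ℝ) : ℂ) • (1 : CM (2 * n)) + -X) = -((x : ℂ) • (1 : CM (2 * n)) + X) := by
      push_cast
      rw [neg_smul, neg_add]
    rw [h5, lam_neg, Even.neg_pow (even_two_mul n)] at h4
    exact h4
  · have hK := a8_K4_nonneg n
    have h4 : (4 / 9 : ℝ) ^ n * x ^ (2 * n) ≤ (2 * κ) ^ (2 * n) :=
      a8_pow_le (by rw [abs_le]; constructor <;> linarith)
    have h5 : K4 n * ((4 / 9) ^ n * x ^ (2 * n) - (2 * κ) ^ (2 * n)) ≤ 0 :=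
      mul_nonpos_of_nonneg_of_nonpos hK (by linarith)
    have h6 : (((2 * κ : ℝ) : ℂ) • (1 : CM (2 * n)) -
        ((x : ℂ) • (1 : CM (2 * n)) + X)).PosSemidef := by
      have h8 := (a7_psd_smul_one (n := n) (ρ := κ - x) (by linarith)).add h1
      have h9 : (((2 * κ : ℝ) : ℂ) • (1 : CM (2 * n)) - ((x : ℂ) • (1 : CM (2 * n)) + X)) =
          ((κ - x : ℝ) : ℂ) • (1 : CM (2 * n)) + ((κ : ℂ) • (1 : CM (2 * n)) - X) := by
        push_cast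
        rw [two_mul (κ : ℂ), add_smul, sub_smul]
        abel
      rw [h9]
      exact h8
    have h7 : (((2 * κ : ℝ) : ℂ) • (1 : CM (2 * n)) +
        ((x : ℂ) • (1 : CM (2 * n)) + X)).PosSemidef := by
      have h8 := (a7_psd_smul_one (n := n) (ρ := κ + x) (by linarith)).add h2
      have h9 : (((2 * κ : ℝ) : ℂ) • (1 : CM (2 * n)) + ((x : ℂ) • (1 : CM (2 * n)) + X)) =
          ((κ + x : ℝ) : ℂ) • (1 : CM (2 * n)) + ((κ : ℂ) • (1 : CM (2 * n)) + X) := by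
        push_cast
        rw [two_mul (κ : ℂ), add_smul, add_smul]
        abel
      rw [h9]
      exact h8
    have h10 := (Complex.le_def.1 (lam_bound hP h6 h7)).1
    rw [Complex.neg_re] at h10
    linarith

end Pool.Agent.H44D
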