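import Pool.Agent.Lib.H44D.G4
import Pool.Agent.Lib.H44D.A1
import Pool.Agent.Lib.H44D.A2

/-!
# H44D chunk B1 (M): `E Lam (H_g)` is the Gauss-Bonnet integrand

`gb_eq_mg`: unfold, `push_cast`.
`integral_lam`: `integral_finset_sum`, `integral_const_mul`, `gauss_mixed` (G4, `T = fun _ => P`),
`cf p * dff p = 2 ^ p`, and `2 ^ |Bᶜ| * mg (slot B P (tsum M)) = mg (slot B P (2 • tsum M))` (`mg_smul`), so
the integral is `mg (fun _ => P + 2 • tsum M)` by `mg_add` (A1).  This equals `mg (fun _ => cpl V)` by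
`mg_antisym` (A2): `V i j k l - V i j l k = P i j k l - P i j l k + 2 (W i j k l - W i j l k)`, `W = tsum M`.
-/

open Finset Equiv MeasureTheory

set_option autoImplicit false

namespace Pool.Agent.H44D

open Pool.Agent.H69Hopf Pool.Agent.H69Gauss

variable {ι : Type} [Fintype ι] [DecidableEq ι] {n : ℕ}

theorem gb_eq_mg (V : Arr (2 * n)) : ((gaussBonnet n V : ℝ) : ℂ) = mg (fun _ => cpl V) := by
  simp only [gaussBonnet, mg, sg, cpl]
  push_cast
  rfl

theorem integrable_lam (P : CA (2 * n)) (M : ι → CM (2 * n)) :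
    Integrable (fun x => Lam P (cmat M x)) (gam ι) := by
  unfold Lam
  exact integrable_finsetSum _ fun B _ =>
    (integrable_mg M B (fun _ => P)).const_mul _

theorem integral_lam (P : CA (2 * n)) (M : ι → CM (2 * n)) (V : Arr (2 * n))
    (hV : ∀ i j k l, ((V i j k l : ℝ) : ℂ) =
      P i j k l + ∑ a, (M a i k * M a j l - M a i l * M a j k)) :
    ∫ x, Lam P (cmat M x) ∂(gam ι) = ((gaussBonnet n V : ℝ) : ℂ) := by
  have h1 : ∫ x, Lam P (cmat M x) ∂(gam ι) = ∑ B : Finset (Fin n),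
      (cf Bᶜ.card : ℂ) * ((dff Bᶜ.card : ℂ) * mg (fun i => if i ∈ B then P else tsum M)) := by
    have h0 : ∀ B : Finset (Fin n), Integrable (fun x =>
        (cf Bᶜ.card : ℂ) * mg (slot B P (tens (cmat M x) (cmat M x)))) (gam ι) :=
      fun B => (integrable_mg M B (fun _ => P)).const_mul _
    unfold Lam
    rw [integral_finsetSum _ fun B _ => h0 B]
    refine Finset.sum_congr rfl fun B _ => ?_
    rw [← gauss_mixed M B (fun _ => P), integral_const_mul]
    rfl
  have h2 : ∀ B : Finset (Fin n),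
      (cf Bᶜ.card : ℂ) * ((dff Bᶜ.card : ℂ) * mg (fun i => if i ∈ B then P else tsum M)) =
        mg (fun i => if i ∈ B then P else (2 : ℂ) • tsum M) := by
    intro B
    have h3 : (fun i => if i ∈ B then P else (2 : ℂ) • tsum M) =
        fun i => (if i ∈ B then (1 : ℂ) else 2) • (if i ∈ B then P else tsum M) := by
      funext i
      by_cases hi : i ∈ B
      · simp only [if_pos hi, one_smul]
      · simp only [if_neg hi]
    have h4 : (∏ i : Fin n, (if i ∈ B then (1 : ℂ) else 2)) = 2 ^ Bᶜ.card := by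
      rw [Finset.prod_ite, Finset.prod_const_one, one_mul, Finset.prod_const]
      congr 2
      ext i
      simp
    have h5 : (cf Bᶜ.card : ℂ) * (dff Bᶜ.card : ℂ) = 2 ^ Bᶜ.card := by
      have h6 : (dff Bᶜ.card : ℝ) ≠ 0 := (dff_pos _).ne'
      have h7 : cf Bᶜ.card * dff Bᶜ.card = 2 ^ Bᶜ.card := by
        rw [cf, div_mul_cancel₀ _ h6]
      exact_mod_cast h7
    rw [h3, mg_smul, h4, ← mul_assoc, h5]
  rw [h1, Finset.sum_congr rfl fun B _ => h2 B,
    ← mg_add (fun _ => P) (fun _ => (2 : ℂ) • tsum M), gb_eq_mg]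
  refine mg_antisym _ _ fun i a b c d => ?_
  simp only [cpl, hV, Pi.add_apply, Pi.smul_apply, tsum, smul_eq_mul]
  rw [Finset.sum_sub_distrib, Finset.sum_sub_distrib]
  ring

end Pool.Agent.H44D
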