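import Pool.Agent.Lib.H44D.A6

/-!
# H44D chunk B2 (S/M, elementary): a binomial sum

`sum_card`: `∑ B : Finset (Fin n), f |B| = ∑ k ∈ range (n + 1), binom (n, k) * f k`
(`Finset.sum_powerset_apply_card`), `|Bᶜ| = n - |B|`.
`binom_cf`: for `k ≤ n`: `binom (n, k) * cf (n - k) * cf k * (2 n)! = K4 n * binom (2 n, 2 k)`: by
`factorial_dff`, `cf p = 2 ^ p / dff p = 4 ^ p * p! / (2 p)!`; `Nat.choose_mul_factorial_mul_factorial`.
`binom_le`: `(x + y)^(2n) = ∑ j, x^(2n-j) ...` (`add_pow`) contains the terms with `j = 2 k`.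
-/

open Finset Equiv

set_option autoImplicit false

namespace Pool.Agent.H44D

open Pool.Agent.H69Hopf Pool.Agent.H69Gauss

theorem binom_cf {n k : ℕ} (hk : k ≤ n) :
    (n.choose k : ℝ) * (cf (n - k) * cf k * ((2 * n).factorial : ℝ)) =
      K4 n * ((2 * n).choose (2 * k) : ℝ) := by
  obtain ⟨m, rfl⟩ : ∃ m, n = k + m := ⟨n - k, by omega⟩
  have e1 : k + m - k = m := by omega
  rw [e1]
  have h1 : ((k + m).choose k : ℝ) * (k.factorial : ℝ) * (m.factorial : ℝ) = ((k + m).factorial : ℝ) := by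
    have h := Nat.choose_mul_factorial_mul_factorial hk
    rw [e1] at h
    exact_mod_cast h
  have h2 : ((2 * (k + m)).choose (2 * k) : ℝ) * ((2 * k).factorial : ℝ) * ((2 * m).factorial : ℝ) =
      ((2 * (k + m)).factorial : ℝ) := by
    have h := Nat.choose_mul_factorial_mul_factorial (show 2 * k ≤ 2 * (k + m) by omega)
    have e2 : 2 * (k + m) - 2 * k = 2 * m := by omega
    rw [e2] at h
    exact_mod_cast h
  have h3 := cf_mul k
  have h4 := cf_mul m
  have h5 : ((k.factorial : ℝ)) ≠ 0 := by positivity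
  have h6 : ((m.factorial : ℝ)) ≠ 0 := by positivity
  have h7 : K4 (k + m) * (k.factorial : ℝ) * (m.factorial : ℝ) = K4 k * K4 m * ((k + m).factorial : ℝ) := by
    unfold K4
    rw [pow_add]
    ring
  rw [← h2]
  apply mul_left_cancel₀ (mul_ne_zero h5 h6)
  calc (k.factorial : ℝ) * (m.factorial : ℝ) * (((k + m).choose k : ℝ) * (cf m * cf k *
        (((2 * (k + m)).choose (2 * k) : ℝ) * ((2 * k).factorial : ℝ) * ((2 * m).factorial : ℝ))))
      = (((k + m).choose k : ℝ) * (k.factorial : ℝ) * (m.factorial : ℝ)) * ((2 * (k + m)).choose (2 * k) : ℝ) *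
        ((cf k * ((2 * k).factorial : ℝ)) * (cf m * ((2 * m).factorial : ℝ))) := by ring
    _ = (K4 k * K4 m * ((k + m).factorial : ℝ)) * ((2 * (k + m)).choose (2 * k) : ℝ) := by
        rw [h1, h3, h4]; ring
    _ = (k.factorial : ℝ) * (m.factorial : ℝ) * (K4 (k + m) * ((2 * (k + m)).choose (2 * k) : ℝ)) := by
        rw [← h7]; ring

theorem binom_even_le (n : ℕ) {x y : ℝ} (hx : 0 ≤ x) (hy : 0 ≤ y) :
    ∑ k ∈ range (n + 1), ((2 * n).choose (2 * k) : ℝ) * (x ^ (2 * (n - k)) * y ^ (2 * k)) ≤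
      (x + y) ^ (2 * n) := by
  rw [add_comm x y, add_pow]
  have hinj : Function.Injective (fun k : ℕ => 2 * k) := fun a b h => by
    have : 2 * a = 2 * b := h
    omega
  have h1 : ∑ k ∈ range (n + 1), ((2 * n).choose (2 * k) : ℝ) * (x ^ (2 * (n - k)) * y ^ (2 * k)) =
      ∑ j ∈ (range (n + 1)).map ⟨fun k : ℕ => 2 * k, hinj⟩, y ^ j * x ^ (2 * n - j) * ((2 * n).choose j : ℝ) := by
    rw [Finset.sum_map]
    refine Finset.sum_congr rfl fun k _ => ?_
    change _ = y ^ (2 * k) * x ^ (2 * n - 2 * k) * ((2 * n).choose (2 * k) : ℝ)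
    rw [← Nat.mul_sub]
    ring
  rw [h1]
  refine Finset.sum_le_sum_of_subset_of_nonneg ?_ fun j _ _ => by positivity
  intro j hj
  rw [Finset.mem_map] at hj
  obtain ⟨k, hk, hkj⟩ := hj
  have hkj' : 2 * k = j := hkj
  rw [Finset.mem_range] at hk ⊢
  omega

theorem sum_cf_le (n : ℕ) {x y : ℝ} (hx : 0 ≤ x) (hy : 0 ≤ y) :
    ∑ B : Finset (Fin n), cf Bᶜ.card * x ^ (2 * Bᶜ.card) *
      (cf B.card * (y ^ (2 * B.card) * ((2 * n).factorial : ℝ))) ≤ K4 n * (x + y) ^ (2 * n) := by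
  have h1 : ∑ B : Finset (Fin n), cf Bᶜ.card * x ^ (2 * Bᶜ.card) *
      (cf B.card * (y ^ (2 * B.card) * ((2 * n).factorial : ℝ))) =
      ∑ B : Finset (Fin n), (fun k : ℕ => cf (n - k) * x ^ (2 * (n - k)) *
      (cf k * (y ^ (2 * k) * ((2 * n).factorial : ℝ)))) B.card := by
    refine Finset.sum_congr rfl fun B _ => ?_
    rw [Finset.card_compl, Fintype.card_fin]
  have h2 := Finset.sum_powerset_apply_card (fun k : ℕ => cf (n - k) * x ^ (2 * (n - k)) *
      (cf k * (y ^ (2 * k) * ((2 * n).factorial : ℝ)))) (x := (Finset.univ : Finset (Fin n)))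
  rw [Finset.powerset_univ, Finset.card_univ, Fintype.card_fin] at h2
  rw [h1, h2]
  refine le_trans (le_of_eq ?_) (mul_le_mul_of_nonneg_left (binom_even_le n hx hy) (by unfold K4; positivity))
  rw [Finset.mul_sum]
  refine Finset.sum_congr rfl fun k hk => ?_
  rw [nsmul_eq_mul]
  have h3 := binom_cf (n := n) (k := k) (by have := Finset.mem_range.1 hk; omega)
  linear_combination (x ^ (2 * (n - k)) * y ^ (2 * k)) * h3

end Pool.Agent.H44D
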