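import Pool.Agent.Lib.H44D.Defs

/-!
# H44D chunk D1 (S/M): Hermitian matrices with bounded eigenvalues
-/

open Finset Equiv Matrix
open scoped ComplexOrder

set_option autoImplicit false

namespace Pool.Agent.H44D

open Pool.Agent.H69Hopf Pool.Agent.H69Gauss

variable {N : ℕ}

theorem psd_of_eigenvalues {H : CM N} (hH : H.IsHermitian) {κ : ℝ}
    (h : ∀ j, |hH.eigenvalues j| ≤ κ) :
    ((κ : ℂ) • (1 : CM N) - H).PosSemidef ∧ ((κ : ℂ) • (1 : CM N) + H).PosSemidef := by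
  have hs := hH.spectral_theorem
  rw [Unitary.conjStarAlgAut_apply] at hs
  set U : CM N := (hH.eigenvectorUnitary : CM N) with hU
  have hUU : U * star U = 1 := Unitary.coe_mul_star_self hH.eigenvectorUnitary
  have hk : (κ : ℂ) • (1 : CM N) = U * diagonal (fun _ => (κ : ℂ)) * star U := by
    rw [← Matrix.smul_one_eq_diagonal, Matrix.mul_smul, mul_one, Matrix.smul_mul, hUU]
  constructor
  · have h1 : (diagonal (fun j => (κ : ℂ) - (hH.eigenvalues j : ℂ)) : CM N).PosSemidef := by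
      refine Matrix.PosSemidef.diagonal fun j => ?_
      have h2 := (abs_le.1 (h j)).2
      have h3 : ((κ : ℂ) - (hH.eigenvalues j : ℂ)) = ((κ - hH.eigenvalues j : ℝ) : ℂ) := by
        push_cast; rfl
      show (0 : ℂ) ≤ (κ : ℂ) - (hH.eigenvalues j : ℂ)
      rw [h3]
      exact Complex.zero_le_real.2 (by linarith)
    have h4 := h1.mul_mul_conjTranspose_same U
    refine Eq.mp (congrArg Matrix.PosSemidef ?_) h4
    conv_rhs => rw [hk, hs]
    rw [← Matrix.star_eq_conjTranspose, ← sub_mul, ← mul_sub, Matrix.diagonal_sub]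
    rfl
  · have h1 : (diagonal (fun j => (κ : ℂ) + (hH.eigenvalues j : ℂ)) : CM N).PosSemidef := by
      refine Matrix.PosSemidef.diagonal fun j => ?_
      have h2 := (abs_le.1 (h j)).1
      have h3 : ((κ : ℂ) + (hH.eigenvalues j : ℂ)) = ((κ + hH.eigenvalues j : ℝ) : ℂ) := by
        push_cast; rfl
      show (0 : ℂ) ≤ (κ : ℂ) + (hH.eigenvalues j : ℂ)
      rw [h3]
      exact Complex.zero_le_real.2 (by linarith)
    have h4 := h1.mul_mul_conjTranspose_same U
    refine Eq.mp (congrArg Matrix.PosSemidef ?_) h4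
    conv_rhs => rw [hk, hs]
    rw [← Matrix.star_eq_conjTranspose, ← add_mul, ← mul_add, Matrix.diagonal_add]
    rfl

theorem psd_cx {A B : Matrix (Fin N) (Fin N) ℝ} (hA : Aᵀ = A) (hB : Bᵀ = -B) {α β : ℝ}
    (hα : 0 ≤ α) (hβ : 0 ≤ β) (hA2 : ∀ x, sq2 (A *ᵥ x) ≤ α ^ 2 * sq2 x)
    (hB2 : ∀ x, sq2 (B *ᵥ x) ≤ β ^ 2 * sq2 x) :
    (((α + β : ℝ) : ℂ) • (1 : CM N) - (cx A + Complex.I • cx B)).PosSemidef ∧
      (((α + β : ℝ) : ℂ) • (1 : CM N) + (cx A + Complex.I • cx B)).PosSemidef :=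
  psd_of_eigenvalues (isHermitian_cx hA hB)
    fun j => eigenvalue_bound (isHermitian_cx hA hB) hα hβ hA2 hB2 j

end Pool.Agent.H44D
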