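import Pool.Agent.Lib.H44D.A4
import Pool.Agent.Lib.H44D.A5
import Pool.Agent.Lib.H44D.A6
import Pool.Agent.Lib.H44D.D1

/-!
# H44D chunk B3 (S/M): bound of the mixed form of a skew matrix and the identity

`K` real skew, `|K x| ≤ κ |x|`.  `H = I • cx K` is Hermitian with `-κ ≤ H ≤ κ` (`psd_cx` with `A = 0`,
`α = 0`), and `tens (cx K) (cx K) = (-1) • tens H H`.  `mg_bound` (A4) with
`T = slot B (tens H H) (1 ⊗ 1)`, `T' = slot B (κ² 1 ⊗ 1) (1 ⊗ 1)` (`cpos_sub_tens` on `B`; off `B`: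
`0` and `1 ⊗ 1 + 1 ⊗ 1`); `mg T' = κ ^ (2 |B|) * (2 n)!` (`mg_smul`, `mg_one`), and
`mg (slot B (tens (cx K) (cx K)) ..) = (-1) ^ |B| * mg T` (`mg_smul`).
-/

open Finset Equiv Matrix
open scoped ComplexOrder

set_option autoImplicit false

namespace Pool.Agent.H44D

open Pool.Agent.H69Hopf Pool.Agent.H69Gauss

variable {n : ℕ}

theorem mg_skew_le {K : Matrix (Fin (2 * n)) (Fin (2 * n)) ℝ} (hK : Kᵀ = -K) {κ : ℝ} (hκ : 0 ≤ κ)
    (hK2 : ∀ x, sq2 (K *ᵥ x) ≤ κ ^ 2 * sq2 x) (B : Finset (Fin n)) :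
    (mg (slot B (tens (cx K) (cx K)) (tens (1 : CM (2 * n)) 1))).re ≤
      κ ^ (2 * B.card) * ((2 * n).factorial : ℝ) := by
  classical
  obtain ⟨H, hH⟩ : ∃ H : CM (2 * n), H = Complex.I • cx K := ⟨_, rfl⟩
  have hpsd := psd_cx (N := 2 * n) (A := 0) (B := K) (α := 0) (β := κ) (by simp) hK le_rfl hκ
    (fun x => by simp [sq2]) hK2
  rw [zero_add, map_zero, zero_add, ← hH] at hpsd
  have hs := cpos_sub_tens hpsd.1 hpsd.2
  have hone := cpos_one (2 * n)
  obtain ⟨T, hT⟩ : ∃ T, T = slot B (tens H H) (tens (1 : CM (2 * n)) 1) := ⟨_, rfl⟩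
  obtain ⟨T', hT'⟩ : ∃ T', T' = slot B (((κ : ℂ) ^ 2) • tens (1 : CM (2 * n)) 1) (tens (1 : CM (2 * n)) 1) := ⟨_, rfl⟩
  have hb := mg_bound T T' (fun i => by
    rw [hT, hT']
    unfold slot
    by_cases hi : i ∈ B
    · rw [if_pos hi, if_pos hi]; exact hs.1
    · rw [if_neg hi, if_neg hi, sub_self]; exact cpos_zero) (fun i => by
    rw [hT, hT']
    unfold slot
    by_cases hi : i ∈ B
    · rw [if_pos hi, if_pos hi]; exact hs.2
    · rw [if_neg hi, if_neg hi]; exact cpos_add hone hone)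
  have e1 : mg T' = ((κ ^ (2 * B.card) * ((2 * n).factorial : ℝ) : ℝ) : ℂ) := by
    have e2 : T' = fun i => (if i ∈ B then (κ : ℂ) ^ 2 else 1) • tens (1 : CM (2 * n)) 1 := by
      funext i
      rw [hT']
      unfold slot
      by_cases hi : i ∈ B
      · rw [if_pos hi, if_pos hi]
      · rw [if_neg hi, if_neg hi, one_smul]
    rw [e2, mg_smul (fun i => if i ∈ B then (κ : ℂ) ^ 2 else 1) (fun _ => tens (1 : CM (2 * n)) 1), mg_one,
      Finset.prod_ite_mem, Finset.univ_inter, Finset.prod_const]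
    push_cast
    rw [pow_mul]
  have e3 : mg (slot B (tens (cx K) (cx K)) (tens (1 : CM (2 * n)) 1)) = (-1) ^ B.card * mg T := by
    have e4 : slot B (tens (cx K) (cx K)) (tens (1 : CM (2 * n)) 1) = fun i => (if i ∈ B then (-1 : ℂ) else 1) • T i := by
      funext i
      rw [hT]
      unfold slot
      by_cases hi : i ∈ B
      · rw [if_pos hi, if_pos hi, if_pos hi, hH]
        funext a b c d
        simp only [tens, Pi.smul_apply, Matrix.smul_apply, smul_eq_mul]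
        linear_combination (cx K a c * cx K b d) * Complex.I_mul_I
      · rw [if_neg hi, if_neg hi, if_neg hi, one_smul]
    rw [e4, mg_smul, Finset.prod_ite_mem, Finset.univ_inter, Finset.prod_const]
  rw [e3]
  have h1 := (Complex.le_def.1 hb.1).1
  have h2 := (Complex.le_def.1 hb.2).1
  rw [e1] at h2
  rw [Complex.neg_re, e1] at h1
  rw [Complex.ofReal_re] at h1 h2
  rcases neg_one_pow_eq_or ℂ B.card with h | h
  · rw [h, one_mul]; exact h2
  · rw [h, neg_one_mul, Complex.neg_re]; linarith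

end Pool.Agent.H44D
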