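import Pool.Agent.Lib.H44D.G4
import Pool.Agent.Lib.H44D.A1
import Pool.Agent.Lib.H44D.A2

/-!
# H44D chunk B4 (M): the value of `Lam P` at a multiple of the identity

`Rep P K`.  For a subset `B`, `ρ` real:
`mg (slot B (cpl P) (tens (ρ 1) (ρ 1))) = ρ ^ (2 |Bᶜ|) * 2 ^ |B| * mg (slot B (tsum (cx ∘ K)) (1 ⊗ 1))`:
`mg_antisym` (A2) with `2 • tsum (cx ∘ K)` in place of `cpl P` (`Rep.kn`:
`P i j k l - P i j l k = 2 ∑ (K i k K j l - K i l K j k)`), and `mg_smul` (A1).
By `gauss_mixed` (G4) for the subset `Bᶜ` and `T = fun _ => 1 ⊗ 1`, `M = cx ∘ K`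
(`fun i => if i ∈ Bᶜ then 1 ⊗ 1 else ..` is `slot B .. (1 ⊗ 1)`; `Bᶜᶜ = B`):
`dff |B| * mg (slot B (tsum (cx ∘ K)) (1 ⊗ 1)) = ∫ mg (slot B (tens (cx (rmat K y)) ..) (1 ⊗ 1))`, as
`cmat (cx ∘ K) y = cx (rmat K y)` (`cx_rmat` in `Lib/H69/Gauss/Core.lean`).
-/

open Finset Equiv MeasureTheory

set_option autoImplicit false

namespace Pool.Agent.H44D

open Pool.Agent.H69Hopf Pool.Agent.H69Gauss

variable {lam : Type} [Fintype lam] [DecidableEq lam] {n : ℕ}

theorem b4_cmat (K : lam → Matrix (Fin (2 * n)) (Fin (2 * n)) ℝ) (y : lam → ℝ) :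
    cmat (fun a => cx (K a)) y = cx (rmat K y) := by
  unfold cmat rmat
  rw [map_sum]
  refine Finset.sum_congr rfl fun a _ => ?_
  ext i j
  simp [cx_apply]

theorem mg_rep_one {P : Arr (2 * n)} {K : lam → Matrix (Fin (2 * n)) (Fin (2 * n)) ℝ}
    (hP : Rep P K) (ρ : ℝ) (B : Finset (Fin n)) :
    mg (slot B (cpl P) (tens ((ρ : ℂ) • (1 : CM (2 * n))) ((ρ : ℂ) • (1 : CM (2 * n))))) =
      ((ρ ^ (2 * Bᶜ.card) * cf B.card : ℝ) : ℂ) *
        ∫ y, mg (slot B (tens (cx (rmat K y)) (cx (rmat K y))) (tens (1 : CM (2 * n)) 1))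
          ∂(gam lam) := by
  classical
  have hcx : ∀ y : lam → ℝ, cmat (fun a => cx (K a)) y = cx (rmat K y) := fun y => b4_cmat K y
  have h1 : mg (slot B (cpl P) (tens ((ρ : ℂ) • (1 : CM (2 * n))) ((ρ : ℂ) • (1 : CM (2 * n))))) =
      mg (fun i => (if i ∈ B then (2 : ℂ) else (ρ : ℂ) ^ 2) • (slot B (tsum fun a => cx (K a)) (tens (1 : CM (2 * n)) 1)) i) := by
    refine mg_antisym _ _ fun i a b c d => ?_
    unfold slot
    by_cases hi : i ∈ B
    · rw [if_pos hi, if_pos hi, if_pos hi]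
      simp only [Pi.smul_apply, smul_eq_mul, tsum, cpl, cx_apply]
      rw [hP.kn a b c d, hP.kn a b d c]
      push_cast
      rw [← Finset.sum_sub_distrib, ← mul_sub, ← Finset.sum_sub_distrib, Finset.mul_sum]
      refine Finset.sum_congr rfl fun x _ => ?_
      ring
    · rw [if_neg hi, if_neg hi, if_neg hi]
      simp only [Pi.smul_apply, smul_eq_mul, tens, Matrix.smul_apply]
      ring
  rw [h1, mg_smul]
  have h2 : ∏ i : Fin n, (if i ∈ B then (2 : ℂ) else (ρ : ℂ) ^ 2) = 2 ^ B.card * ((ρ : ℂ) ^ 2) ^ Bᶜ.card := by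
    rw [Finset.prod_ite, Finset.prod_const, Finset.prod_const]
    congr 2
    · congr 1; ext i; simp
    · congr 1; ext i; simp
  rw [h2]
  have h3 := gauss_mixed (fun a => cx (K a)) Bᶜ (fun _ => tens (1 : CM (2 * n)) 1)
  rw [compl_compl] at h3
  have h4 : (fun i => if i ∈ Bᶜ then tens (1 : CM (2 * n)) 1 else tsum fun a => cx (K a)) =
      slot B (tsum fun a => cx (K a)) (tens (1 : CM (2 * n)) 1) := by
    funext i
    unfold slot
    by_cases hi : i ∈ B
    · rw [if_pos hi, if_neg (by simpa using hi)]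
    · rw [if_neg hi, if_pos (by simpa using hi)]
  rw [h4] at h3
  have h5 : ∀ y : lam → ℝ, mg (fun i => if i ∈ Bᶜ then tens (1 : CM (2 * n)) 1 else
      tens (cmat (fun a => cx (K a)) y) (cmat (fun a => cx (K a)) y)) =
      mg (slot B (tens (cx (rmat K y)) (cx (rmat K y))) (tens (1 : CM (2 * n)) 1)) := fun y => by
    congr 1
    funext i
    rw [hcx y]
    unfold slot
    by_cases hi : i ∈ B
    · rw [if_pos hi, if_neg (by simpa using hi)]
    · rw [if_neg hi, if_pos (by simpa using hi)]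
  rw [integral_congr_ae (Filter.Eventually.of_forall h5)] at h3
  rw [h3]
  unfold cf
  have h6 := (dff_pos B.card).ne'
  have h7 : ((dff B.card : ℝ) : ℂ) ≠ 0 := by exact_mod_cast h6
  push_cast
  field_simp
  ring

theorem integrable_rep (K : lam → Matrix (Fin (2 * n)) (Fin (2 * n)) ℝ) (B : Finset (Fin n)) :
    Integrable (fun y => mg (slot B (tens (cx (rmat K y)) (cx (rmat K y)))
      (tens (1 : CM (2 * n)) 1))) (gam lam) := by
  classical
  have h3 := integrable_mg (fun a => cx (K a)) Bᶜ (fun _ => tens (1 : CM (2 * n)) 1)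
  refine h3.congr (Filter.Eventually.of_forall fun y => ?_)
  change mg _ = mg _
  congr 1
  funext i
  rw [b4_cmat K y]
  unfold slot
  by_cases hi : i ∈ B
  · rw [if_pos hi, if_neg (by simpa using hi)]
  · rw [if_neg hi, if_pos (by simpa using hi)]

end Pool.Agent.H44D
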