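import Mathlib

/-!
# H44D chunk C1 (S): convexity of the powers

`convexOn_pow`, as in `core1` of `Lib/H69/Gauss/Core.lean`.
-/

set_option autoImplicit false

namespace Pool.Agent.H44D

theorem add_pow_le_weights {x y v w : ℝ} (hx : 0 ≤ x) (hy : 0 ≤ y) (hv : 0 < v) (hw : 0 < w)
    (h : v + w = 1) (m : ℕ) :
    (x + y) ^ m ≤ v * (v ^ m)⁻¹ * x ^ m + w * (w ^ m)⁻¹ * y ^ m := by
  have hcx := (convexOn_pow (𝕜 := ℝ) m).2
    (show x / v ∈ Set.Ici (0 : ℝ) from Set.mem_Ici.2 (by positivity))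
    (show y / w ∈ Set.Ici (0 : ℝ) from Set.mem_Ici.2 (by positivity)) hv.le hw.le h
  simp only [smul_eq_mul] at hcx
  have e1 : v * (x / v) + w * (y / w) = x + y := by
    field_simp
  rw [e1] at hcx
  refine hcx.trans (le_of_eq ?_)
  rw [div_pow, div_pow]
  ring

end Pool.Agent.H44D
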