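import Pool.Agent.Lib.H44D.B2
import Pool.Agent.Lib.H44D.B3
import Pool.Agent.Lib.H44D.B4
import Pool.Agent.Lib.H44D.C1

/-!
# H44D chunk B5 (M): upper bound of `Lam P (ρ 1)`

`Lam (cpl P) (ρ 1) = ∑ B, cf |Bᶜ| * (ρ ^ (2 |Bᶜ|) * cf |B|) * ∫ m_B (y)` with
`m_B y = mg (slot B (tens (cx K_y) (cx K_y)) (1 ⊗ 1))`, `K_y = rmat K y` (`mg_rep_one`, B4).  Real parts:
the integral of `F y = ∑ B, cf |Bᶜ| * ρ ^ (2 |Bᶜ|) * (cf |B| * (m_B y).re)` (`integral_re`,
`integral_finsetSum`).  Pointwise: `κ ≥ 0`, `κ ^ (2 n) = Phi K n y` (`exists_root`, `Phi_nonneg`),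
`|K_y x| ≤ κ |x|` (`norm_of_Phi` gives this for the transpose `- K_y`; as in `core1` of
`Lib/H69/Gauss/Core.lean`), so `(m_B y).re ≤ κ ^ (2 |B|) * (2 n)!` (`mg_skew_le`, B3), `F y ≤ K4 n (ρ + κ) ^ (2 n)`
(`sum_cf_le`, B2) `≤ K4 n (v (v^(2n))⁻¹ ρ^(2n) + w (w^(2n))⁻¹ Phi K n y)` (C1).  Integrate (`integral_mono`,
`integrable_Phi`, `int_Phi`).
-/

open Finset Equiv MeasureTheory
open scoped ComplexOrder
open Matrix

set_option autoImplicit false

namespace Pool.Agent.H44D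

open Pool.Agent.H69Hopf Pool.Agent.H69Gauss

variable {lam : Type} [Fintype lam] [DecidableEq lam] {n : ℕ}

theorem lam_one_le (hn : 1 ≤ n) {P : Arr (2 * n)}
    {K : lam → Matrix (Fin (2 * n)) (Fin (2 * n)) ℝ} (hP : Rep P K) {s : ℝ}
    (hV : VarLe K s) {v w : ℝ} (hv : 0 < v) (hw : 0 < w) (hvw : v + w = 1) {ρ : ℝ} (hρ : 0 ≤ ρ) :
    (Lam (cpl P) ((ρ : ℂ) • (1 : CM (2 * n)))).re ≤
      K4 n * (v * (v ^ (2 * n))⁻¹ * ρ ^ (2 * n) +
        w * (w ^ (2 * n))⁻¹ * (s ^ n * (16 ^ n / 4) * dff n)) := by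
  classical
  obtain ⟨m, hm⟩ : ∃ m : Finset (Fin n) → (lam → ℝ) → ℂ, m = fun B y =>
      mg (slot B (tens (cx (rmat K y)) (cx (rmat K y))) (tens (1 : CM (2 * n)) 1)) := ⟨_, rfl⟩
  have hint : ∀ B, Integrable (m B) (gam lam) := fun B => by
    rw [hm]; exact integrable_rep K B
  have hintre : ∀ B, Integrable (fun y => (m B y).re) (gam lam) := fun B => (hint B).re
  obtain ⟨F, hF⟩ : ∃ F : (lam → ℝ) → ℝ, F = fun y => ∑ B : Finset (Fin n), cf Bᶜ.card * ρ ^ (2 * Bᶜ.card) *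
      (cf B.card * (m B y).re) := ⟨_, rfl⟩
  have hFint : Integrable F (gam lam) := by
    rw [hF]
    exact integrable_finsetSum _ fun B _ => ((hintre B).const_mul _).const_mul _
  have h1 : (Lam (cpl P) ((ρ : ℂ) • (1 : CM (2 * n)))).re = ∫ y, F y ∂(gam lam) := by
    rw [hF, integral_finsetSum _ fun B _ => ((hintre B).const_mul _).const_mul _]
    unfold Lam
    rw [Complex.re_sum]
    refine Finset.sum_congr rfl fun B _ => ?_
    rw [mg_rep_one hP ρ B, integral_const_mul, integral_const_mul]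
    have h2 : (∫ y, mg (slot B (tens (cx (rmat K y)) (cx (rmat K y))) (tens (1 : CM (2 * n)) 1)) ∂(gam lam)).re =
        ∫ y, (m B y).re ∂(gam lam) := by
      have h3 := integral_re (hint B)
      rw [hm] at h3 ⊢
      exact h3.symm
    rw [Complex.re_ofReal_mul, Complex.re_ofReal_mul, h2]
    ring
  have hK : ∀ y, (rmat K y)ᵀ = -(rmat K y) := fun y => by
    unfold rmat
    rw [Matrix.transpose_sum, ← Finset.sum_neg_distrib]
    refine Finset.sum_congr rfl fun a _ => ?_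
    rw [Matrix.transpose_smul, hP.skew a, smul_neg]
  have h2 : ∀ y, F y ≤ K4 n * (v * (v ^ (2 * n))⁻¹ * ρ ^ (2 * n) + w * (w ^ (2 * n))⁻¹ * Phi K n y) := by
    intro y
    obtain ⟨κ, hκ0, hκ⟩ := exists_root hn (Phi_nonneg K n y)
    have hK2 : ∀ x, sq2 (rmat K y *ᵥ x) ≤ κ ^ 2 * sq2 x := by
      intro x
      have := norm_of_Phi hn hV y hκ x
      rw [hK y, Matrix.neg_mulVec] at this
      refine le_trans (le_of_eq ?_) this
      unfold sq2
      simp
    have h3 : F y ≤ ∑ B : Finset (Fin n), cf Bᶜ.card * ρ ^ (2 * Bᶜ.card) *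
        (cf B.card * (κ ^ (2 * B.card) * ((2 * n).factorial : ℝ))) := by
      rw [hF]
      refine Finset.sum_le_sum fun B _ => ?_
      have h4 : (m B y).re ≤ κ ^ (2 * B.card) * ((2 * n).factorial : ℝ) := by
        rw [hm]
        exact mg_skew_le (hK y) hκ0 hK2 B
      have h5 := cf_nonneg Bᶜ.card
      have h6 := cf_nonneg B.card
      exact mul_le_mul_of_nonneg_left (mul_le_mul_of_nonneg_left h4 h6) (by positivity)
    refine h3.trans ((sum_cf_le n hρ hκ0).trans ?_)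
    rw [← hκ]
    exact mul_le_mul_of_nonneg_left (add_pow_le_weights hρ hκ0 hv hw hvw (2 * n)) (by unfold K4; positivity)
  have hPhi := integrable_Phi hV n
  rw [h1]
  have h3 : ∫ y, F y ∂(gam lam) ≤ ∫ y, K4 n * (v * (v ^ (2 * n))⁻¹ * ρ ^ (2 * n) + w * (w ^ (2 * n))⁻¹ * Phi K n y) ∂(gam lam) :=
    integral_mono hFint (((integrable_const _).add (hPhi.const_mul _)).const_mul _) h2
  refine h3.trans ?_
  rw [integral_const_mul, integral_add (integrable_const _) (hPhi.const_mul _), integral_const, integral_const_mul]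
  have h4 := int_Phi hV n hn (by simp)
  refine mul_le_mul_of_nonneg_left ?_ (by unfold K4; positivity)
  simp only [probReal_univ, one_smul]
  gcongr

end Pool.Agent.H44D
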