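import Pool.Agent.Lib.H44D.Defs
import Pool.Agent.Lib.H11S.First

/-!
# H44D: the curvature conditions

`Adm h R`, `Adm1 h R`: conditions for an algebraic curvature tensor `R` and a symmetric form `h`.
They do not depend on the basis.
-/

open Finset

set_option autoImplicit false

namespace Pool.Agent.H44D

open Pool.Agent.H69Hopf Pool.Agent.H69Gauss Pool.Agent.H88S Pool.Agent.H11S Pool.Agent.H72S

/-- The algebraic curvature tensor `P` has nonnegative curvature operator, and its sectional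
curvatures are at most `t` times those of `kn h`:
`P (u, v, u, v) ≤ t * (h (u, u) * h (v, v) - h (u, v) ^ 2)`. -/
structure OpBound {N : ℕ} (t : ℝ) (h : Mat N) (P : Arr N) : Prop where
  alg : IsAlgCurv P
  pos : ∀ w : Mat N, w.transpose = -w → 0 ≤ firstKind P w
  bound : ∀ u v, sec P u v ≤ t * sec (kn h) u v

/-- `R = P₁ - P₂ - kn h - ∑ j, kn (A j) - S` with small `P₁`, `P₂`, `A j` and `S` a sum of squares of
simple bivectors. -/
def Adm {N : ℕ} (h : Mat N) (R : Arr N) : Prop :=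
  ∃ (a b c : ℝ) (P₁ P₂ : Arr N) (q r : ℕ) (A : Fin q → Mat N) (x y : Fin r → Fin N → ℝ),
    0 < a ∧ 0 < b ∧ 0 < c ∧ 2 * a + 2 * b + c ≤ 1 / 6 ∧
    OpBound (b ^ 2) h P₁ ∧ OpBound (c ^ 2) h P₂ ∧ (∀ j, (A j).IsSymm) ∧
    (∀ u, ∑ j, bilin (A j) u u ^ 2 ≤ a ^ 2 * bilin h u u ^ 2) ∧
    R = P₁ - P₂ - kn h - ∑ j, kn (A j) - sepT x y

/-- `R = P - kn h - S` with `P` small (larger constant) and `S` a sum of squares of simple
bivectors. -/
def Adm1 {N : ℕ} (h : Mat N) (R : Arr N) : Prop :=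
  ∃ (P : Arr N) (r : ℕ) (x y : Fin r → Fin N → ℝ),
    OpBound (1 / 32) h P ∧ R = P - kn h - sepT x y

/-- The curvature condition, with positive semidefinite `h`. -/
def Near {N : ℕ} (h : Mat N) (R : Arr N) : Prop :=
  h.PosSemidef ∧ (Adm h R ∨ Adm1 h R)

/-- The form `h` in the basis (frame) `v`. -/
def pullM {M N : ℕ} (v : Fin M → (Fin N → ℝ)) (h : Mat N) : Mat M :=
  Matrix.of fun i j => bilin h (v i) (v j)

end Pool.Agent.H44D
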