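import Pool.Agent.Lib.H69.Gauss.Final2
import Pool.Agent.Lib.H69.Hopf.Cof
import Pool.Agent.Lib.H72S.Sep

/-!
# H44D: definitions

Complex arrays with four indices, their mixed form `mg`, the array `A ⊗ B`, positivity, and the
function `Lam P H` of a matrix `H` attached to an array `P` (see `PROOF.md`).
-/

open Finset Equiv
open scoped ComplexOrder

set_option autoImplicit false

namespace Pool.Agent.H44D

open Pool.Agent.H69Hopf Pool.Agent.H69Gauss

/-- Arrays of complex numbers with four indices. -/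
abbrev CA (N : ℕ) := Fin N → Fin N → Fin N → Fin N → ℂ

/-- Complex square matrices. -/
abbrev CM (N : ℕ) := Matrix (Fin N) (Fin N) ℂ

/-- Mixed form: `∑ sign σ * sign τ * ∏ i, T i (σ (2 i)) (σ (2 i + 1)) (τ (2 i)) (τ (2 i + 1))`. -/
noncomputable def mg {n : ℕ} (T : Fin n → CA (2 * n)) : ℂ :=
  ∑ σ : Perm (Fin (2 * n)), ∑ τ : Perm (Fin (2 * n)),
    sg ℂ σ τ * ∏ i : Fin n, T i (σ (fst i)) (σ (snd i)) (τ (fst i)) (τ (snd i))

/-- `A ⊗ B`: the array `A i k * B j l`. -/
def tens {N : ℕ} (A B : CM N) : CA N := fun i j k l => A i k * B j l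

/-- The array `∑ a, M a ⊗ M a`. -/
noncomputable def tsum {ι : Type} [Fintype ι] {N : ℕ} (M : ι → CM N) : CA N :=
  fun i j k l => ∑ a, M a i k * M a j l

/-- The array, as a matrix indexed by pairs `(i, j)`, `(k, l)`, is positive semidefinite. -/
def CPos {N : ℕ} (T : CA N) : Prop :=
  (Matrix.of fun p q : Fin N × Fin N => T p.1 p.2 q.1 q.2).PosSemidef

/-- The matrix `∑ a, x a • M a`. -/
noncomputable def cmat {ι : Type} [Fintype ι] {N : ℕ} (M : ι → CM N) (x : ι → ℝ) : CM N :=
  ∑ a, (x a : ℂ) • M a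

/-- The weight `2 ^ p / (2 p - 1)!!`. -/
noncomputable def cf (p : ℕ) : ℝ := 2 ^ p / dff p

/-- The constant `4 ^ n * n!`. -/
noncomputable def K4 (n : ℕ) : ℝ := 4 ^ n * n.factorial

/-- Put `P` in the slots of `B` and `T` in the other slots. -/
def slot {n N : ℕ} (B : Finset (Fin n)) (P T : CA N) : Fin n → CA N :=
  fun i => if i ∈ B then P else T

/-- `Lam P H = ∑ B, cf |Bᶜ| * mg (P on B, H ⊗ H off B)`. -/
noncomputable def Lam {n : ℕ} (P : CA (2 * n)) (H : CM (2 * n)) : ℂ :=
  ∑ B : Finset (Fin n), (cf Bᶜ.card : ℂ) * mg (slot B P (tens H H))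

/-- `K` represents the array `P` in both ways (first Bianchi identity):
`P i j k l = ∑ K i j * K k l = ∑ (K i k * K j l - K i l * K j k)`, with skew `K`. -/
structure Rep {lam : Type} [Fintype lam] {N : ℕ} (P : Arr N)
    (K : lam → Matrix (Fin N) (Fin N) ℝ) : Prop where
  skew : ∀ a, (K a).transpose = - K a
  op : ∀ i j k l, P i j k l = ∑ a, K a i j * K a k l
  kn : ∀ i j k l, P i j k l = ∑ a, (K a i k * K a j l - K a i l * K a j k)

/-- Complexification of an array. -/
def cpl {N : ℕ} (P : Arr N) : CA N := fun i j k l => (P i j k l : ℂ)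

end Pool.Agent.H44D
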