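import Pool.Agent.Lib.H44D.A8
import Pool.Agent.Lib.H44D.B5

/-!
# H44D chunk E1 (M): the pointwise bound for the random matrix `∑ x a • MM a`

Notation of `Lib/H69/Gauss/Core.lean`: `MM e 1 CA CB a = e a • cx (1ᵀ * 1) + (cx (CA a) + I • cx (CB a))`.
`cmat (MM e 1 CA CB) x = ξ • 1 + X`, `ξ = ∑ e a x a`, `X = cx (rmat CA x) + I • cx (rmat CB x)` (`sum_MM`).
`α, β ≥ 0` with `α ^ (2n) = Phi CA n x`, `β ^ (2n) = Phi CB n x` (`exists_root`), `|rmat CA x y| ≤ α |y|`,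
`|rmat CB x y| ≤ β |y|` (`norm_of_Phi` and the symmetry of `rmat`, exactly as in `core1`), so `-κ ≤ X ≤ κ`,
`κ = α + β` (`psd_cx`, D1).  `pointwise_lam` (A8) and `lam_one_le` (B5, `ρ = 2 κ`, `v = 12 (a + b)`,
`w = 6 c`), and `(2 κ)^(2n) = 4^n (α + β)^(2n) ≤ 4^n (p (p^(2n))⁻¹ α^(2n) + q (q^(2n))⁻¹ β^(2n))` (C1),
`p = a / (a + b)`, `q = b / (a + b)`.
-/

open Finset Equiv MeasureTheory Matrix
open scoped ComplexOrder

set_option autoImplicit false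

namespace Pool.Agent.H44D

open Pool.Agent.H69Hopf Pool.Agent.H69Gauss

variable {ι lam : Type} [Fintype ι] [DecidableEq ι] [Fintype lam] [DecidableEq lam] {n : ℕ}

/-- A represented array is positive. -/
theorem cpos_rep {N : ℕ} {P : Arr N} {K : lam → Matrix (Fin N) (Fin N) ℝ} (hP : Rep P K) :
    CPos (cpl P) := by
  have h := Matrix.posSemidef_conjTranspose_mul_self
    (Matrix.of fun (a : lam) (p : Fin N × Fin N) => ((K a p.1 p.2 : ℝ) : ℂ))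
  refine Eq.mp (congrArg Matrix.PosSemidef ?_) h
  ext p q
  rw [Matrix.mul_apply]
  simp only [Matrix.conjTranspose_apply, Matrix.of_apply, cpl]
  rw [hP.op]
  push_cast
  refine Finset.sum_congr rfl fun a _ => ?_
  rw [Complex.star_def, Complex.conj_ofReal]

/-- The lower bound, a combination of integrable functions of `x`. -/
noncomputable def low (n : ℕ) (e : ι → ℝ) (CA CB : ι → Matrix (Fin (2 * n)) (Fin (2 * n)) ℝ)
    (a b c : ℝ) (x : ι → ℝ) : ℝ :=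
  K4 n * ((4 / 9) ^ n * (∑ i, e i * x i) ^ (2 * n) -
    (1 + 12 * (a + b) * ((12 * (a + b)) ^ (2 * n))⁻¹) *
      (4 ^ n * (a / (a + b) * ((a / (a + b)) ^ (2 * n))⁻¹ * Phi CA n x +
        b / (a + b) * ((b / (a + b)) ^ (2 * n))⁻¹ * Phi CB n x)) -
    6 * c * ((6 * c) ^ (2 * n))⁻¹ * ((c ^ 2) ^ n * (16 ^ n / 4) * dff n))

theorem K4_nonneg (n : ℕ) : 0 ≤ K4 n := by
  unfold K4
  positivity

theorem cmat_MM (e : ι → ℝ) (CA CB : ι → Matrix (Fin (2 * n)) (Fin (2 * n)) ℝ) (x : ι → ℝ) :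
    cmat (MM e (1 : Matrix (Fin (2 * n)) (Fin (2 * n)) ℝ) CA CB) x =
      ((∑ i, e i * x i : ℝ) : ℂ) • (1 : CM (2 * n)) +
        (cx (rmat CA x) + Complex.I • cx (rmat CB x)) := by
  unfold cmat
  rw [sum_MM, Matrix.transpose_one, Matrix.one_mul, map_one]

theorem rmat_symm {CA : ι → Matrix (Fin (2 * n)) (Fin (2 * n)) ℝ} (hA : ∀ i, (CA i)ᵀ = CA i)
    (x : ι → ℝ) : (rmat CA x)ᵀ = rmat CA x := by
  unfold rmat
  rw [Matrix.transpose_sum]
  refine Finset.sum_congr rfl fun i _ => ?_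
  rw [Matrix.transpose_smul, hA]

theorem rmat_skew {CB : ι → Matrix (Fin (2 * n)) (Fin (2 * n)) ℝ} (hB : ∀ i, (CB i)ᵀ = - CB i)
    (x : ι → ℝ) : (rmat CB x)ᵀ = - rmat CB x := by
  unfold rmat
  rw [Matrix.transpose_sum, ← Finset.sum_neg_distrib]
  refine Finset.sum_congr rfl fun i _ => ?_
  rw [Matrix.transpose_smul, hB, smul_neg]

theorem low_le (hn : 1 ≤ n) (e : ι → ℝ) {CA CB : ι → Matrix (Fin (2 * n)) (Fin (2 * n)) ℝ}
    (hA : ∀ i, (CA i)ᵀ = CA i) (hB : ∀ i, (CB i)ᵀ = - CB i) {a b c : ℝ} (ha : 0 < a) (hb : 0 < b)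
    (hc : 0 < c) (habc : 2 * a + 2 * b + c = 1 / 6) (hVA : VarLe CA (a ^ 2))
    (hVB : VarLe CB (b ^ 2)) {P : Arr (2 * n)}
    {K : lam → Matrix (Fin (2 * n)) (Fin (2 * n)) ℝ} (hP : Rep P K) (hVK : VarLe K (c ^ 2))
    (x : ι → ℝ) :
    low n e CA CB a b c x ≤
      (Lam (cpl P) (cmat (MM e (1 : Matrix (Fin (2 * n)) (Fin (2 * n)) ℝ) CA CB) x)).re := by
  obtain ⟨α, hα0, hα⟩ := exists_root hn (Phi_nonneg CA n x)
  obtain ⟨β, hβ0, hβ⟩ := exists_root hn (Phi_nonneg CB n x)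
  have hA2 : ∀ y, sq2 (rmat CA x *ᵥ y) ≤ α ^ 2 * sq2 y := by
    intro y
    have := norm_of_Phi hn hVA x hα y
    rw [rmat_symm hA] at this
    exact this
  have hB2 : ∀ y, sq2 (rmat CB x *ᵥ y) ≤ β ^ 2 * sq2 y := by
    intro y
    have := norm_of_Phi hn hVB x hβ y
    rw [rmat_skew hB, Matrix.neg_mulVec] at this
    refine le_trans (le_of_eq ?_) this
    unfold sq2
    exact Finset.sum_congr rfl fun i _ => by simp
  have hψ := psd_cx (rmat_symm hA x) (rmat_skew hB x) hα0 hβ0 hA2 hB2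
  set κ : ℝ := α + β with hκ
  have hκ0 : 0 ≤ κ := add_nonneg hα0 hβ0
  have p1 := pointwise_lam (cpos_rep hP) (x := ∑ i, e i * x i) hκ0 hψ.1 hψ.2
  have hab : 0 < a + b := add_pos ha hb
  have p2 := lam_one_le hn hP hVK (v := 12 * (a + b)) (w := 6 * c) (by positivity) (by positivity)
    (by linarith) (ρ := 2 * κ) (by positivity)
  have p3 : (2 * κ) ^ (2 * n) ≤ 4 ^ n * (a / (a + b) * ((a / (a + b)) ^ (2 * n))⁻¹ * Phi CA n x +
        b / (a + b) * ((b / (a + b)) ^ (2 * n))⁻¹ * Phi CB n x) := by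
    have h1 := add_pow_le_weights hα0 hβ0 (v := a / (a + b)) (w := b / (a + b)) (by positivity)
      (by positivity) (by field_simp) (2 * n)
    rw [hα, hβ] at h1
    rw [mul_pow, pow_mul (2 : ℝ), show (2 : ℝ) ^ 2 = 4 by norm_num]
    exact mul_le_mul_of_nonneg_left h1 (by positivity)
  rw [cmat_MM]
  refine le_trans ?_ p1
  refine le_trans ?_ (sub_le_sub_left p2 _)
  unfold low
  rw [← mul_sub]
  refine mul_le_mul_of_nonneg_left ?_ (K4_nonneg n)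
  have p4 : (1 + 12 * (a + b) * ((12 * (a + b)) ^ (2 * n))⁻¹) * (2 * κ) ^ (2 * n) ≤
      (1 + 12 * (a + b) * ((12 * (a + b)) ^ (2 * n))⁻¹) *
      (4 ^ n * (a / (a + b) * ((a / (a + b)) ^ (2 * n))⁻¹ * Phi CA n x +
        b / (a + b) * ((b / (a + b)) ^ (2 * n))⁻¹ * Phi CB n x)) :=
    mul_le_mul_of_nonneg_left p3 (by positivity)
  linarith

end Pool.Agent.H44D
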