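import Pool.Agent.Lib.H44D.E1
import Pool.Agent.Lib.H44D.B1

/-!
# H44D chunk E2 (M): the core estimate

`gaussBonnet n V = ∫ (Lam (cpl P) (cmat (MM ..) x)).re` (`integral_lam`, `integrable_lam`, B1;
`integral_re`), so it is `≥ ∫ low` (E1, `integral_mono`, `integrable_lin_pow`, `integrable_Phi`).
Value: `∫ (∑ e x)^(2n) = dff n` (`int_lin_pow`, `∑ e² = 1`), `int_Phi`.  With `u = a + b`:
`4^n (p (p^(2n))⁻¹ (a²)^n + q (q^(2n))⁻¹ (b²)^n) 16^n/4 dff n = (64^n u^(2n) / 4) dff n` (`p = a/u`, `q = b/u`,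
`p + q = 1`), `64^n u^(2n) = (8u)^(2n)`; `(8u)^(2n) ≤ (4/9)^n` (`12 u ≤ 1`), and
`12u ((12u)^(2n))⁻¹ (8u)^(2n) = 12u (4/9)^n`, `6c ((6c)^(2n))⁻¹ (c²)^n 16^n = 6c (4/9)^n`, `12u + 6c = 1`.  So
`∫ low ≥ K4 n * dff n * (4/9)^n * (1 - 1/4 - 1/4)`, `K4 n * dff n = 2^n (2n)!` (`factorial_dff`).
-/

open Finset Equiv MeasureTheory Matrix
open scoped ComplexOrder

set_option autoImplicit false

namespace Pool.Agent.H44D

open Pool.Agent.H69Hopf Pool.Agent.H69Gauss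

variable {ι lam : Type} [Fintype ι] [DecidableEq ι] [Fintype lam] [DecidableEq lam] {n : ℕ}

theorem integrable_low (e : ι → ℝ) {CA CB : ι → Matrix (Fin (2 * n)) (Fin (2 * n)) ℝ} {a b c : ℝ}
    (hVA : VarLe CA (a ^ 2)) (hVB : VarLe CB (b ^ 2)) :
    Integrable (low n e CA CB a b c) (gam ι) := by
  unfold low
  exact (((((integrable_lin_pow e (2 * n)).const_mul _).sub
    (((((integrable_Phi hVA n).const_mul _).add
      ((integrable_Phi hVB n).const_mul _)).const_mul _).const_mul _)).sub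
        (integrable_const _))).const_mul _

theorem integral_low (e : ι → ℝ) {CA CB : ι → Matrix (Fin (2 * n)) (Fin (2 * n)) ℝ} {a b c : ℝ}
    (hVA : VarLe CA (a ^ 2)) (hVB : VarLe CB (b ^ 2)) :
    ∫ x, low n e CA CB a b c x ∂(gam ι) =
      K4 n * ((4 / 9) ^ n * (dff n * (∑ i, e i ^ 2) ^ n) -
    (1 + 12 * (a + b) * ((12 * (a + b)) ^ (2 * n))⁻¹) *
      (4 ^ n * (a / (a + b) * ((a / (a + b)) ^ (2 * n))⁻¹ * (∫ x, Phi CA n x ∂(gam ι)) +
        b / (a + b) * ((b / (a + b)) ^ (2 * n))⁻¹ * (∫ x, Phi CB n x ∂(gam ι)))) -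
    6 * c * ((6 * c) ^ (2 * n))⁻¹ * ((c ^ 2) ^ n * (16 ^ n / 4) * dff n)) := by
  have j0 : Integrable (fun x : ι → ℝ => (4 / 9 : ℝ) ^ n * (∑ i, e i * x i) ^ (2 * n)) (gam ι) :=
    (integrable_lin_pow e (2 * n)).const_mul _
  have j1 : Integrable (fun x => a / (a + b) * ((a / (a + b)) ^ (2 * n))⁻¹ * Phi CA n x)
    (gam ι) := (integrable_Phi hVA n).const_mul _
  have j2 : Integrable (fun x => b / (a + b) * ((b / (a + b)) ^ (2 * n))⁻¹ * Phi CB n x)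
    (gam ι) := (integrable_Phi hVB n).const_mul _
  have j3 : Integrable (fun x => (1 + 12 * (a + b) * ((12 * (a + b)) ^ (2 * n))⁻¹) *
      (4 ^ n * (a / (a + b) * ((a / (a + b)) ^ (2 * n))⁻¹ * Phi CA n x +
        b / (a + b) * ((b / (a + b)) ^ (2 * n))⁻¹ * Phi CB n x))) (gam ι) :=
    ((j1.add j2).const_mul _).const_mul _
  have j4 : Integrable (fun _ : ι → ℝ =>
    6 * c * ((6 * c) ^ (2 * n))⁻¹ * ((c ^ 2) ^ n * (16 ^ n / 4) * dff n)) (gam ι) :=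
    integrable_const _
  have j5 : Integrable (fun x : ι → ℝ => (4 / 9 : ℝ) ^ n * (∑ i, e i * x i) ^ (2 * n) -
      (1 + 12 * (a + b) * ((12 * (a + b)) ^ (2 * n))⁻¹) *
      (4 ^ n * (a / (a + b) * ((a / (a + b)) ^ (2 * n))⁻¹ * Phi CA n x +
        b / (a + b) * ((b / (a + b)) ^ (2 * n))⁻¹ * Phi CB n x))) (gam ι) := j0.sub j3
  unfold low
  rw [integral_const_mul, integral_sub j5 j4, integral_sub j0 j3, integral_const_mul,
    integral_const_mul, integral_const_mul, int_lin_pow, integral_add j1 j2, integral_const_mul,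
    integral_const_mul, integral_const]
  simp

theorem integral_low_ge (hn : 1 ≤ n) (e : ι → ℝ) (he : ∑ i, e i ^ 2 = 1)
    {CA CB : ι → Matrix (Fin (2 * n)) (Fin (2 * n)) ℝ} {a b c : ℝ} (ha : 0 < a) (hb : 0 < b)
    (hc : 0 < c) (habc : 2 * a + 2 * b + c = 1 / 6) (hVA : VarLe CA (a ^ 2))
    (hVB : VarLe CB (b ^ 2)) :
    (1 / 2) * (4 / 9) ^ n * (2 ^ n * ((2 * n).factorial : ℝ)) ≤
      ∫ x, low n e CA CB a b c x ∂(gam ι) := by
  have hd := dff_pos n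
  have iA := int_Phi hVA n hn (Fintype.card_fin _)
  have iB := int_Phi hVB n hn (Fintype.card_fin _)
  rw [integral_low e hVA hVB, he, one_pow, mul_one]
  set u : ℝ := a + b with hu
  have hu0 : 0 < u := add_pos ha hb
  have key : ∀ s : ℝ, 0 < s → s / u * ((s / u) ^ (2 * n))⁻¹ * ((s ^ 2) ^ n * (16 ^ n / 4) * dff n) =
      s / u * (u ^ (2 * n) * (16 ^ n / 4) * dff n) := by
    intro s hs
    have e1 : ((s / u) ^ (2 * n))⁻¹ * (s ^ 2) ^ n = u ^ (2 * n) := by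
      rw [div_pow, pow_mul s, inv_div]
      have : (s ^ 2) ^ n ≠ 0 := by positivity
      field_simp
    calc s / u * ((s / u) ^ (2 * n))⁻¹ * ((s ^ 2) ^ n * (16 ^ n / 4) * dff n) =
        s / u * ((((s / u) ^ (2 * n))⁻¹ * (s ^ 2) ^ n) * (16 ^ n / 4) * dff n) := by ring
      _ = _ := by rw [e1]
  have jA := mul_le_mul_of_nonneg_left iA (show 0 ≤ a / u * ((a / u) ^ (2 * n))⁻¹ by positivity)
  have jB := mul_le_mul_of_nonneg_left iB (show 0 ≤ b / u * ((b / u) ^ (2 * n))⁻¹ by positivity)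
  rw [key a ha] at jA
  rw [key b hb] at jB
  have hab1 : a / u + b / u = 1 := by
    rw [← add_div]
    exact div_self hu0.ne'
  have jAB : a / u * ((a / u) ^ (2 * n))⁻¹ * (∫ x, Phi CA n x ∂(gam ι)) +
      b / u * ((b / u) ^ (2 * n))⁻¹ * (∫ x, Phi CB n x ∂(gam ι)) ≤
      u ^ (2 * n) * (16 ^ n / 4) * dff n := by
    refine (add_le_add jA jB).trans (le_of_eq ?_)
    rw [← add_mul, hab1, one_mul]
  set IA := ∫ x, Phi CA n x ∂(gam ι) with hIA
  set IB := ∫ x, Phi CB n x ∂(gam ι) with hIB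
  have g1 : (4 : ℝ) ^ n * (u ^ (2 * n) * (16 ^ n / 4) * dff n) =
      (4 / 9) ^ n * (12 * u) ^ (2 * n) / 4 * dff n := by
    have : (4 : ℝ) ^ n * 16 ^ n = (4 / 9) ^ n * 12 ^ (2 * n) := by
      rw [pow_mul, ← mul_pow, ← mul_pow]
      norm_num
    calc (4 : ℝ) ^ n * (u ^ (2 * n) * (16 ^ n / 4) * dff n) =
        ((4 : ℝ) ^ n * 16 ^ n) * u ^ (2 * n) / 4 * dff n := by ring
      _ = _ := by rw [this, mul_pow]; ring
  have h12 : (12 * u) ^ (2 * n) ≤ 1 := pow_le_one₀ (by positivity) (by linarith)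
  have h12' : 0 < (12 * u) ^ (2 * n) := by positivity
  have g2 : (1 + 12 * u * ((12 * u) ^ (2 * n))⁻¹) *
      (4 ^ n * (a / u * ((a / u) ^ (2 * n))⁻¹ * IA + b / u * ((b / u) ^ (2 * n))⁻¹ * IB)) ≤
      (4 / 9) ^ n / 4 * dff n * (1 + 12 * u) := by
    have h1 := mul_le_mul_of_nonneg_left (mul_le_mul_of_nonneg_left jAB
      (show (0 : ℝ) ≤ 4 ^ n by positivity))
      (show (0 : ℝ) ≤ 1 + 12 * u * ((12 * u) ^ (2 * n))⁻¹ by positivity)
    refine h1.trans ?_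
    rw [g1]
    have h2 : (1 + 12 * u * ((12 * u) ^ (2 * n))⁻¹) *
        ((4 / 9) ^ n * (12 * u) ^ (2 * n) / 4 * dff n) =
        (4 / 9) ^ n / 4 * dff n * ((12 * u) ^ (2 * n) + 12 * u) := by
      field_simp
    rw [h2]
    exact mul_le_mul_of_nonneg_left (by linarith) (by positivity)
  have g3 : 6 * c * ((6 * c) ^ (2 * n))⁻¹ * ((c ^ 2) ^ n * (16 ^ n / 4) * dff n) =
      (4 / 9) ^ n / 4 * dff n * (6 * c) := by
    have e1 : (6 * c) ^ (2 * n) = 36 ^ n * (c ^ 2) ^ n := by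
      rw [pow_mul, mul_pow, mul_pow]
      norm_num
    have e2 : (16 : ℝ) ^ n = 36 ^ n * (4 / 9) ^ n := by
      rw [← mul_pow]
      norm_num
    have h36 : (36 : ℝ) ^ n ≠ 0 := by positivity
    have hs2 : (c ^ 2) ^ n ≠ 0 := by positivity
    rw [e1, e2]
    field_simp
  have g4 : K4 n * dff n = 2 ^ n * ((2 * n).factorial : ℝ) := by
    unfold K4
    rw [factorial_dff, show (4 : ℝ) = 2 * 2 by norm_num, mul_pow]
    ring
  calc (1 / 2) * (4 / 9) ^ n * (2 ^ n * ((2 * n).factorial : ℝ)) =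
      K4 n * ((4 / 9) ^ n * dff n - (4 / 9) ^ n / 4 * dff n * (1 + 12 * u) -
        (4 / 9) ^ n / 4 * dff n * (6 * c)) := by
        rw [← g4]
        have : (6 : ℝ) * c = 1 - 12 * u := by rw [hu]; linarith
        rw [this]
        ring
    _ ≤ _ := by
        refine mul_le_mul_of_nonneg_left ?_ (K4_nonneg n)
        rw [g3]
        linarith

theorem core3 (hn : 1 ≤ n) (e : ι → ℝ) (he : ∑ i, e i ^ 2 = 1)
    {CA CB : ι → Matrix (Fin (2 * n)) (Fin (2 * n)) ℝ} (hA : ∀ i, (CA i)ᵀ = CA i)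
    (hB : ∀ i, (CB i)ᵀ = - CB i) {a b c : ℝ} (ha : 0 < a) (hb : 0 < b) (hc : 0 < c)
    (habc : 2 * a + 2 * b + c = 1 / 6) (hVA : VarLe CA (a ^ 2)) (hVB : VarLe CB (b ^ 2))
    {P : Arr (2 * n)} {K : lam → Matrix (Fin (2 * n)) (Fin (2 * n)) ℝ} (hP : Rep P K)
    (hVK : VarLe K (c ^ 2)) (V : Arr (2 * n))
    (hV : ∀ i j k l, ((V i j k l : ℝ) : ℂ) = cpl P i j k l +
      ∑ x, (MM e 1 CA CB x i k * MM e 1 CA CB x j l - MM e 1 CA CB x i l * MM e 1 CA CB x j k)) :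
    (1 / 2) * (4 / 9) ^ n * (2 ^ n * ((2 * n).factorial : ℝ)) ≤ gaussBonnet n V := by
  have h1 := integral_lam (cpl P) (MM e 1 CA CB) V hV
  have hint := integrable_lam (cpl P) (MM e (1 : Matrix (Fin (2 * n)) (Fin (2 * n)) ℝ) CA CB)
  have h2 : gaussBonnet n V =
      ∫ x, (Lam (cpl P) (cmat (MM e (1 : Matrix (Fin (2 * n)) (Fin (2 * n)) ℝ) CA CB) x)).re
        ∂(gam ι) := by
    have h3 := congrArg Complex.re h1
    have h4 := integral_re hint
    rw [Complex.ofReal_re] at h3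
    rw [← h3]
    exact h4.symm
  rw [h2]
  refine (integral_low_ge hn e he ha hb hc habc hVA hVB).trans ?_
  exact integral_mono (integrable_low e hVA hVB) hint.re fun x =>
    low_le hn e hA hB ha hb hc habc hVA hVB hP hVK x

end Pool.Agent.H44D
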