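import Pool.Agent.Lib.H44D.E2

/-!
# H44D chunk E3 (M): the pointwise theorem for `h = 1`

`core3` (E2) with `ι = Option (Fin q ⊕ l₁)`, `e none = 1`, `CA (some (inl j)) = A j`,
`CB (some (inr l)) = K₁ l`, all the other values `0` (as in the proof of `dimension_free`,
`Lib/H69/Gauss/Final2.lean`).  `MM none = cx (1ᵀ * 1) = 1`, `MM (some (inl j)) = cx (A j)`,
`MM (some (inr l)) = I • cx (K₁ l)`, whose antisymmetrised square is minus the one of `K₁ l` (`h₁.kn`).
If `2 a + 2 b + c < 1/6` increase `c` (`VarLe_mono`).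
-/

open Finset Equiv MeasureTheory Matrix

set_option autoImplicit false

namespace Pool.Agent.H44D

open Pool.Agent.H69Hopf Pool.Agent.H69Gauss

theorem pw_one {n : ℕ} (hn : 1 ≤ n) {q : ℕ} {A : Fin q → Matrix (Fin (2 * n)) (Fin (2 * n)) ℝ}
    (hA : ∀ j, (A j)ᵀ = A j) {l₁ l₂ : Type} [Fintype l₁] [DecidableEq l₁] [Fintype l₂]
    [DecidableEq l₂] {P₁ P₂ : Arr (2 * n)} {K₁ : l₁ → Matrix (Fin (2 * n)) (Fin (2 * n)) ℝ}
    {K₂ : l₂ → Matrix (Fin (2 * n)) (Fin (2 * n)) ℝ} (h₁ : Rep P₁ K₁) (h₂ : Rep P₂ K₂)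
    {a b c : ℝ} (ha : 0 < a) (hb : 0 < b) (hc : 0 < c) (habc : 2 * a + 2 * b + c ≤ 1 / 6)
    (hVA : VarLe A (a ^ 2)) (hV1 : VarLe K₁ (b ^ 2)) (hV2 : VarLe K₂ (c ^ 2)) :
    (1 / 2) * (4 / 9) ^ n * (2 ^ n * ((2 * n).factorial : ℝ)) ≤
      gaussBonnet n (fun i j k l => kn 1 i j k l + ∑ x, kn (A x) i j k l - P₁ i j k l +
        P₂ i j k l) := by
  classical
  set CA : Option (Fin q ⊕ l₁) → Matrix (Fin (2 * n)) (Fin (2 * n)) ℝ :=
    fun o => match o with
      | none => 0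
      | some (Sum.inl j) => A j
      | some (Sum.inr _) => 0 with hCA
  set CB : Option (Fin q ⊕ l₁) → Matrix (Fin (2 * n)) (Fin (2 * n)) ℝ :=
    fun o => match o with
      | none => 0
      | some (Sum.inl _) => 0
      | some (Sum.inr β) => K₁ β with hCB
  set e : Option (Fin q ⊕ l₁) → ℝ :=
    fun o => match o with
      | none => 1
      | some _ => 0 with he
  have he1 : ∑ o, e o ^ 2 = 1 := by
    rw [Fintype.sum_option]
    simp [he]
  have hCAs : ∀ o, (CA o)ᵀ = CA o := by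
    intro o
    rcases o with _ | α | β
    · simp [hCA]
    · exact hA α
    · simp [hCA]
  have hCBs : ∀ o, (CB o)ᵀ = - CB o := by
    intro o
    rcases o with _ | α | β
    · simp [hCB]
    · simp [hCB]
    · exact h₁.skew β
  have hVA' : VarLe CA (a ^ 2) := by
    intro x y
    refine le_trans (le_of_eq ?_) (hVA x y)
    rw [Fintype.sum_option, Fintype.sum_sum_type]
    simp only [hCA]
    simp [bil]
  have hVB' : VarLe CB (b ^ 2) := by
    intro x y
    refine le_trans (le_of_eq ?_) (hV1 x y)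
    rw [Fintype.sum_option, Fintype.sum_sum_type]
    simp only [hCB]
    simp [bil]
  set c' : ℝ := 1 / 6 - 2 * a - 2 * b with hc'
  have hcc : c ≤ c' := by rw [hc']; linarith
  have hV2' : VarLe K₂ (c' ^ 2) := VarLe_mono hV2 (pow_le_pow_left₀ hc.le hcc 2)
  refine core3 hn e he1 (CA := CA) (CB := CB) hCAs hCBs (a := a) (b := b) (c := c') ha hb
    (hc.trans_le hcc) (by rw [hc']; ring) hVA' hVB' h₂ hV2' _ ?_
  intro i j k l
  have m0 : ∀ i j, MM e (1 : Matrix (Fin (2 * n)) (Fin (2 * n)) ℝ) CA CB none i j =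
      ((1 : Matrix (Fin (2 * n)) (Fin (2 * n)) ℝ) i j : ℂ) := by
    intro i j
    simp only [MM, he, hCA, hCB, Matrix.transpose_one, Matrix.one_mul]
    simp only [map_zero, smul_zero, add_zero, Complex.ofReal_one, one_smul, cx_apply]
  have m1 : ∀ α i j, MM e (1 : Matrix (Fin (2 * n)) (Fin (2 * n)) ℝ) CA CB (some (Sum.inl α)) i j =
      (A α i j : ℂ) := by
    intro α i j
    simp [MM, he, hCA, hCB, cx_apply]
  have m2 : ∀ β i j, MM e (1 : Matrix (Fin (2 * n)) (Fin (2 * n)) ℝ) CA CB (some (Sum.inr β)) i j =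
      Complex.I * (K₁ β i j : ℂ) := by
    intro β i j
    simp [MM, he, hCA, hCB, cx_apply]
  rw [Fintype.sum_option, Fintype.sum_sum_type]
  simp only [m0, m1, m2]
  have h1 : ∑ β, (Complex.I * (K₁ β i k : ℂ) * (Complex.I * (K₁ β j l : ℂ)) -
      Complex.I * (K₁ β i l : ℂ) * (Complex.I * (K₁ β j k : ℂ))) = - ((P₁ i j k l : ℝ) : ℂ) := by
    rw [h₁.kn]
    push_cast
    rw [← Finset.sum_neg_distrib]
    refine Finset.sum_congr rfl fun β _ => ?_
    have hI : Complex.I * Complex.I = -1 := Complex.I_mul_I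
    calc _ = (Complex.I * Complex.I) * ((K₁ β i k : ℂ) * (K₁ β j l : ℂ) -
          (K₁ β i l : ℂ) * (K₁ β j k : ℂ)) := by ring
      _ = _ := by rw [hI]; ring
  rw [h1]
  simp only [cpl, kn]
  push_cast
  ring

end Pool.Agent.H44D
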