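import Pool.Agent.Lib.H44D.Class
import Pool.Agent.Lib.H69.Hopf.Sym

/-!
# H44D chunk F1 (M): the conditions are preserved by linear maps
-/

open Finset

set_option autoImplicit false

namespace Pool.Agent.H44D

open Pool.Agent.H69Hopf Pool.Agent.H69Gauss Pool.Agent.H88S Pool.Agent.H11S Pool.Agent.H72S

variable {M N : ℕ}

theorem sec_eq_ev (R : Arr N) (u v : Fin N → ℝ) : sec R u v = ev R u v u v := rfl

theorem ev_addR (R S : Arr N) (x y z w : Fin N → ℝ) :
    ev (R + S) x y z w = ev R x y z w + ev S x y z w := by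
  unfold ev
  simp only [Pi.add_apply, add_mul, Finset.sum_add_distrib]

theorem ev_subR (R S : Arr N) (x y z w : Fin N → ℝ) :
    ev (R - S) x y z w = ev R x y z w - ev S x y z w := by
  unfold ev
  simp only [Pi.sub_apply, sub_mul, Finset.sum_sub_distrib]

theorem ev_zeroR (x y z w : Fin N → ℝ) : ev (0 : Arr N) x y z w = 0 := by
  unfold ev
  simp

theorem ev_sumR {ι : Type*} (s : Finset ι) (R : ι → Arr N) (x y z w : Fin N → ℝ) :
    ev (∑ j ∈ s, R j) x y z w = ∑ j ∈ s, ev (R j) x y z w := by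
  classical
  induction s using Finset.induction_on with
  | empty => simp only [Finset.sum_empty, ev_zeroR]
  | insert a s ha ih => rw [Finset.sum_insert ha, Finset.sum_insert ha, ev_addR, ih]

theorem pull_sub (v : Fin M → (Fin N → ℝ)) (R S : Arr N) : pull v (R - S) = pull v R - pull v S := by
  funext i j k l
  exact ev_subR R S _ _ _ _

theorem pull_add (v : Fin M → (Fin N → ℝ)) (R S : Arr N) : pull v (R + S) = pull v R + pull v S := by
  funext i j k l
  exact ev_addR R S _ _ _ _

theorem pull_sum {q : ℕ} (v : Fin M → (Fin N → ℝ)) (R : Fin q → Arr N) :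
    pull v (∑ j, R j) = ∑ j, pull v (R j) := by
  funext i j k l
  simp only [Finset.sum_apply]
  exact ev_sumR _ R _ _ _ _

/-- The values of a product `f i j * g k l`. -/
theorem sum4_mul (f g : Fin N → Fin N → ℝ) (x y z w : Fin N → ℝ) :
    ∑ i, ∑ j, ∑ k, ∑ l, f i j * g k l * x i * y j * z k * w l =
      (∑ i, ∑ j, f i j * x i * y j) * ∑ k, ∑ l, g k l * z k * w l := by
  rw [Finset.sum_mul]
  refine Finset.sum_congr rfl fun i _ => ?_
  rw [Finset.sum_mul]
  refine Finset.sum_congr rfl fun j _ => ?_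
  rw [Finset.mul_sum]
  refine Finset.sum_congr rfl fun k _ => ?_
  rw [Finset.mul_sum]
  refine Finset.sum_congr rfl fun l _ => ?_
  ring

theorem ev_kn4 (h : Mat N) (x y z w : Fin N → ℝ) :
    ev (kn h) x y z w = bilin h x z * bilin h y w - bilin h x w * bilin h y z := by
  have e1 : bilin h x z * bilin h y w = ∑ i, ∑ j, ∑ k, ∑ l, h i k * h j l * x i * y j * z k * w l := by
    unfold bilin
    rw [Finset.sum_mul_sum]
    refine Finset.sum_congr rfl fun i _ => Finset.sum_congr rfl fun j _ => ?_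
    rw [Finset.sum_mul_sum]
    refine Finset.sum_congr rfl fun k _ => Finset.sum_congr rfl fun l _ => ?_
    ring
  have e2 : bilin h x w * bilin h y z = ∑ i, ∑ j, ∑ k, ∑ l, h i l * h j k * x i * y j * z k * w l := by
    unfold bilin
    rw [Finset.sum_mul_sum]
    refine Finset.sum_congr rfl fun i _ => Finset.sum_congr rfl fun j _ => ?_
    rw [Finset.sum_mul_sum, Finset.sum_comm]
    refine Finset.sum_congr rfl fun k _ => Finset.sum_congr rfl fun l _ => ?_
    ring
  rw [e1, e2]
  unfold ev kn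
  simp only [← Finset.sum_sub_distrib]
  refine Finset.sum_congr rfl fun i _ => Finset.sum_congr rfl fun j _ =>
    Finset.sum_congr rfl fun k _ => Finset.sum_congr rfl fun l _ => ?_
  ring

theorem pull_kn (v : Fin M → (Fin N → ℝ)) (h : Mat N) : pull v (kn h) = kn (pullM v h) := by
  funext i j k l
  exact ev_kn4 h _ _ _ _

theorem sum_comm4 {α β γ δ : Type*} [Fintype α] [Fintype β] [Fintype γ] [Fintype δ]
    (f : α → β → γ → δ → ℝ) :
    ∑ a, ∑ b, ∑ c, ∑ d, f a b c d = ∑ c, ∑ d, ∑ a, ∑ b, f a b c d := by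
  calc ∑ a, ∑ b, ∑ c, ∑ d, f a b c d = ∑ a, ∑ c, ∑ b, ∑ d, f a b c d :=
        Finset.sum_congr rfl fun a _ => Finset.sum_comm
    _ = ∑ c, ∑ a, ∑ b, ∑ d, f a b c d := Finset.sum_comm
    _ = ∑ c, ∑ a, ∑ d, ∑ b, f a b c d := Finset.sum_congr rfl fun c _ =>
        Finset.sum_congr rfl fun a _ => Finset.sum_comm
    _ = ∑ c, ∑ d, ∑ a, ∑ b, f a b c d := Finset.sum_congr rfl fun c _ => Finset.sum_comm

theorem bilin_pullM (v : Fin M → (Fin N → ℝ)) (h : Mat N) (c d : Fin M → ℝ) :
    bilin (pullM v h) c d = bilin h (comb v c) (comb v d) := by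
  unfold pullM bilin comb
  simp only [Matrix.of_apply, Finset.mul_sum, Finset.sum_mul]
  rw [sum_comm4]
  refine Finset.sum_congr rfl fun i _ => Finset.sum_congr rfl fun j _ => ?_
  rw [Finset.sum_comm]
  refine Finset.sum_congr rfl fun b _ => Finset.sum_congr rfl fun a _ => ?_
  ring

theorem pull_sepT {r : ℕ} (v : Fin M → (Fin N → ℝ)) (x y : Fin r → Fin N → ℝ) :
    ∃ x' y' : Fin r → Fin M → ℝ, pull v (sepT x y) = sepT x' y' := by
  refine ⟨fun a i => ∑ m, x a m * v i m, fun a i => ∑ m, y a m * v i m, ?_⟩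
  have h0 : sepT x y = ∑ a, fun i j k l =>
      (x a i * y a j - x a j * y a i) * (x a k * y a l - x a l * y a k) := by
    funext i j k l
    simp only [Finset.sum_apply]
    rfl
  rw [h0]
  funext i j k l
  show ev _ (v i) (v j) (v k) (v l) = _
  rw [ev_sumR]
  unfold sepT
  refine Finset.sum_congr rfl fun a _ => ?_
  unfold ev
  rw [sum4_mul]
  have h1 : ∀ X Y : Fin N → ℝ, ∑ i, ∑ j, (x a i * y a j - x a j * y a i) * X i * Y j =
      (∑ m, x a m * X m) * (∑ m, y a m * Y m) - (∑ m, x a m * Y m) * (∑ m, y a m * X m) := by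
    intro X Y
    rw [Finset.sum_mul_sum, mul_comm (∑ m, x a m * Y m), Finset.sum_mul_sum,
      ← Finset.sum_sub_distrib]
    refine Finset.sum_congr rfl fun i _ => ?_
    rw [← Finset.sum_sub_distrib]
    refine Finset.sum_congr rfl fun j _ => ?_
    ring
  rw [h1, h1]

theorem pull_firstKind (v : Fin M → (Fin N → ℝ)) (R : Arr N) (w : Mat M) :
    firstKind (pull v R) w =
      firstKind R (Matrix.of fun i j => ∑ a, ∑ b, w a b * (v a i * v b j)) := by
  have e0 : ∀ {K : ℕ} (T : Arr K) (u : Mat K), firstKind T u =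
      ∑ p : Fin K × Fin K, ∑ q : Fin K × Fin K, T p.1 p.2 q.1 q.2 * u p.1 p.2 * u q.1 q.2 := by
    intro K T u
    simp only [Fintype.sum_prod_type]
    rfl
  have e1 : ∀ a b c d, pull v R a b c d = ∑ p : Fin N × Fin N, ∑ q : Fin N × Fin N,
      R p.1 p.2 q.1 q.2 * (v a p.1 * v b p.2) * (v c q.1 * v d q.2) := by
    intro a b c d
    simp only [Fintype.sum_prod_type]
    unfold pull ev
    refine Finset.sum_congr rfl fun i _ => Finset.sum_congr rfl fun j _ =>
      Finset.sum_congr rfl fun k _ => Finset.sum_congr rfl fun l _ => ?_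
    ring
  have e2 : ∀ p : Fin N × Fin N, (Matrix.of fun i j => ∑ a, ∑ b, w a b * (v a i * v b j) : Mat N)
      p.1 p.2 = ∑ A : Fin M × Fin M, w A.1 A.2 * (v A.1 p.1 * v A.2 p.2) := by
    intro p
    rw [Fintype.sum_prod_type]
    rfl
  rw [e0, e0]
  simp only [e1, e2, Finset.sum_mul]
  rw [sum_comm4]
  refine Finset.sum_congr rfl fun p _ => Finset.sum_congr rfl fun q _ => ?_
  rw [mul_assoc, Finset.sum_mul_sum, Finset.mul_sum]
  refine Finset.sum_congr rfl fun A _ => ?_
  rw [Finset.mul_sum]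
  refine Finset.sum_congr rfl fun B _ => ?_
  ring

theorem pull_opBound (v : Fin M → (Fin N → ℝ)) {t : ℝ} {h : Mat N} {P : Arr N}
    (hP : OpBound t h P) : OpBound t (pullM v h) (pull v P) := by
  refine ⟨pull_algCurv v hP.alg, fun w hw => ?_, fun c d => ?_⟩
  · rw [pull_firstKind]
    refine hP.pos _ ?_
    ext i j
    simp only [Matrix.transpose_apply, Matrix.of_apply, Matrix.neg_apply]
    rw [Finset.sum_comm, ← Finset.sum_neg_distrib]
    refine Finset.sum_congr rfl fun a _ => ?_
    rw [← Finset.sum_neg_distrib]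
    refine Finset.sum_congr rfl fun b _ => ?_
    have : w b a = - w a b := by
      have := congrFun (congrFun hw a) b
      simpa using this
    rw [this]
    ring
  · rw [← pull_kn, sec_eq_ev, sec_eq_ev, ← ev_comb, ← ev_comb]
    exact hP.bound _ _

theorem pullM_eq (v : Fin M → (Fin N → ℝ)) (h : Mat N) :
    pullM v h = (Matrix.of fun a i => v i a).transpose * h * (Matrix.of fun a i => v i a) := by
  ext i j
  unfold pullM bilin
  simp only [Matrix.mul_apply, Matrix.of_apply, Matrix.transpose_apply, Finset.sum_mul]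
  rw [Finset.sum_comm]

theorem pullM_symm (v : Fin M → (Fin N → ℝ)) {h : Mat N} (hh : h.IsSymm) : (pullM v h).IsSymm := by
  rw [pullM_eq]
  unfold Matrix.IsSymm
  rw [Matrix.transpose_mul, Matrix.transpose_mul, Matrix.transpose_transpose, hh.eq, Matrix.mul_assoc]

theorem pullM_posSemidef (v : Fin M → (Fin N → ℝ)) {h : Mat N} (hh : h.PosSemidef) :
    (pullM v h).PosSemidef := by
  rw [pullM_eq, ← Matrix.conjTranspose_eq_transpose_of_trivial]
  exact hh.conjTranspose_mul_mul_same _

theorem pull_near (v : Fin M → (Fin N → ℝ)) {h : Mat N} {R : Arr N} (hR : Near h R) :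
    Near (pullM v h) (pull v R) := by
  refine ⟨pullM_posSemidef v hR.1, ?_⟩
  rcases hR.2 with ⟨a, b, c, P₁, P₂, q, r, A, x, y, ha, hb, hc, habc, h1, h2, hA, hAa, hRe⟩ |
    ⟨P, r, x, y, h1, hRe⟩
  · obtain ⟨x', y', hxy⟩ := pull_sepT v x y
    refine Or.inl ⟨a, b, c, pull v P₁, pull v P₂, q, r, fun j => pullM v (A j), x', y', ha, hb, hc,
      habc, pull_opBound v h1, pull_opBound v h2, fun j => pullM_symm v (hA j), fun u => ?_, ?_⟩
    · simp only [bilin_pullM]
      exact hAa _
    · rw [hRe, pull_sub, pull_sub, pull_sub, pull_sub, pull_sum, pull_kn, hxy]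
      simp only [pull_kn]
  · obtain ⟨x', y', hxy⟩ := pull_sepT v x y
    refine Or.inr ⟨pull v P, r, x', y', pull_opBound v h1, ?_⟩
    rw [hRe, pull_sub, pull_sub, pull_kn, hxy]

theorem pullM_posDef {E G h : Mat N} (hE : E.transpose * G * E = 1) (hh : h.PosDef) :
    (pullM (fun i a => E a i) h).PosDef := by
  rw [pullM_eq, ← Matrix.conjTranspose_eq_transpose_of_trivial]
  refine hh.conjTranspose_mul_mul_same ?_
  intro x y hxy
  have h1 : (Matrix.of fun a i => E a i : Mat N) = E := rfl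
  have h2 : ∀ z, (E.transpose * G).mulVec (E.mulVec z) = z := by
    intro z
    rw [Matrix.mulVec_mulVec, hE, Matrix.one_mulVec]
  have h3 : E.mulVec x = E.mulVec y := hxy
  rw [← h2 x, h3, h2 y]

end Pool.Agent.H44D
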