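import Pool.Agent.Lib.H44D.Class

/-!
# H44D chunk F2 (S/M): representation of tensors with nonnegative curvature operator
-/

open Finset

set_option autoImplicit false

namespace Pool.Agent.H44D

open Pool.Agent.H69Hopf Pool.Agent.H69Gauss Pool.Agent.H88S Pool.Agent.H11S Pool.Agent.H72S

variable {N : ℕ}

theorem exists_rep {P : Arr N} (hP : IsAlgCurv P)
    (h : ∀ w : Mat N, w.transpose = -w → 0 ≤ firstKind P w) :
    ∃ K : Fin N × Fin N → Matrix (Fin N) (Fin N) ℝ, Rep P K := by
  obtain ⟨B, hBs, hB⟩ := exists_kappa hP h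
  refine ⟨B, hBs, hB, ?_⟩
  intro i j k l
  have hsk : ∀ β u v, B β u v = - B β v u := by
    intro β u v
    have := congrFun (congrFun (hBs β) v) u
    simpa using this
  have e1 : ∑ β, (B β i k * B β j l - B β i l * B β j k) =
      - (∑ β, B β k i * B β j l) - ∑ β, B β j k * B β i l := by
    rw [← Finset.sum_neg_distrib, ← Finset.sum_sub_distrib]
    refine Finset.sum_congr rfl fun β _ => ?_
    rw [hsk β k i]
    ring
  rw [e1, ← hB, ← hB]
  have := hP.bianchi i j k l
  linarith

/-- `∑ K a (x, y) ^ 2 = sec P x y`. -/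
theorem sum_bil_sq {P : Arr N} {ι : Type*} [Fintype ι] {K : ι → Matrix (Fin N) (Fin N) ℝ}
    (hP : ∀ i j k l, P i j k l = ∑ a, K a i j * K a k l) (x y : Fin N → ℝ) :
    ∑ a, bil (K a) x y ^ 2 = sec P x y := by
  have e1 : ∀ β, bil (K β) x y ^ 2 = ∑ i, ∑ j, ∑ k, ∑ l,
      K β i j * K β k l * x i * y j * x k * y l := by
    intro β
    rw [sq]
    unfold bil
    rw [Finset.sum_mul_sum, Finset.sum_comm]
    have e2 : ∀ i k, (∑ j, x i * K β i j * y j) * (∑ l, x k * K β k l * y l) =
        ∑ j, ∑ l, K β i j * K β k l * x i * y j * x k * y l := by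
      intro i k
      rw [Finset.sum_mul_sum]
      refine Finset.sum_congr rfl fun j _ => Finset.sum_congr rfl fun l _ => ?_
      ring
    simp only [e2]
    rw [Finset.sum_comm]
    refine Finset.sum_congr rfl fun i _ => ?_
    rw [Finset.sum_comm]
  simp only [e1]
  unfold sec
  rw [Finset.sum_comm]
  refine Finset.sum_congr rfl fun i _ => ?_
  rw [Finset.sum_comm]
  refine Finset.sum_congr rfl fun j _ => ?_
  rw [Finset.sum_comm]
  refine Finset.sum_congr rfl fun k _ => ?_
  rw [Finset.sum_comm]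
  refine Finset.sum_congr rfl fun l _ => ?_
  rw [hP i j k l]
  simp only [Finset.sum_mul]

theorem sec_kn_one (u v : Fin N → ℝ) :
    sec (kn (1 : Mat N)) u v = sq2 u * sq2 v - (∑ i, u i * v i) ^ 2 := by
  unfold sec kn sq2
  have h1 : ∀ i j k l : Fin N, ((1 : Mat N) i k * (1 : Mat N) j l - (1 : Mat N) i l * (1 : Mat N) j k) *
      u i * v j * u k * v l =
      (1 : Mat N) i k * (1 : Mat N) j l * u i * v j * u k * v l -
      (1 : Mat N) i l * (1 : Mat N) j k * u i * v j * u k * v l := fun i j k l => by ring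
  simp only [h1, Finset.sum_sub_distrib]
  congr 1
  · rw [Finset.sum_mul_sum]
    refine Finset.sum_congr rfl fun i _ => Finset.sum_congr rfl fun j _ => ?_
    simp only [Matrix.one_apply, ite_mul, one_mul, zero_mul, mul_ite, mul_one, mul_zero,
      Finset.sum_ite_eq, Finset.mem_univ, if_true]
    ring
  · rw [sq, Finset.sum_mul_sum]
    refine Finset.sum_congr rfl fun i _ => Finset.sum_congr rfl fun j _ => ?_
    rw [Finset.sum_eq_single j]
    · rw [Finset.sum_eq_single i]
      · simp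
        ring
      · intro l _ hl
        simp [Ne.symm hl]
      · simp
    · intro k _ hk
      refine Finset.sum_eq_zero fun l _ => ?_
      simp [Matrix.one_apply, Ne.symm hk]
    · simp

theorem varLe_rep {P : Arr N} {K : Fin N × Fin N → Matrix (Fin N) (Fin N) ℝ} (hP : Rep P K)
    {t : ℝ} (ht : 0 ≤ t) (h : ∀ u v, sec P u v ≤ t * sec (kn (1 : Mat N)) u v) : VarLe K t := by
  intro x y
  rw [sum_bil_sq hP.op x y]
  refine (h x y).trans (mul_le_mul_of_nonneg_left ?_ ht)
  rw [sec_kn_one]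
  have := sq_nonneg (∑ i, x i * y i)
  linarith

theorem bilin_one (x : Fin N → ℝ) : bilin (1 : Mat N) x x = sq2 x := by
  unfold bilin sq2
  refine Finset.sum_congr rfl fun i _ => ?_
  rw [Finset.sum_eq_single i]
  · simp
    ring
  · intro j _ hj
    simp [Ne.symm hj]
  · simp

theorem varLe_sym {q : ℕ} {A : Fin q → Mat N} (hA : ∀ j, (A j).IsSymm) {a : ℝ} (ha : 0 ≤ a)
    (h : ∀ u, ∑ j, bilin (A j) u u ^ 2 ≤ a ^ 2 * bilin (1 : Mat N) u u ^ 2) :
    VarLe A (a ^ 2) := by
  intro x y
  have e : ∀ x : Fin N → ℝ, bil (1 : Mat N) x x = sq2 x := bilin_one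
  have h1 := polar_bound (h := (1 : Mat N)) Matrix.transpose_one
    (fun x => (e x).symm ▸ sq2_nonneg x) (A := A) (fun j => hA j) ha h x y
  refine h1.trans (le_of_eq ?_)
  rw [e, e]

end Pool.Agent.H44D
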