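import Pool.Agent.Lib.H44D.F2
import Pool.Agent.Lib.H44D.E3

/-!
# H44D chunk F3 (S/M): the pointwise theorem for `h = 1`, without separable part

`adm_one`: F2 gives `Rep P₁ K₁`, `Rep P₂ K₂` and the `VarLe`; then `pw_one` (E3) for
`-R = kn 1 + ∑ kn (A j) - P₁ + P₂`, and `gaussBonnet n (-R) = (-1)^n gaussBonnet n R` (`gb_neg`,
`gaussBonnet_neg`).
`adm1_one`: `H69Gauss.dimension_free` with `h = 1`, `p = 0`, `a = 0`, `b = √(1/32)`
(`opForm = firstKind`, `ev R x y x y = sec R x y`, `R = P - kn 1`): its conclusion is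
`(1/2) (4/9)^n 2^n (2n)! det 1 ≤ (-1)^n gaussBonnet n R`.
-/

open Finset

set_option autoImplicit false

namespace Pool.Agent.H44D

open Pool.Agent.H69Hopf Pool.Agent.H69Gauss Pool.Agent.H88S Pool.Agent.H11S Pool.Agent.H72S

variable {n : ℕ}

theorem adm_one (hn : 1 ≤ n) {a b c : ℝ} {P₁ P₂ : Arr (2 * n)} {q : ℕ} {A : Fin q → Mat (2 * n)}
    (ha : 0 < a) (hb : 0 < b) (hc : 0 < c) (habc : 2 * a + 2 * b + c ≤ 1 / 6)
    (h₁ : OpBound (b ^ 2) 1 P₁) (h₂ : OpBound (c ^ 2) 1 P₂) (hA : ∀ j, (A j).IsSymm)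
    (hAa : ∀ u, ∑ j, bilin (A j) u u ^ 2 ≤ a ^ 2 * bilin (1 : Mat (2 * n)) u u ^ 2) :
    0 < (-1) ^ n * gaussBonnet n (P₁ - P₂ - kn 1 - ∑ j, kn (A j)) := by
  obtain ⟨K₁, hK₁⟩ := exists_rep h₁.alg h₁.pos
  obtain ⟨K₂, hK₂⟩ := exists_rep h₂.alg h₂.pos
  have hV1 : VarLe K₁ (b ^ 2) := varLe_rep hK₁ (sq_nonneg b) h₁.bound
  have hV2 : VarLe K₂ (c ^ 2) := varLe_rep hK₂ (sq_nonneg c) h₂.bound
  have hVA : VarLe A (a ^ 2) := varLe_sym hA ha.le hAa
  have h := pw_one hn (fun j => hA j) hK₁ hK₂ ha hb hc habc hVA hV1 hV2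
  set V : Arr (2 * n) := fun i j k l => kn 1 i j k l + ∑ x, kn (A x) i j k l - P₁ i j k l +
    P₂ i j k l with hV
  have h2 : (P₁ - P₂ - kn 1 - ∑ j, kn (A j)) = fun i j k l => - V i j k l := by
    funext i j k l
    simp only [Pi.sub_apply, Finset.sum_apply, hV]
    ring
  rw [h2, gaussBonnet_neg, ← mul_assoc, ← pow_add, ← two_mul, pow_mul, neg_one_sq, one_pow, one_mul]
  refine lt_of_lt_of_le ?_ h
  positivity

theorem adm1_one (hn : 1 ≤ n) {P : Arr (2 * n)} (h : OpBound (1 / 32) 1 P) :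
    0 < (-1) ^ n * gaussBonnet n (P - kn 1) := by
  have hk1 : IsAlgCurv (kn (1 : Mat (2 * n))) := kn_algCurv Matrix.transpose_one
  have hR : IsAlgCurv (P - kn 1) := by
    refine ⟨fun i j k l => ?_, fun i j k l => ?_, fun i j k l => ?_⟩
    · simp only [Pi.sub_apply]
      rw [h.alg.skew i j k l, hk1.skew i j k l]
      ring
    · simp only [Pi.sub_apply]
      rw [h.alg.pair i j k l, hk1.pair i j k l]
    · simp only [Pi.sub_apply]
      linarith [h.alg.bianchi i j k l, hk1.bianchi i j k l]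
  have hbsq : Real.sqrt (1 / 32) ^ 2 = 1 / 32 := Real.sq_sqrt (by norm_num)
  have hmain := dimension_free hn (h := (1 : Mat (2 * n))) Matrix.PosDef.one (p := 0)
    (A := fun _ => 0) (fun α => α.elim0) hR (a := 0) (b := Real.sqrt (1 / 32)) le_rfl
    (Real.sqrt_nonneg _) (Or.inr ⟨rfl, by rw [hbsq]; norm_num⟩) ?_ ?_ ?_
  · refine lt_of_lt_of_le ?_ hmain
    rw [Matrix.det_one]
    positivity
  · intro x
    rw [Finset.univ_eq_empty, Finset.sum_empty]
    positivity
  · intro X hX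
    rw [Finset.univ_eq_empty, Finset.sum_empty, add_zero]
    have h1 : opForm (P - kn 1) X = opForm P X - opForm (kn 1) X := by
      unfold opForm
      simp only [← Finset.sum_sub_distrib]
      refine Finset.sum_congr rfl fun i _ => Finset.sum_congr rfl fun j _ =>
        Finset.sum_congr rfl fun k _ => Finset.sum_congr rfl fun l _ => ?_
      simp only [Pi.sub_apply]
      ring
    have h2 : 0 ≤ opForm P X := by
      have h3 := h.pos (Matrix.of X) (by
        ext i j
        simp only [Matrix.transpose_apply, Matrix.of_apply, Matrix.neg_apply]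
        exact hX j i)
      exact h3
    rw [h1]
    linarith
  · intro x y
    rw [Finset.univ_eq_empty, Finset.sum_empty, add_zero, hbsq]
    have h1 : ev (P - kn 1) x y x y = ev P x y x y - ev (kn 1) x y x y := by
      unfold ev
      simp only [← Finset.sum_sub_distrib]
      refine Finset.sum_congr rfl fun i _ => Finset.sum_congr rfl fun j _ =>
        Finset.sum_congr rfl fun k _ => Finset.sum_congr rfl fun l _ => ?_
      simp only [Pi.sub_apply]
      ring
    have h2 : ev P x y x y ≤ 1 / 32 * ev (kn 1) x y x y := h.bound x y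
    rw [h1]
    linarith

end Pool.Agent.H44D
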