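import Pool.Agent.Lib.H44D.S1

/-!
# H44D chunk S2 (S/M): adding a separable part increases the Gauss-Bonnet form

`gaussBonnet n (V + S) = ∑ B, mgb (S on B, V off B)` (`Finset.prod_add`, as `expand` in
`Lib/H69/Hopf/Step.lean`); the term `B = ∅` is `gaussBonnet n V`, the others are `≥ 0` (`mix_sep`, S1).
-/

open Finset

set_option autoImplicit false

namespace Pool.Agent.H44D

open Pool.Agent.H69Hopf Pool.Agent.H69Gauss Pool.Agent.H88S Pool.Agent.H11S Pool.Agent.H72S

theorem s2_expand {n : ℕ} (V S : Arr (2 * n)) :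
    gaussBonnet n (V + S) = ∑ A ∈ (Finset.univ : Finset (Fin n)).powerset,
      mgb (fun i => if decide (i ∈ A) then S else V) := by
  have hprod : ∀ (σ τ : Equiv.Perm (Fin (2 * n))),
      (∏ i : Fin n, (V + S) (σ (fst i)) (σ (snd i)) (τ (fst i)) (τ (snd i))) =
      ∑ A ∈ (Finset.univ : Finset (Fin n)).powerset,
        ∏ i, (if decide (i ∈ A) then S else V) (σ (fst i)) (σ (snd i)) (τ (fst i)) (τ (snd i)) := by
    intro σ τ
    have h0 : ∀ i : Fin n, (V + S) (σ (fst i)) (σ (snd i)) (τ (fst i)) (τ (snd i)) =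
        S (σ (fst i)) (σ (snd i)) (τ (fst i)) (τ (snd i)) +
        V (σ (fst i)) (σ (snd i)) (τ (fst i)) (τ (snd i)) := fun i => add_comm _ _
    simp only [h0, Finset.prod_add]
    refine sum_congr rfl fun A _ => ?_
    rw [← Finset.prod_mul_prod_compl A (fun i => (if decide (i ∈ A) then S else V) (σ (fst i))
      (σ (snd i)) (τ (fst i)) (τ (snd i))), Finset.compl_eq_univ_sdiff]
    congr 1
    · refine Finset.prod_congr rfl fun i hi => ?_
      simp [hi]
    · refine Finset.prod_congr rfl fun i hi => ?_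
      have hi' : i ∉ A := by
        rw [Finset.mem_sdiff] at hi
        exact hi.2
      simp [hi']
  unfold gaussBonnet mgb
  simp only [hprod, Finset.mul_sum]
  calc ∑ σ : Equiv.Perm (Fin (2 * n)), ∑ τ : Equiv.Perm (Fin (2 * n)),
        ∑ A ∈ (Finset.univ : Finset (Fin n)).powerset,
        ((Equiv.Perm.sign σ : ℤ) : ℝ) * ((Equiv.Perm.sign τ : ℤ) : ℝ) *
        ∏ i, (if decide (i ∈ A) then S else V) (σ (fst i)) (σ (snd i)) (τ (fst i)) (τ (snd i))
      = ∑ σ : Equiv.Perm (Fin (2 * n)), ∑ A ∈ (Finset.univ : Finset (Fin n)).powerset,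
        ∑ τ : Equiv.Perm (Fin (2 * n)),
        ((Equiv.Perm.sign σ : ℤ) : ℝ) * ((Equiv.Perm.sign τ : ℤ) : ℝ) *
        ∏ i, (if decide (i ∈ A) then S else V) (σ (fst i)) (σ (snd i)) (τ (fst i)) (τ (snd i)) :=
        Finset.sum_congr rfl fun σ _ => Finset.sum_comm
    _ = _ := Finset.sum_comm

theorem gb_add_sep {n : ℕ} {V : Arr (2 * n)} (hV : GoodV n V) {r : ℕ}
    (x y : Fin r → Fin (2 * n) → ℝ) : gaussBonnet n V ≤ gaussBonnet n (V + sepT x y) := by
  rw [s2_expand]
  have h : gaussBonnet n V =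
      mgb (fun i => if decide (i ∈ (∅ : Finset (Fin n))) then sepT x y else V) := by
    rw [gaussBonnet_eq_mgb]
    simp
  rw [h]
  exact Finset.single_le_sum (f := fun A : Finset (Fin n) =>
    mgb (fun i => if decide (i ∈ A) then sepT x y else V))
    (fun A _ => mix_sep n V hV r x y (fun i => decide (i ∈ A))) (Finset.empty_mem_powerset _)

end Pool.Agent.H44D
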