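import Pool.Agent.Lib.H44D.F1
import Pool.Agent.Lib.H44D.F3
import Pool.Agent.Lib.H44D.S2

/-!
# H44D chunk F4 (M): the pointwise theorem

`near0 h R`: the condition without separable part.
`near0_pos`: `h` positive definite.  `h = Pᵀ * P` with `P` invertible (as in the proof of `dimension_free`,
`Lib/H69/Gauss/Final2.lean`), `E = P⁻¹`, `Eᵀ h E = 1`, `v i` the `i`-th column of `E`; `pull v R` satisfies the condition with `pullM v h = 1` (F1), so `adm_one`, `adm1_one` (F3)
apply (`n = 0`: `gaussBonnet 0 _ = 1`), and `gaussBonnet n (pull v R) = det² * gaussBonnet n R`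
(`mgb_pull`).
`near0_nonneg`: `h` positive semidefinite.  Replace `h` by `h_e = h + e • 1`, `e > 0`, and `R` by
`R_e = R + kn h - kn h_e`: `kn h_e (u,v,u,v) ≥ kn h (u,v,u,v)` and `h_e (u,u) ≥ h (u,u)`, so `near0 h_e R_e`;
`gaussBonnet n R_e → gaussBonnet n R` as `e → 0` (a polynomial in `e`; continuity by `fun_prop`).
`near_nonneg`, `near_pos`: `-R = V + S` with `V = - (R + S)`; `GoodV n V`: `pull v (R + S)` satisfies the
condition without separable part in dimension `2 k` (F1), `near0_nonneg`, `gb_neg`; then `gb_add_sep` (S2).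
-/

open Finset Matrix
open scoped MatrixOrder

set_option autoImplicit false

namespace Pool.Agent.H44D

open Pool.Agent.H69Hopf Pool.Agent.H69Gauss Pool.Agent.H88S Pool.Agent.H11S Pool.Agent.H72S

/-- The condition without separable part. -/
def Near0 {N : ℕ} (h : Mat N) (R : Arr N) : Prop :=
  h.PosSemidef ∧
    ((∃ (a b c : ℝ) (P₁ P₂ : Arr N) (q : ℕ) (A : Fin q → Mat N),
      0 < a ∧ 0 < b ∧ 0 < c ∧ 2 * a + 2 * b + c ≤ 1 / 6 ∧
      OpBound (b ^ 2) h P₁ ∧ OpBound (c ^ 2) h P₂ ∧ (∀ j, (A j).IsSymm) ∧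
      (∀ u, ∑ j, bilin (A j) u u ^ 2 ≤ a ^ 2 * bilin h u u ^ 2) ∧
      R = P₁ - P₂ - kn h - ∑ j, kn (A j)) ∨
    ∃ P : Arr N, OpBound (1 / 32) h P ∧ R = P - kn h)

theorem f4_symm {N : ℕ} {h : Mat N} (hh : h.PosSemidef) : h.transpose = h := by
  have h1 := hh.isHermitian
  unfold Matrix.IsHermitian at h1
  rwa [Matrix.conjTranspose_eq_transpose_of_trivial] at h1

theorem f4_dot {N : ℕ} (h : Mat N) (x : Fin N → ℝ) :
    bilin h x x = star x ⬝ᵥ (h *ᵥ x) := by
  rw [star_trivial]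
  unfold bilin Matrix.mulVec dotProduct
  refine Finset.sum_congr rfl fun i _ => ?_
  rw [Finset.mul_sum]
  exact Finset.sum_congr rfl fun j _ => by ring

theorem f4_psd {N : ℕ} {h : Mat N} (hs : h.transpose = h) (h0 : ∀ x, 0 ≤ bilin h x x) :
    h.PosSemidef := by
  refine Matrix.PosSemidef.of_dotProduct_mulVec_nonneg ?_ ?_
  · unfold Matrix.IsHermitian
    rw [Matrix.conjTranspose_eq_transpose_of_trivial, hs]
  · intro x
    rw [← f4_dot]
    exact h0 x

theorem f4_pos {N : ℕ} {h : Mat N} (hh : h.PosSemidef) (x : Fin N → ℝ) : 0 ≤ bilin h x x := by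
  rw [f4_dot]
  exact hh.dotProduct_mulVec_nonneg x

theorem f4_bilin_symm {N : ℕ} {h : Mat N} (hs : h.transpose = h) (x y : Fin N → ℝ) :
    bilin h x y = bilin h y x := by
  rw [bilin_eq_bil, bilin_eq_bil]
  exact bil_symm hs x y

theorem f4_pullM_symm {M N : ℕ} (v : Fin M → (Fin N → ℝ)) {h : Mat N} (hs : h.transpose = h) :
    (pullM v h).transpose = pullM v h := by
  ext i j
  simp only [Matrix.transpose_apply, pullM, Matrix.of_apply]
  exact f4_bilin_symm hs _ _

theorem f4_pullM_psd {M N : ℕ} (v : Fin M → (Fin N → ℝ)) {h : Mat N} (hh : h.PosSemidef) :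
    (pullM v h).PosSemidef := by
  refine f4_psd (f4_pullM_symm v (f4_symm hh)) ?_
  intro x
  rw [bilin_pullM]
  exact f4_pos hh _

theorem near0_pull {M N : ℕ} (v : Fin M → (Fin N → ℝ)) {h : Mat N} {R : Arr N}
    (hR : Near0 h R) : Near0 (pullM v h) (pull v R) := by
  obtain ⟨hh, hR⟩ := hR
  refine ⟨f4_pullM_psd v hh, ?_⟩
  rcases hR with ⟨a, b, c, P₁, P₂, q, A, ha, hb, hc, habc, h1, h2, hA, hAa, hR⟩ | ⟨P, hP, hR⟩
  · refine Or.inl ⟨a, b, c, pull v P₁, pull v P₂, q, fun j => pullM v (A j), ha, hb, hc, habc,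
      pull_opBound v h1, pull_opBound v h2, fun j => f4_pullM_symm v (hA j), ?_, ?_⟩
    · intro u
      rw [bilin_pullM]
      have h3 : ∑ j, bilin (pullM v (A j)) u u ^ 2 =
          ∑ j, bilin (A j) (comb v u) (comb v u) ^ 2 :=
        Finset.sum_congr rfl fun j _ => by rw [bilin_pullM]
      rw [h3]
      exact hAa _
    · rw [hR, pull_sub, pull_sub, pull_sub, pull_sum, pull_kn]
      congr 1
      exact Finset.sum_congr rfl fun j _ => pull_kn v (A j)
  · refine Or.inr ⟨pull v P, pull_opBound v hP, ?_⟩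
    rw [hR, pull_sub, pull_kn]

theorem near0_pos {n : ℕ} {h : Mat (2 * n)} (hh : h.PosDef) {R : Arr (2 * n)} (hR : Near0 h R) :
    0 < (-1) ^ n * gaussBonnet n R := by
  obtain ⟨P, hP⟩ := CStarAlgebra.nonneg_iff_eq_star_mul_self.mp hh.posSemidef.nonneg
  have hP' : h = P.transpose * P := by
    rw [hP, Matrix.star_eq_conjTranspose, Matrix.conjTranspose_eq_transpose_of_trivial]
  have hPd : P.det ≠ 0 := by
    intro h0
    have h1 := hh.det_pos
    rw [hP', Matrix.det_mul, Matrix.det_transpose, h0] at h1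
    simp at h1
  have hPu : IsUnit P.det := isUnit_iff_ne_zero.2 hPd
  set E : Mat (2 * n) := P⁻¹ with hE
  set v : Fin (2 * n) → (Fin (2 * n) → ℝ) := fun i a => E a i with hv
  have hEE : E.transpose * h * E = 1 := by
    rw [hP', hE]
    calc P⁻¹.transpose * (P.transpose * P) * P⁻¹
        = (P⁻¹.transpose * P.transpose) * (P * P⁻¹) := by simp only [Matrix.mul_assoc]
      _ = (P * P⁻¹).transpose * (P * P⁻¹) := by rw [Matrix.transpose_mul P]
      _ = 1 := by rw [Matrix.mul_nonsing_inv P hPu, Matrix.transpose_one, Matrix.one_mul]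
  have hone : pullM v h = 1 := by
    rw [← hEE]
    ext i j
    simp only [pullM, Matrix.of_apply, bilin, Matrix.mul_apply, Matrix.transpose_apply, hv]
    rw [Finset.sum_comm]
    refine Finset.sum_congr rfl fun k _ => ?_
    rw [Finset.sum_mul]
  have hN := near0_pull v hR
  rw [hone] at hN
  have hgb : gaussBonnet n (pull v R) = Matrix.det (Matrix.of v) ^ 2 * gaussBonnet n R := by
    rw [gaussBonnet_eq_mgb, gaussBonnet_eq_mgb]
    exact mgb_pull (fun _ => R) v
  have hpos : 0 < (-1) ^ n * gaussBonnet n (pull v R) := by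
    rcases Nat.eq_zero_or_pos n with h0 | h0
    · subst h0
      have h1 : gaussBonnet 0 (pull v R) = 1 := by
        unfold gaussBonnet
        simp
      rw [h1]
      norm_num
    · rcases hN.2 with ⟨a, b, c, P₁, P₂, q, A, ha, hb, hc, habc, h1, h2, hA, hAa, hR⟩ |
        ⟨P, hP, hR⟩
      · rw [hR]
        exact adm_one h0 ha hb hc habc h1 h2 hA hAa
      · rw [hR]
        exact adm1_one h0 hP
  rw [hgb] at hpos
  have h3 : (-1) ^ n * (Matrix.det (Matrix.of v) ^ 2 * gaussBonnet n R) =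
      Matrix.det (Matrix.of v) ^ 2 * ((-1) ^ n * gaussBonnet n R) := by ring
  rw [h3] at hpos
  by_contra hcon
  have hle : (-1) ^ n * gaussBonnet n R ≤ 0 := not_lt.1 hcon
  exact absurd hpos (not_lt.2 (mul_nonpos_of_nonneg_of_nonpos (sq_nonneg _) hle))

theorem f4_quad {N : ℕ} {h : Mat N} (hs : h.transpose = h) (u v : Fin N → ℝ) (r t : ℝ) :
    bilin h (r • u + t • v) (r • u + t • v) =
      r ^ 2 * bilin h u u + 2 * r * t * bilin h u v + t ^ 2 * bilin h v v := by
  simp only [bilin_eq_bil]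
  rw [bil_add_left, bil_add_right, bil_add_right, bil_smul_left, bil_smul_left, bil_smul_left,
    bil_smul_left, bil_smul_right, bil_smul_right, bil_smul_right, bil_smul_right,
    bil_symm hs v u]
  ring

theorem f4_bilin_add {N : ℕ} (h : Mat N) (e : ℝ) (x y : Fin N → ℝ) :
    bilin (h + e • (1 : Mat N)) x y = bilin h x y + e * ∑ i, x i * y i := by
  unfold bilin
  rw [Finset.mul_sum, ← Finset.sum_add_distrib]
  refine Finset.sum_congr rfl fun i _ => ?_
  have h1 : ∑ j, x i * (h + e • (1 : Mat N)) i j * y j =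
      ∑ j, x i * h i j * y j + ∑ j, x i * (e • (1 : Mat N)) i j * y j := by
    rw [← Finset.sum_add_distrib]
    refine Finset.sum_congr rfl fun j _ => ?_
    rw [Matrix.add_apply]
    ring
  rw [h1]
  congr 1
  rw [Finset.sum_eq_single i]
  · rw [Matrix.smul_apply, Matrix.one_apply_eq, smul_eq_mul, mul_one]
    ring
  · intro j _ hj
    rw [Matrix.smul_apply, Matrix.one_apply_ne (Ne.symm hj), smul_zero]
    ring
  · intro h2
    exact absurd (Finset.mem_univ i) h2

theorem f4_bracket {N : ℕ} {h : Mat N} (hh : h.PosSemidef) (u v : Fin N → ℝ) :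
    0 ≤ bilin h u u * ∑ i, v i * v i + bilin h v v * ∑ i, u i * u i -
      2 * bilin h u v * ∑ i, u i * v i := by
  have h1 : bilin h u u * ∑ i, v i * v i + bilin h v v * ∑ i, u i * u i -
      2 * bilin h u v * ∑ i, u i * v i =
      ∑ i, bilin h ((v i) • u + (-u i) • v) ((v i) • u + (-u i) • v) := by
    rw [Finset.mul_sum, Finset.mul_sum, Finset.mul_sum, ← Finset.sum_add_distrib,
      ← Finset.sum_sub_distrib]
    refine Finset.sum_congr rfl fun i _ => ?_
    rw [f4_quad (f4_symm hh)]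
    ring
  rw [h1]
  exact Finset.sum_nonneg fun i _ => f4_pos hh _

theorem f4_symm_add {N : ℕ} {h : Mat N} (hs : h.transpose = h) (e : ℝ) :
    (h + e • (1 : Mat N)).transpose = h + e • (1 : Mat N) := by
  rw [Matrix.transpose_add, Matrix.transpose_smul, Matrix.transpose_one, hs]

theorem f4_sec_mono {N : ℕ} {h : Mat N} (hh : h.PosSemidef) {e : ℝ} (he : 0 ≤ e)
    (u v : Fin N → ℝ) : sec (kn h) u v ≤ sec (kn (h + e • (1 : Mat N))) u v := by
  have hs := f4_symm hh
  rw [sec_eq_ev, sec_eq_ev, ev_kn hs, ev_kn (f4_symm_add hs e)]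
  simp only [← bilin_eq_bil]
  rw [f4_bilin_add, f4_bilin_add, f4_bilin_add]
  have h1 := f4_bracket hh u v
  have h2 : (∑ i, u i * v i) ^ 2 ≤ sq2 u * sq2 v := sq2_real_le u v
  have h3 : sq2 u = ∑ i, u i * u i := Finset.sum_congr rfl fun i _ => sq (u i)
  have h4 : sq2 v = ∑ i, v i * v i := Finset.sum_congr rfl fun i _ => sq (v i)
  rw [h3, h4] at h2
  set A := bilin h u u
  set B := bilin h v v
  set C := bilin h u v
  set U := ∑ i, u i * u i
  set V := ∑ i, v i * v i
  set W := ∑ i, u i * v i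
  have h5 : (A + e * U) * (B + e * V) - (C + e * W) ^ 2 =
      A * B - C ^ 2 + e * (A * V + B * U - 2 * C * W) + e ^ 2 * (U * V - W ^ 2) := by ring
  rw [h5]
  have h6 : 0 ≤ e * (A * V + B * U - 2 * C * W) := mul_nonneg he h1
  have h7 : 0 ≤ e ^ 2 * (U * V - W ^ 2) := mul_nonneg (sq_nonneg e) (by linarith)
  linarith

theorem f4_bound_mono {N : ℕ} {h : Mat N} (hh : h.PosSemidef) {e : ℝ} (he : 0 ≤ e) {t : ℝ}
    (ht : 0 ≤ t) {P : Arr N} (hP : OpBound t h P) : OpBound t (h + e • (1 : Mat N)) P :=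
  ⟨hP.alg, hP.pos, fun u v => (hP.bound u v).trans
    (mul_le_mul_of_nonneg_left (f4_sec_mono hh he u v) ht)⟩

theorem f4_near0_add {N : ℕ} {h : Mat N} {R : Arr N} (hR : Near0 h R) {e : ℝ} (he : 0 ≤ e) :
    Near0 (h + e • (1 : Mat N)) (R + kn h - kn (h + e • (1 : Mat N))) := by
  obtain ⟨hh, hR⟩ := hR
  refine ⟨hh.add (Matrix.PosSemidef.one.smul he), ?_⟩
  rcases hR with ⟨a, b, c, P₁, P₂, q, A, ha, hb, hc, habc, h1, h2, hA, hAa, hR⟩ | ⟨P, hP, hR⟩
  · refine Or.inl ⟨a, b, c, P₁, P₂, q, A, ha, hb, hc, habc,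
      f4_bound_mono hh he (sq_nonneg b) h1, f4_bound_mono hh he (sq_nonneg c) h2, hA, ?_, ?_⟩
    · intro u
      refine (hAa u).trans (mul_le_mul_of_nonneg_left ?_ (sq_nonneg a))
      rw [f4_bilin_add]
      have h3 := f4_pos hh u
      have h4 : 0 ≤ e * ∑ i, u i * u i :=
        mul_nonneg he (Finset.sum_nonneg fun i _ => mul_self_nonneg (u i))
      exact pow_le_pow_left₀ h3 (by linarith) 2
    · rw [hR]
      abel
  · refine Or.inr ⟨P, f4_bound_mono hh he (by norm_num) hP, ?_⟩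
    rw [hR]
    abel

theorem f4_cont {n : ℕ} (h : Mat (2 * n)) (R : Arr (2 * n)) :
    Continuous fun e : ℝ =>
      (-1) ^ n * gaussBonnet n (R + kn h - kn (h + e • (1 : Mat (2 * n)))) := by
  unfold gaussBonnet
  simp only [kn, Pi.add_apply, Pi.sub_apply, Matrix.add_apply, Matrix.smul_apply, smul_eq_mul]
  fun_prop

theorem near0_nonneg {n : ℕ} {h : Mat (2 * n)} {R : Arr (2 * n)} (hR : Near0 h R) :
    0 ≤ (-1) ^ n * gaussBonnet n R := by
  have h1 : ∀ e : ℝ, 0 < e →
      0 ≤ (-1) ^ n * gaussBonnet n (R + kn h - kn (h + e • (1 : Mat (2 * n)))) := fun e he =>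
    (near0_pos (Matrix.PosDef.posSemidef_add hR.1 (Matrix.PosDef.one.smul he))
      (f4_near0_add hR he.le)).le
  have h2 := ((f4_cont h R).tendsto 0).mono_left (nhdsWithin_le_nhds (s := Set.Ioi (0 : ℝ)))
  have h3 := ge_of_tendsto h2 (Filter.eventually_of_mem self_mem_nhdsWithin
    fun e he => h1 e he)
  rw [zero_smul, add_zero, add_sub_cancel_right] at h3
  exact h3

theorem f4_split {N : ℕ} {h : Mat N} {R : Arr N} (hR : Near h R) :
    ∃ (r : ℕ) (x y : Fin r → Fin N → ℝ), Near0 h (R + sepT x y) := by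
  obtain ⟨hh, hR⟩ := hR
  rcases hR with ⟨a, b, c, P₁, P₂, q, r, A, x, y, ha, hb, hc, habc, h1, h2, hA, hAa, hR⟩ |
    ⟨P, r, x, y, hP, hR⟩
  · refine ⟨r, x, y, hh, Or.inl ⟨a, b, c, P₁, P₂, q, A, ha, hb, hc, habc, h1, h2, hA, hAa, ?_⟩⟩
    rw [hR]
    abel
  · refine ⟨r, x, y, hh, Or.inr ⟨P, hP, ?_⟩⟩
    rw [hR]
    abel

theorem f4_neg {n : ℕ} (R : Arr (2 * n)) : gaussBonnet n (-R) = (-1) ^ n * gaussBonnet n R :=
  gaussBonnet_neg R

theorem f4_pull_neg {M N : ℕ} (v : Fin M → (Fin N → ℝ)) (R : Arr N) : pull v (-R) = - pull v R := by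
  have h := pull_sub v 0 R
  have h0 : pull v (0 : Arr N) = 0 := by
    have h1 := pull_sub v (0 : Arr N) 0
    rwa [sub_zero, sub_self] at h1
  rw [h0, zero_sub, zero_sub] at h
  exact h

theorem f4_key {n : ℕ} {h : Mat (2 * n)} {R : Arr (2 * n)} {r : ℕ}
    {x y : Fin r → Fin (2 * n) → ℝ} (hR : Near0 h (R + sepT x y)) :
    (-1) ^ n * gaussBonnet n (R + sepT x y) ≤ (-1) ^ n * gaussBonnet n R := by
  have hV : GoodV n (-(R + sepT x y)) := by
    intro k v
    rw [f4_pull_neg, f4_neg]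
    exact near0_nonneg (near0_pull v hR)
  have h1 := gb_add_sep hV x y
  have h2 : -(R + sepT x y) + sepT x y = -R := by abel
  rw [h2, f4_neg, f4_neg] at h1
  exact h1

theorem near_nonneg {n : ℕ} {h : Mat (2 * n)} {R : Arr (2 * n)} (hR : Near h R) :
    0 ≤ (-1) ^ n * gaussBonnet n R := by
  obtain ⟨r, x, y, h1⟩ := f4_split hR
  exact (near0_nonneg h1).trans (f4_key h1)

theorem near_pos {n : ℕ} {h : Mat (2 * n)} (hh : h.PosDef) {R : Arr (2 * n)} (hR : Near h R) :
    0 < (-1) ^ n * gaussBonnet n R := by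
  obtain ⟨r, x, y, h1⟩ := f4_split hR
  exact (near0_pos hh h1).trans_le (f4_key h1)

end Pool.Agent.H44D
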