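import Pool.Agent.Lib.H44D.Class

/-!
# H44D chunk F5 (S/M): the conditions `Adm1`, `Adm` from bounds for the curvature operator

`near_pinch`: curvature operator `≥ -k`, sectional curvatures `≤ -(31/32) k`.  `h = √k • G`,
`kn h = k • kn G` (`Real.mul_self_sqrt`), `P = R + k • kn G`, `sepT` with `r = 0` is zero.
`near_two`: curvature operator `≥ - k - Q` with `Q ≥ 0`, `sec Q ≤ c² k`, and `sec (R + Q) ≤ -(1 - b²) k`:
`P₁ = R + k • kn G + Q`, `P₂ = Q`, `q = 0` (no `A`), `a > 0` with `2 a + 2 b + c ≤ 1/6` (`2 b + c < 1/6`).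
`firstKind` and `sec` are linear in the tensor; `kn G` is an algebraic curvature tensor (`kn_algCurv`).
-/

open Finset

set_option autoImplicit false

namespace Pool.Agent.H44D

open Pool.Agent.H69Hopf Pool.Agent.H69Gauss Pool.Agent.H88S Pool.Agent.H11S Pool.Agent.H72S

variable {N : ℕ}

theorem f5_kn_smul (G : Mat N) {k : ℝ} (hk : 0 ≤ k) : kn (Real.sqrt k • G) = k • kn G := by
  funext i j a b
  have h := Real.mul_self_sqrt hk
  simp only [kn, Matrix.smul_apply, smul_eq_mul, Pi.smul_apply]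
  calc Real.sqrt k * G i a * (Real.sqrt k * G j b) - Real.sqrt k * G i b * (Real.sqrt k * G j a)
      = (Real.sqrt k * Real.sqrt k) * (G i a * G j b - G i b * G j a) := by ring
    _ = k * (G i a * G j b - G i b * G j a) := by rw [h]

theorem f5_sec_add (R Q : Arr N) (u v : Fin N → ℝ) : sec (R + Q) u v = sec R u v + sec Q u v := by
  unfold sec
  simp only [← Finset.sum_add_distrib]
  refine Finset.sum_congr rfl fun i _ => Finset.sum_congr rfl fun j _ =>
    Finset.sum_congr rfl fun k _ => Finset.sum_congr rfl fun l _ => ?_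
  simp only [Pi.add_apply]
  ring

theorem f5_sec_smul (t : ℝ) (Q : Arr N) (u v : Fin N → ℝ) : sec (t • Q) u v = t * sec Q u v := by
  unfold sec
  simp only [Finset.mul_sum]
  refine Finset.sum_congr rfl fun i _ => Finset.sum_congr rfl fun j _ =>
    Finset.sum_congr rfl fun k _ => Finset.sum_congr rfl fun l _ => ?_
  simp only [Pi.smul_apply, smul_eq_mul]
  ring

theorem f5_fk_add (R Q : Arr N) (w : Mat N) :
    firstKind (R + Q) w = firstKind R w + firstKind Q w := by
  unfold firstKind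
  simp only [← Finset.sum_add_distrib]
  refine Finset.sum_congr rfl fun i _ => Finset.sum_congr rfl fun j _ =>
    Finset.sum_congr rfl fun k _ => Finset.sum_congr rfl fun l _ => ?_
  simp only [Pi.add_apply]
  ring

theorem f5_fk_smul (t : ℝ) (Q : Arr N) (w : Mat N) : firstKind (t • Q) w = t * firstKind Q w := by
  unfold firstKind
  simp only [Finset.mul_sum]
  refine Finset.sum_congr rfl fun i _ => Finset.sum_congr rfl fun j _ =>
    Finset.sum_congr rfl fun k _ => Finset.sum_congr rfl fun l _ => ?_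
  simp only [Pi.smul_apply, smul_eq_mul]
  ring

theorem f5_alg_add {R Q : Arr N} (hR : IsAlgCurv R) (hQ : IsAlgCurv Q) : IsAlgCurv (R + Q) := by
  refine ⟨fun i j k l => ?_, fun i j k l => ?_, fun i j k l => ?_⟩
  · simp only [Pi.add_apply]
    rw [hR.skew i j k l, hQ.skew i j k l]
    ring
  · simp only [Pi.add_apply]
    rw [hR.pair i j k l, hQ.pair i j k l]
  · simp only [Pi.add_apply]
    linarith [hR.bianchi i j k l, hQ.bianchi i j k l]

theorem f5_alg_smul (t : ℝ) {Q : Arr N} (hQ : IsAlgCurv Q) : IsAlgCurv (t • Q) := by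
  refine ⟨fun i j k l => ?_, fun i j k l => ?_, fun i j k l => ?_⟩
  · simp only [Pi.smul_apply, smul_eq_mul]
    rw [hQ.skew i j k l]
    ring
  · simp only [Pi.smul_apply, smul_eq_mul]
    rw [hQ.pair i j k l]
  · simp only [Pi.smul_apply, smul_eq_mul]
    have h := hQ.bianchi i j k l
    calc t * Q i j k l + t * Q j k i l + t * Q k i j l
        = t * (Q i j k l + Q j k i l + Q k i j l) := by ring
      _ = 0 := by rw [h, mul_zero]

theorem f5_symm {G : Mat N} (hG : G.PosDef) : G.transpose = G := by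
  have h := hG.isHermitian
  unfold Matrix.IsHermitian at h
  rwa [Matrix.conjTranspose_eq_transpose_of_trivial] at h

theorem f5_psd {G : Mat N} (hG : G.PosDef) (k : ℝ) : (Real.sqrt k • G).PosSemidef :=
  hG.posSemidef.smul (Real.sqrt_nonneg k)

theorem f5_sep_zero (x y : Fin 0 → Fin N → ℝ) : sepT x y = 0 := by
  funext i j k l
  simp [sepT]

theorem near_pinch {G : Mat N} (hG : G.PosDef) {R : Arr N} (hR : IsAlgCurv R) {k : ℝ} (hk : 0 ≤ k)
    (h1 : ∀ w : Mat N, w.transpose = -w → -(k * firstKind (kn G) w) ≤ firstKind R w)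
    (h2 : ∀ u v, sec R u v ≤ -(31 / 32) * k * sec (kn G) u v) :
    Near (Real.sqrt k • G) R := by
  have hknG : IsAlgCurv (k • kn G) := f5_alg_smul k (kn_algCurv (f5_symm hG))
  refine ⟨f5_psd hG k, Or.inr ⟨R + k • kn G, 0, fun _ => 0, fun _ => 0, ⟨?_, ?_, ?_⟩, ?_⟩⟩
  · exact f5_alg_add hR hknG
  · intro w hw
    rw [f5_fk_add, f5_fk_smul]
    linarith [h1 w hw]
  · intro u v
    rw [f5_kn_smul G hk, f5_sec_add, f5_sec_smul]
    linarith [h2 u v]
  · rw [f5_kn_smul G hk, f5_sep_zero]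
    funext i j a b
    simp only [Pi.sub_apply, Pi.add_apply, Pi.zero_apply]
    ring

theorem near_two {G : Mat N} (hG : G.PosDef) {R Q : Arr N} (hR : IsAlgCurv R) (hQ : IsAlgCurv Q)
    {k b c : ℝ} (hk : 0 ≤ k) (hb : 0 < b) (hc : 0 < c) (hbc : 2 * b + c < 1 / 6)
    (hQ0 : ∀ w : Mat N, w.transpose = -w → 0 ≤ firstKind Q w)
    (hQ1 : ∀ u v, sec Q u v ≤ c ^ 2 * k * sec (kn G) u v)
    (h1 : ∀ w : Mat N, w.transpose = -w →
      -(k * firstKind (kn G) w + firstKind Q w) ≤ firstKind R w)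
    (h2 : ∀ u v, sec R u v + sec Q u v ≤ -(1 - b ^ 2) * k * sec (kn G) u v) :
    Near (Real.sqrt k • G) R := by
  have hknG : IsAlgCurv (k • kn G) := f5_alg_smul k (kn_algCurv (f5_symm hG))
  refine ⟨f5_psd hG k, Or.inl ⟨(1 / 6 - (2 * b + c)) / 2, b, c, R + k • kn G + Q, Q, 0, 0,
    fun _ => 0, fun _ => 0, fun _ => 0, by linarith, hb, hc, by linarith, ⟨?_, ?_, ?_⟩,
    ⟨hQ, hQ0, ?_⟩, ?_, ?_, ?_⟩⟩
  · exact f5_alg_add (f5_alg_add hR hknG) hQ
  · intro w hw
    rw [f5_fk_add, f5_fk_add, f5_fk_smul]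
    linarith [h1 w hw]
  · intro u v
    rw [f5_kn_smul G hk, f5_sec_add, f5_sec_add, f5_sec_smul]
    linarith [h2 u v]
  · intro u v
    rw [f5_kn_smul G hk, f5_sec_smul]
    linarith [hQ1 u v]
  · exact fun j => j.elim0
  · intro u
    rw [Finset.univ_eq_empty, Finset.sum_empty]
    positivity
  · rw [f5_kn_smul G hk, f5_sep_zero, Finset.univ_eq_empty, Finset.sum_empty]
    funext i j a b
    simp only [Pi.sub_apply, Pi.add_apply, Pi.zero_apply]
    ring

end Pool.Agent.H44D
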