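import Pool.Agent.Lib.H44D.Defs

/-!
# H44D chunk G1 (M): one Gaussian integration by parts

`XE M w U = LG (∑ σ, ∑ τ, C (w σ τ) * ∏ r ∈ U, H (σ r) (τ r))`, `H i j = lin (fun a => M a i j)` the matrix
of linear forms (`ymat M i j`, see `Lib/H69/Gauss/DetWick.lean`).

`XE_step`: take out the factor `r0` (`Finset.mul_prod_erase`), `lin c = ∑ a, C (c a) * X a`, `LG_sum`,
`LG_C_mul`, `LG_X_mul` (`LG (X a * f) = LG (pderiv a f)`), and
`pderiv a (∏ r ∈ S, f r) = ∑ r ∈ S, pderiv a (f r) * ∏ r' ∈ S.erase r, f r'` (`Derivation.leibniz_prod`, or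
induction on `S`), `pderiv a (lin c) = C (c a)` (`pderiv_lin`).  Then sum over `a`, and exchange the sums.
-/

open Finset Equiv MvPolynomial

set_option autoImplicit false

namespace Pool.Agent.H44D

open Pool.Agent.H69Hopf Pool.Agent.H69Gauss

variable {ι : Type} [Fintype ι] [DecidableEq ι] {N : ℕ}

/-- Gaussian expectation of `∑ σ, ∑ τ, w σ τ * ∏ r ∈ U, H (σ r) (τ r)`. -/
noncomputable def XE (M : ι → CM N) (w : Perm (Fin N) → Perm (Fin N) → ℂ) (U : Finset (Fin N)) : ℂ :=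
  LG (∑ σ : Perm (Fin N), ∑ τ : Perm (Fin N),
    (C (w σ τ) * ∏ r ∈ U, lin (fun a => M a (σ r) (τ r)) : MvPolynomial ι ℂ))

theorem pderiv_prod_lin (a : ι) (S : Finset (Fin N)) (c : Fin N → ι → ℂ) :
    pderiv a (∏ r ∈ S, lin (c r)) = ∑ r ∈ S, C (c r a) * ∏ r' ∈ S.erase r, lin (c r') := by
  induction S using Finset.induction_on with
  | empty => simp
  | insert b S hb ih =>
    rw [Finset.prod_insert hb, pderiv_mul, ih, pderiv_lin, Finset.sum_insert hb, Finset.erase_insert hb,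
      Finset.mul_sum]
    congr 1
    refine Finset.sum_congr rfl fun r hr => ?_
    have hbr : b ≠ r := fun h => hb (h ▸ hr)
    rw [Finset.erase_insert_of_ne hbr, Finset.prod_insert (fun h => hb (Finset.mem_of_mem_erase h))]
    ring

theorem g1_lin_mul (c : ι → ℂ) (q : MvPolynomial ι ℂ) :
    LG (lin c * q) = ∑ a, c a * LG (pderiv a q) := by
  unfold lin
  rw [Finset.sum_mul, LG_sum]
  refine Finset.sum_congr rfl fun a _ => ?_
  rw [mul_assoc, LG_C_mul, LG_X_mul]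

omit [DecidableEq ι] in
theorem g1_XE_eq (M : ι → CM N) (w : Perm (Fin N) → Perm (Fin N) → ℂ) (U : Finset (Fin N)) :
    XE M w U = ∑ σ : Perm (Fin N), ∑ τ : Perm (Fin N),
      w σ τ * LG (∏ r ∈ U, lin (fun a => M a (σ r) (τ r)) : MvPolynomial ι ℂ) := by
  unfold XE
  rw [LG_sum]
  refine Finset.sum_congr rfl fun σ _ => ?_
  rw [LG_sum]
  refine Finset.sum_congr rfl fun τ _ => ?_
  rw [LG_C_mul]

theorem XE_step (M : ι → CM N) (w : Perm (Fin N) → Perm (Fin N) → ℂ) (U : Finset (Fin N))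
    {r0 : Fin N} (h0 : r0 ∈ U) :
    XE M w U = ∑ r ∈ U.erase r0, XE M (fun σ τ => w σ τ * ∑ a, M a (σ r0) (τ r0) * M a (σ r) (τ r))
      ((U.erase r0).erase r) := by
  simp only [g1_XE_eq]
  symm
  rw [Finset.sum_comm]
  refine Finset.sum_congr rfl fun σ _ => ?_
  rw [Finset.sum_comm]
  refine Finset.sum_congr rfl fun τ _ => ?_
  symm
  rw [← Finset.mul_prod_erase U _ h0, g1_lin_mul, Finset.mul_sum]
  have h1 : ∀ a, w σ τ * (M a (σ r0) (τ r0) *
      LG (pderiv a (∏ r ∈ U.erase r0, lin (fun a => M a (σ r) (τ r)) : MvPolynomial ι ℂ))) =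
      ∑ r ∈ U.erase r0, w σ τ * (M a (σ r0) (τ r0) * M a (σ r) (τ r)) *
        LG (∏ r' ∈ (U.erase r0).erase r, lin (fun a => M a (σ r') (τ r')) : MvPolynomial ι ℂ) := by
    intro a
    rw [pderiv_prod_lin a (U.erase r0) (fun r a => M a (σ r) (τ r)), LG_sum, Finset.mul_sum, Finset.mul_sum]
    refine Finset.sum_congr rfl fun r _ => ?_
    rw [LG_C_mul]
    ring
  rw [Finset.sum_congr rfl (fun a _ => h1 a), Finset.sum_comm]
  refine Finset.sum_congr rfl fun r _ => ?_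
  rw [Finset.mul_sum, Finset.sum_mul]

end Pool.Agent.H44D
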