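import Pool.Agent.Lib.H44D.G1

/-!
# H44D chunk G2 (S/M): all the terms of `XE_step` are equal

`w σ τ = sg ℂ σ τ * v σ τ` with `v` invariant under `(σ, τ) ↦ (σ * swap r r', τ * swap r r')`, where
`r, r' ∈ U.erase r0`.  Reindex both sums with `Equiv.sum_comp (Equiv.mulRight (swap r r'))`:
`sg_mul_right`; `(σ * swap r r') r0 = σ r0` (`r0 ≠ r, r'`); `(σ * swap r r') r = σ r'`;
`∏ s ∈ (U.erase r0).erase r, lin (M · ((σ * swap r r') s) ..)` is the product over `(U.erase r0).erase r'`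
(reindex by `swap r r'`: it maps the first set onto the second).
-/

open Finset Equiv MvPolynomial

set_option autoImplicit false

namespace Pool.Agent.H44D

open Pool.Agent.H69Hopf Pool.Agent.H69Gauss

variable {ι : Type} [Fintype ι] [DecidableEq ι] {N : ℕ}

theorem g2_mem {U : Finset (Fin N)} {r r' : Fin N} (hr : r ∈ U) (hr' : r' ∈ U) (s : Fin N) :
    s ∈ U.erase r ↔ swap r r' s ∈ U.erase r' := by
  rw [Finset.mem_erase, Finset.mem_erase]
  by_cases h1 : s = r
  · subst h1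
    simp
  · by_cases h2 : s = r'
    · subst h2
      rw [swap_apply_right]
      exact ⟨fun _ => ⟨fun h => h1 h.symm, hr⟩, fun _ => ⟨h1, hr'⟩⟩
    · rw [swap_apply_of_ne_of_ne h1 h2]
      exact ⟨fun h => ⟨h2, h.2⟩, fun h => ⟨h1, h.2⟩⟩

theorem XE_symm (M : ι → CM N) (v : Perm (Fin N) → Perm (Fin N) → ℂ) (U : Finset (Fin N))
    {r0 r r' : Fin N} (hr : r ∈ U.erase r0) (hr' : r' ∈ U.erase r0)
    (hv : ∀ σ τ, v (σ * swap r r') (τ * swap r r') = v σ τ) :
    XE M (fun σ τ => sg ℂ σ τ * v σ τ * ∑ a, M a (σ r0) (τ r0) * M a (σ r) (τ r))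
        ((U.erase r0).erase r) =
      XE M (fun σ τ => sg ℂ σ τ * v σ τ * ∑ a, M a (σ r0) (τ r0) * M a (σ r') (τ r'))
        ((U.erase r0).erase r') := by
  simp only [g1_XE_eq]
  have h0 : r0 ≠ r := fun h => (Finset.mem_erase.1 hr).1 h.symm
  have h0' : r0 ≠ r' := fun h => (Finset.mem_erase.1 hr').1 h.symm
  rw [← Equiv.sum_comp (Equiv.mulRight (swap r r'))]
  refine Finset.sum_congr rfl fun σ _ => ?_
  rw [← Equiv.sum_comp (Equiv.mulRight (swap r r'))]
  refine Finset.sum_congr rfl fun τ _ => ?_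
  simp only [Equiv.coe_mulRight]
  have e0 : ∀ ρ : Perm (Fin N), (ρ * swap r r') r0 = ρ r0 := by
    intro ρ
    rw [Perm.mul_apply, swap_apply_of_ne_of_ne h0 h0']
  have e1 : ∀ ρ : Perm (Fin N), (ρ * swap r r') r = ρ r' := by
    intro ρ
    rw [Perm.mul_apply, swap_apply_left]
  have e2 : (∏ s ∈ (U.erase r0).erase r, lin (fun a => M a ((σ * swap r r') s) ((τ * swap r r') s)) :
      MvPolynomial ι ℂ) = ∏ s ∈ (U.erase r0).erase r', lin (fun a => M a (σ s) (τ s)) := by
    refine Finset.prod_equiv (swap r r') (fun s => g2_mem hr hr' s) ?_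
    intro s _
    rfl
  rw [sg_mul_right, hv, e2]
  simp only [e0, e1]

end Pool.Agent.H44D
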