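import Pool.Agent.Lib.H44D.G1

/-!
# H44D chunk G3 (M): the mixed form with Gaussian slots as an `XE`

`pos B` is the set of the positions `fst i`, `snd i` with `i ∉ B`.
`card_pos`: it has `2 |Bᶜ|` elements (`fst`, `snd` injective with disjoint images, `Lib/H69/Hopf/Alt.lean`).
`integral_mg`: `mg (slots) = evr x (∑ σ, ∑ τ, C (sg * ∏ i ∈ B, T i ..) * ∏ r ∈ pos B, lin (M · (σ r) (τ r)))`:
`evr x (lin c) = ∑ a, c a * x a` (`evr_lin`), `cmat M x i j = ∑ a, x a * M a i j`, `map_sum`, `map_mul`,
`map_prod`; `∏ i, (if i ∈ B then T i .. else H (σ fst) (τ fst) * H (σ snd) (τ snd))` splits as the product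
over `B` and the product over `Bᶜ` (`Finset.prod_mul_prod_compl`), the latter is the product over `pos B`.
Then `LG p = ∫ evr x p` is the definition, and `integrable_evr` gives the integrability.
-/

open Finset Equiv MvPolynomial MeasureTheory

set_option autoImplicit false

namespace Pool.Agent.H44D

open Pool.Agent.H69Hopf Pool.Agent.H69Gauss

variable {ι : Type} [Fintype ι] [DecidableEq ι] {n : ℕ}

/-- The positions of the slots outside `B`. -/
def pos (B : Finset (Fin n)) : Finset (Fin (2 * n)) :=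
  Bᶜ.image fst ∪ Bᶜ.image snd

theorem g3_disj (B : Finset (Fin n)) : Disjoint (Bᶜ.image fst) (Bᶜ.image snd) := by
  rw [Finset.disjoint_left]
  intro x hx hx'
  obtain ⟨i, -, rfl⟩ := Finset.mem_image.1 hx
  obtain ⟨j, -, hj⟩ := Finset.mem_image.1 hx'
  exact fst_ne_snd i j hj.symm

theorem g3_fst_injective : Function.Injective (fst : Fin n → Fin (2 * n)) := fun _ _ h => fst_inj.1 h

theorem g3_snd_injective : Function.Injective (snd : Fin n → Fin (2 * n)) := fun _ _ h => snd_inj.1 h

theorem card_pos (B : Finset (Fin n)) : (pos B).card = 2 * Bᶜ.card := by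
  unfold pos
  rw [Finset.card_union_of_disjoint (g3_disj B), Finset.card_image_of_injective _ g3_fst_injective,
    Finset.card_image_of_injective _ g3_snd_injective]
  ring

theorem fst_mem_pos {B : Finset (Fin n)} {i : Fin n} : fst i ∈ pos B ↔ i ∉ B := by
  unfold pos
  rw [Finset.mem_union, Finset.mem_image, Finset.mem_image]
  constructor
  · rintro (⟨j, hj, hji⟩ | ⟨j, hj, hji⟩)
    · rw [← fst_inj.1 hji]
      exact Finset.mem_compl.1 hj
    · exact absurd hji.symm (fst_ne_snd i j)
  · intro h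
    exact Or.inl ⟨i, Finset.mem_compl.2 h, rfl⟩

theorem snd_mem_pos {B : Finset (Fin n)} {i : Fin n} : snd i ∈ pos B ↔ i ∉ B := by
  unfold pos
  rw [Finset.mem_union, Finset.mem_image, Finset.mem_image]
  constructor
  · rintro (⟨j, hj, hji⟩ | ⟨j, hj, hji⟩)
    · exact absurd hji (fst_ne_snd j i)
    · rw [← snd_inj.1 hji]
      exact Finset.mem_compl.1 hj
  · intro h
    exact Or.inr ⟨i, Finset.mem_compl.2 h, rfl⟩

/-- The coefficient: the factors of the slots of `B`. -/
noncomputable def vB (B : Finset (Fin n)) (T : Fin n → CA (2 * n))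
    (σ τ : Perm (Fin (2 * n))) : ℂ :=
  ∏ i ∈ B, T i (σ (fst i)) (σ (snd i)) (τ (fst i)) (τ (snd i))

omit [DecidableEq ι] in
theorem g3_cmat (M : ι → CM (2 * n)) (x : ι → ℝ) (i j : Fin (2 * n)) :
    cmat M x i j = evr x (lin (fun a => M a i j)) := by
  rw [evr_lin]
  unfold cmat
  rw [Matrix.sum_apply]
  refine Finset.sum_congr rfl fun a _ => ?_
  rw [Matrix.smul_apply, smul_eq_mul, mul_comm]
  rfl

omit [DecidableEq ι] in
theorem g3_mg (M : ι → CM (2 * n)) (B : Finset (Fin n)) (T : Fin n → CA (2 * n)) (x : ι → ℝ) :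
    mg (fun i => if i ∈ B then T i else tens (cmat M x) (cmat M x)) =
      evr x (∑ σ : Perm (Fin (2 * n)), ∑ τ : Perm (Fin (2 * n)),
        (C (sg ℂ σ τ * vB B T σ τ) * ∏ r ∈ pos B, lin (fun a => M a (σ r) (τ r)) : MvPolynomial ι ℂ)) := by
  unfold mg
  rw [map_sum]
  refine Finset.sum_congr rfl fun σ _ => ?_
  rw [map_sum]
  refine Finset.sum_congr rfl fun τ _ => ?_
  rw [map_mul, map_prod]
  have e1 : evr x (C (sg ℂ σ τ * vB B T σ τ) : MvPolynomial ι ℂ) = sg ℂ σ τ * vB B T σ τ := by
    unfold evr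
    simp
  rw [e1, mul_assoc]
  congr 1
  rw [← Finset.prod_mul_prod_compl B]
  have e2 : (∏ i ∈ B, (if i ∈ B then T i else tens (cmat M x) (cmat M x)) (σ (fst i)) (σ (snd i))
      (τ (fst i)) (τ (snd i))) = vB B T σ τ := by
    unfold vB
    refine Finset.prod_congr rfl fun i hi => ?_
    rw [if_pos hi]
  rw [e2]
  congr 1
  unfold pos
  rw [Finset.prod_union (g3_disj B), Finset.prod_image (fun i _ j _ h => g3_fst_injective h),
    Finset.prod_image (fun i _ j _ h => g3_snd_injective h), ← Finset.prod_mul_distrib]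
  refine Finset.prod_congr rfl fun i hi => ?_
  have e3 : (if i ∈ B then T i else tens (cmat M x) (cmat M x)) = tens (cmat M x) (cmat M x) :=
    if_neg (Finset.mem_compl.1 hi)
  show (if i ∈ B then T i else tens (cmat M x) (cmat M x)) (σ (fst i)) (σ (snd i)) (τ (fst i)) (τ (snd i)) = _
  rw [e3, ← g3_cmat, ← g3_cmat]
  rfl

theorem integral_mg (M : ι → CM (2 * n)) (B : Finset (Fin n)) (T : Fin n → CA (2 * n)) :
    ∫ x, mg (fun i => if i ∈ B then T i else tens (cmat M x) (cmat M x)) ∂(gam ι) =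
      XE M (fun σ τ => sg ℂ σ τ * vB B T σ τ) (pos B) := by
  simp only [g3_mg]
  rfl

theorem integrable_mg (M : ι → CM (2 * n)) (B : Finset (Fin n)) (T : Fin n → CA (2 * n)) :
    Integrable (fun x => mg (fun i => if i ∈ B then T i else tens (cmat M x) (cmat M x)))
      (gam ι) := by
  simp only [g3_mg]
  exact integrable_evr _

end Pool.Agent.H44D
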