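import Pool.Agent.Lib.H44D.G2
import Pool.Agent.Lib.H44D.G3

/-!
# H44D chunk G4 (M): the Gaussian identity for the mixed form

`XE_mixed`, induction on `|Bᶜ|` for all `B`, `T`.
* `B = univ`: `pos univ = ∅`, `XE` is the sum of the constants (`LG_sum`, `LG_C`), `dff 0 = 1`.
* `i0 ∉ B`: `r0 = fst i0`.  `XE_step` (G1) gives a sum over the `2 |Bᶜ| - 1` elements `r` of
  `(pos B).erase r0`, all terms equal to the one with `r = snd i0` by `XE_symm` (G2): `vB B T` is invariant
  under `swap r r'` for `r, r' ∈ pos B`, as `fst i`, `snd i` (`i ∈ B`) are not in `pos B`.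
  For `r = snd i0`: `((pos B).erase (fst i0)).erase (snd i0) = pos (insert i0 B)` and
  `vB B T σ τ * ∑ a, M a (σ fst i0) (τ fst i0) * M a (σ snd i0) (τ snd i0) =
  vB (insert i0 B) (update T i0 (tsum M)) σ τ`.  Induction hypothesis for `insert i0 B`,
  `Function.update T i0 (tsum M)`; `dff (p + 1) = (2 p + 1) * dff p`.
`gauss_mixed`: `integral_mg` (G3), `XE_mixed`, and the product over `B` and `Bᶜ` again.
-/

open Finset Equiv MvPolynomial MeasureTheory

set_option autoImplicit false

namespace Pool.Agent.H44D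

open Pool.Agent.H69Hopf Pool.Agent.H69Gauss

variable {ι : Type} [Fintype ι] [DecidableEq ι] {n : ℕ}

theorem g4_vB_swap {B : Finset (Fin n)} (T : Fin n → CA (2 * n)) {r r' : Fin (2 * n)} (hr : r ∈ pos B) (hr' : r' ∈ pos B)
    (σ τ : Perm (Fin (2 * n))) : vB B T (σ * swap r r') (τ * swap r r') = vB B T σ τ := by
  unfold vB
  refine Finset.prod_congr rfl fun i hi => ?_
  have hf : swap r r' (fst i) = fst i := by
    refine swap_apply_of_ne_of_ne ?_ ?_
    · rintro rfl
      exact fst_mem_pos.1 hr hi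
    · rintro rfl
      exact fst_mem_pos.1 hr' hi
  have hs : swap r r' (snd i) = snd i := by
    refine swap_apply_of_ne_of_ne ?_ ?_
    · rintro rfl
      exact snd_mem_pos.1 hr hi
    · rintro rfl
      exact snd_mem_pos.1 hr' hi
  rw [Perm.mul_apply, Perm.mul_apply, Perm.mul_apply, Perm.mul_apply, hf, hs]

theorem g4_pos_insert {B : Finset (Fin n)} {i0 : Fin n} (h : i0 ∉ B) :
    ((pos B).erase (fst i0)).erase (snd i0) = pos (insert i0 B) := by
  ext x
  rw [Finset.mem_erase, Finset.mem_erase]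
  unfold pos
  simp only [Finset.mem_union, Finset.mem_image, Finset.mem_compl, Finset.mem_insert, not_or]
  constructor
  · rintro ⟨h1, h2, (⟨i, hi, rfl⟩ | ⟨i, hi, rfl⟩)⟩
    · exact Or.inl ⟨i, ⟨fun h' => h2 (by rw [h']), hi⟩, rfl⟩
    · exact Or.inr ⟨i, ⟨fun h' => h1 (by rw [h']), hi⟩, rfl⟩
  · rintro (⟨i, ⟨hi, hi'⟩, rfl⟩ | ⟨i, ⟨hi, hi'⟩, rfl⟩)
    · exact ⟨fst_ne_snd _ _, fun h' => hi (fst_inj.1 h'), Or.inl ⟨i, hi', rfl⟩⟩
    · exact ⟨fun h' => hi (snd_inj.1 h'), fun h' => fst_ne_snd _ _ h'.symm, Or.inr ⟨i, hi', rfl⟩⟩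

theorem XE_mixed (M : ι → CM (2 * n)) (p : ℕ) : ∀ (B : Finset (Fin n)) (T : Fin n → CA (2 * n)),
    Bᶜ.card = p → XE M (fun σ τ => sg ℂ σ τ * vB B T σ τ) (pos B) =
      (dff p : ℂ) * mg (fun i => if i ∈ B then T i else tsum M) := by
  induction p with
  | zero =>
    intro B T hB
    have hB1 : Bᶜ = ∅ := Finset.card_eq_zero.1 hB
    have hB2 : B = Finset.univ := by
      rw [← compl_compl B, hB1, Finset.compl_empty]
    have hpos : pos B = ∅ := by
      unfold pos
      rw [hB1]
      rfl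
    rw [g1_XE_eq, hpos]
    simp only [Finset.prod_empty, LG_one, mul_one, dff]
    unfold mg
    push_cast
    rw [one_mul]
    refine Finset.sum_congr rfl fun σ _ => Finset.sum_congr rfl fun τ _ => ?_
    congr 1
    unfold vB
    rw [hB2]
    refine Finset.prod_congr rfl fun i _ => ?_
    rw [if_pos (Finset.mem_univ i)]
  | succ p ih =>
    intro B T hB
    obtain ⟨i0, hi0⟩ : ∃ i0, i0 ∈ Bᶜ := by
      rw [← Finset.Nonempty, ← Finset.card_pos]
      omega
    have hi0B : i0 ∉ B := Finset.mem_compl.1 hi0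
    have hf : fst i0 ∈ pos B := fst_mem_pos.2 hi0B
    have hs : snd i0 ∈ pos B := snd_mem_pos.2 hi0B
    have hs' : snd i0 ∈ (pos B).erase (fst i0) := Finset.mem_erase.2 ⟨fun h => fst_ne_snd _ _ h.symm, hs⟩
    rw [XE_step M _ (pos B) hf]
    have h1 : ∀ r ∈ (pos B).erase (fst i0), XE M (fun σ τ => sg ℂ σ τ * vB B T σ τ *
        ∑ a, M a (σ (fst i0)) (τ (fst i0)) * M a (σ r) (τ r)) (((pos B).erase (fst i0)).erase r) =
        XE M (fun σ τ => sg ℂ σ τ * vB B T σ τ *
        ∑ a, M a (σ (fst i0)) (τ (fst i0)) * M a (σ (snd i0)) (τ (snd i0)))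
          (((pos B).erase (fst i0)).erase (snd i0)) := by
      intro r hr
      exact XE_symm M (vB B T) (pos B) hr hs'
        (fun σ τ => g4_vB_swap T (Finset.mem_of_mem_erase hr) hs σ τ)
    rw [Finset.sum_congr rfl h1, Finset.sum_const, Finset.card_erase_of_mem hf, card_pos, hB, g4_pos_insert hi0B]
    have hcard : (insert i0 B)ᶜ.card = p := by
      rw [Finset.compl_insert, Finset.card_erase_of_mem hi0, hB]
      rfl
    have h2 := ih (insert i0 B) (Function.update T i0 (tsum M)) hcard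
    have h3 : (fun σ τ : Perm (Fin (2 * n)) => sg ℂ σ τ * vB B T σ τ *
        ∑ a, M a (σ (fst i0)) (τ (fst i0)) * M a (σ (snd i0)) (τ (snd i0))) =
        fun σ τ => sg ℂ σ τ * vB (insert i0 B) (Function.update T i0 (tsum M)) σ τ := by
      funext σ τ
      rw [mul_assoc]
      congr 1
      unfold vB
      rw [Finset.prod_insert hi0B, Function.update_self, mul_comm]
      congr 1
      refine Finset.prod_congr rfl fun i hi => ?_
      rw [Function.update_of_ne]
      rintro rfl
      exact hi0B hi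
    have h4 : (fun i => if i ∈ insert i0 B then Function.update T i0 (tsum M) i else tsum M) =
        fun i => if i ∈ B then T i else tsum M := by
      funext i
      by_cases h : i = i0
      · subst h
        rw [if_pos (Finset.mem_insert_self _ _), Function.update_self, if_neg hi0B]
      · rw [Function.update_of_ne h]
        simp only [Finset.mem_insert, h, false_or]
    rw [h3, h2, h4]
    simp only [dff]
    push_cast
    rw [nsmul_eq_mul]
    have h5 : ((2 * (p + 1) - 1 : ℕ) : ℂ) = 2 * p + 1 := by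
      have : 2 * (p + 1) - 1 = 2 * p + 1 := by omega
      rw [this]
      push_cast
      ring
    rw [h5]
    ring

theorem gauss_mixed (M : ι → CM (2 * n)) (B : Finset (Fin n)) (T : Fin n → CA (2 * n)) :
    ∫ x, mg (fun i => if i ∈ B then T i else tens (cmat M x) (cmat M x)) ∂(gam ι) =
      (dff Bᶜ.card : ℂ) * mg (fun i => if i ∈ B then T i else tsum M) := by
  rw [integral_mg, XE_mixed M Bᶜ.card B T rfl]

end Pool.Agent.H44D
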