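import Pool.Agent.Lib.H44D.F1
import Pool.Agent.Lib.H69.Hopf.Step

/-!
# H44D chunk S1 (M/L): separable parts, mixed forms

`GoodV n V`: `gaussBonnet k (pull v V) ≥ 0` for all `k` and all `v : Fin (2 k) → ℝ^(2 n)`.
`mix_sep`: for `S = sepT x y`, `GoodV n V` and every `c : Fin n → Bool`:
`0 ≤ mgb (fun i => if c i then S else V)`.  Induction on `n`.  If `c = false`: `mgb = gaussBonnet n V`
(`gaussBonnet_eq_mgb`), and `V = pull (standard basis) V` (`ev_single`).  Otherwise some `c i0 = true`;
move it to the slot `0` (`mgb_perm`, `Lib/H69/Hopf/Sym.lean`; compare `mix_all`, `fam_cons` in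
`Lib/H69/Hopf/Step.lean`).  `n = m + 1`: `mgb_cons`, `consM_eq_cof`: `consM S T = ∑ S a b c d * cof T a b c d
= 4 ∑ k, ev (cof T) (x k) (y k) (x k) (y k)` (`cof_skew1`, `cof_skew2`, `Lib/H69/Hopf/Cof.lean`), and by
`ev_cof` each of these is `area2 .. * mgb (fun i => pull v (T i))` with `v` orthonormal; `T i` is `S` or
`V`, `pull v S` is again separable (`pull_sepT`, F1), `GoodV m (pull v V)` (`pull` of `pull` is the `pull` by
`comb`), induction hypothesis; `area2_nonneg`.
-/

open Finset

set_option autoImplicit false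

namespace Pool.Agent.H44D

open Pool.Agent.H69Hopf Pool.Agent.H69Gauss Pool.Agent.H88S Pool.Agent.H11S Pool.Agent.H72S

/-- All the restrictions of `V` to even dimensional spaces have nonnegative Gauss-Bonnet form. -/
def GoodV (n : ℕ) (V : Arr (2 * n)) : Prop :=
  ∀ (k : ℕ) (v : Fin (2 * k) → (Fin (2 * n) → ℝ)), 0 ≤ gaussBonnet k (pull v V)

theorem pull_pull {L M N : ℕ} (u : Fin L → (Fin M → ℝ)) (v : Fin M → (Fin N → ℝ)) (R : Arr N) :
    pull u (pull v R) = pull (fun i => comb v (u i)) R := by
  funext i j k l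
  exact (ev_comb R v (u i) (u j) (u k) (u l)).symm

theorem s1_skew {N : ℕ} (G : Arr N) (h1 : ∀ a b c d, G b a c d = - G a b c d)
    (h2 : ∀ a b c d, G a b d c = - G a b c d) (x y : Fin N → ℝ) :
    ∑ a, ∑ b, ∑ c, ∑ d, (x a * y b - x b * y a) * (x c * y d - x d * y c) * G a b c d =
      4 * ev G x y x y := by
  have s1 : ∀ H : Arr N, (∑ a, ∑ b, ∑ c, ∑ d, H a b c d) = ∑ a, ∑ b, ∑ c, ∑ d, H b a c d :=
    fun H => Finset.sum_comm
  have s2 : ∀ H : Arr N, (∑ a, ∑ b, ∑ c, ∑ d, H a b c d) = ∑ a, ∑ b, ∑ c, ∑ d, H a b d c :=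
    fun H => sum_congr rfl fun a _ => sum_congr rfl fun b _ => Finset.sum_comm
  have e1 : (∑ a, ∑ b, ∑ c, ∑ d, (x a * y b - x b * y a) * (x c * y d - x d * y c) * G a b c d) =
      2 * ∑ a, ∑ b, ∑ c, ∑ d, (x a * y b) * (x c * y d - x d * y c) * G a b c d := by
    have : (∑ a, ∑ b, ∑ c, ∑ d, (x a * y b - x b * y a) * (x c * y d - x d * y c) * G a b c d) =
        (∑ a, ∑ b, ∑ c, ∑ d, (x a * y b) * (x c * y d - x d * y c) * G a b c d) +
        ∑ a, ∑ b, ∑ c, ∑ d, (- (x b * y a)) * (x c * y d - x d * y c) * G a b c d := by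
      simp only [← sum_add_distrib]
      refine sum_congr rfl fun a _ => sum_congr rfl fun b _ => sum_congr rfl fun c _ =>
        sum_congr rfl fun d _ => ?_
      ring
    rw [this, s1 (fun a b c d => (- (x b * y a)) * (x c * y d - x d * y c) * G a b c d), two_mul]
    congr 1
    refine sum_congr rfl fun a _ => sum_congr rfl fun b _ => sum_congr rfl fun c _ =>
      sum_congr rfl fun d _ => ?_
    show (- (x a * y b)) * (x c * y d - x d * y c) * G b a c d = _
    rw [h1 a b c d]
    ring
  have e2 : (∑ a, ∑ b, ∑ c, ∑ d, (x a * y b) * (x c * y d - x d * y c) * G a b c d) =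
      2 * ev G x y x y := by
    have : (∑ a, ∑ b, ∑ c, ∑ d, (x a * y b) * (x c * y d - x d * y c) * G a b c d) =
        (∑ a, ∑ b, ∑ c, ∑ d, (x a * y b) * (x c * y d) * G a b c d) +
        ∑ a, ∑ b, ∑ c, ∑ d, (x a * y b) * (- (x d * y c)) * G a b c d := by
      simp only [← sum_add_distrib]
      refine sum_congr rfl fun a _ => sum_congr rfl fun b _ => sum_congr rfl fun c _ =>
        sum_congr rfl fun d _ => ?_
      ring
    rw [this, s2 (fun a b c d => (x a * y b) * (- (x d * y c)) * G a b c d), two_mul]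
    unfold ev
    congr 1
    · refine sum_congr rfl fun a _ => sum_congr rfl fun b _ => sum_congr rfl fun c _ =>
        sum_congr rfl fun d _ => ?_
      ring
    · refine sum_congr rfl fun a _ => sum_congr rfl fun b _ => sum_congr rfl fun c _ =>
        sum_congr rfl fun d _ => ?_
      show (x a * y b) * (- (x c * y d)) * G a b d c = _
      rw [h2 a b c d]
      ring
  rw [e1, e2]
  ring

theorem consM_sepT {m r : ℕ} (x y : Fin r → (Fin (2 * m + 1 + 1) → ℝ))
    (T : Fin m → Arr (2 * m + 1 + 1)) :
    consM (sepT x y) T = 4 * ∑ k, ev (cof T) (x k) (y k) (x k) (y k) := by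
  rw [consM_eq_cof, mul_sum]
  have h : ∀ k : Fin r, 4 * ev (cof T) (x k) (y k) (x k) (y k) =
      ∑ a, ∑ b, ∑ c, ∑ d, (x k a * y k b - x k b * y k a) * (x k c * y k d - x k d * y k c) *
        cof T a b c d :=
    fun k => (s1_skew (cof T) (fun a b c d => cof_skew1 T a b c d)
      (fun a b c d => cof_skew2 T a b c d) (x k) (y k)).symm
  simp only [h]
  calc ∑ a, ∑ b, ∑ c, ∑ d, sepT x y a b c d * cof T a b c d
      = ∑ a, ∑ b, ∑ c, ∑ k, ∑ d, (x k a * y k b - x k b * y k a) *
          (x k c * y k d - x k d * y k c) * cof T a b c d := by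
        refine sum_congr rfl fun a _ => sum_congr rfl fun b _ => sum_congr rfl fun c _ => ?_
        rw [sum_comm]
        refine sum_congr rfl fun d _ => ?_
        unfold sepT
        rw [sum_mul]
    _ = ∑ a, ∑ b, ∑ k, ∑ c, ∑ d, (x k a * y k b - x k b * y k a) *
          (x k c * y k d - x k d * y k c) * cof T a b c d :=
        sum_congr rfl fun a _ => sum_congr rfl fun b _ => sum_comm
    _ = ∑ a, ∑ k, ∑ b, ∑ c, ∑ d, (x k a * y k b - x k b * y k a) *
          (x k c * y k d - x k d * y k c) * cof T a b c d :=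
        sum_congr rfl fun a _ => sum_comm
    _ = ∑ k, ∑ a, ∑ b, ∑ c, ∑ d, (x k a * y k b - x k b * y k a) *
          (x k c * y k d - x k d * y k c) * cof T a b c d := sum_comm

theorem mix_sep (n : ℕ) : ∀ (V : Arr (2 * n)) (_ : GoodV n V) (r : ℕ) (x y : Fin r → Fin (2 * n) → ℝ)
    (c : Fin n → Bool), 0 ≤ mgb (fun i => if c i then sepT x y else V) := by
  induction n with
  | zero =>
    intro V hV r x y c
    have h0 := hV 0 (fun i => i.elim0)
    rw [gaussBonnet_eq_mgb] at h0
    have e : (fun i : Fin 0 => if c i then sepT x y else V) =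
        (fun _ : Fin 0 => pull (fun i => i.elim0) V) := by
      funext i
      exact i.elim0
    rw [e]
    exact h0
  | succ m ih =>
    intro V hV r x y c
    by_cases hc : ∃ i₀, c i₀ = true
    · obtain ⟨i₀, hi⟩ := hc
      rw [← mgb_perm (fun i => if c i then sepT x y else V) (Equiv.swap 0 i₀)]
      have hcons : (fun i : Fin (m + 1) => (fun i => if c i then sepT x y else V)
          (Equiv.swap 0 i₀ i)) =
          Fin.cons (α := fun _ => Arr (2 * (m + 1))) (sepT x y)
            (fun i : Fin m => if c (Equiv.swap 0 i₀ i.succ) then sepT x y else V) := by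
        funext i
        refine Fin.cases ?_ (fun i => ?_) i
        · rw [Fin.cons_zero]
          show (if c (Equiv.swap 0 i₀ 0) then sepT x y else V) = _
          rw [Equiv.swap_apply_left, if_pos hi]
        · rw [Fin.cons_succ]
      rw [hcons]
      refine le_of_le_of_eq ?_ (mgb_cons _ _).symm
      rw [consM_sepT (m := m)]
      refine mul_nonneg (by norm_num) (sum_nonneg fun k _ => cof_nonneg _ ?_ _ _)
      intro v _
      obtain ⟨x', y', hxy⟩ := pull_sepT v x y
      have h3 := ih (pull v V) (fun k u => by rw [pull_pull]; exact hV k _) r x' y'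
        (fun i => c (Equiv.swap 0 i₀ i.succ))
      have h4 : (fun i : Fin m => pull v (if c (Equiv.swap 0 i₀ i.succ) then sepT x y else V)) =
          fun i : Fin m => if c (Equiv.swap 0 i₀ i.succ) then sepT x' y' else pull v V := by
        funext i
        split_ifs
        · exact hxy
        · rfl
      rw [h4]
      exact h3
    · have e : (fun i : Fin (m + 1) => if c i then sepT x y else V) = fun _ => V := by
        funext i
        rw [if_neg]
        intro h
        exact hc ⟨i, h⟩
      rw [e, ← gaussBonnet_eq_mgb]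
      have h := hV (m + 1) (fun i => Pi.single i 1)
      have h2 : pull (fun i => Pi.single i (1 : ℝ)) V = V := by
        funext i j k l
        exact ev_single (R := V) i j k l
      rw [h2] at h
      exact h

end Pool.Agent.H44D
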